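import Pool.Agent.H.MP_072fb1_ag.K3.Basic

/-!
# The Atkin-Lehner isometry
-/

set_option autoImplicit false

namespace Pool.Agent.H.MP_072fb1_ag.K3

section

variable {K : Type*} [CommRing K]

/-- The map `(a, b, c) ↦ (q a + q' z² b + 2 q q' z c, q' a + q w² b + 2 q q' w c,
a + z w b + (q w + q' z) c)` on `U₂ ⊕ ℤδ`, the identity on the other summands. It is an isometry for
`N = q q'` if `q w - q' z = 1`. -/
def alMap (q q' w z : K) (x : HV K) : HV K :=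
  (x.1, (q * x.2.1.1 + q' * z ^ 2 * x.2.1.2 + 2 * q * q' * z * x.2.2.2.2.2,
      q' * x.2.1.1 + q * w ^ 2 * x.2.1.2 + 2 * q * q' * w * x.2.2.2.2.2),
    x.2.2.1, x.2.2.2.1, x.2.2.2.2.1,
    x.2.1.1 + z * w * x.2.1.2 + (q * w + q' * z) * x.2.2.2.2.2)

/-- The inverse map. -/
def alInv (q q' w z : K) (x : HV K) : HV K :=
  (x.1, (q * w ^ 2 * x.2.1.1 + q' * z ^ 2 * x.2.1.2 - 2 * q * q' * w * z * x.2.2.2.2.2,
      q' * x.2.1.1 + q * x.2.1.2 - 2 * q * q' * x.2.2.2.2.2),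
    x.2.2.1, x.2.2.2.1, x.2.2.2.2.1,
    -w * x.2.1.1 - z * x.2.1.2 + (q * w + q' * z) * x.2.2.2.2.2)

theorem alMap_add (q q' w z : K) (x y : HV K) :
    alMap q q' w z (x + y) = alMap q q' w z x + alMap q q' w z y := by
  obtain ⟨x1, ⟨x2, x3⟩, x4, x5, x6, x7⟩ := x
  obtain ⟨y1, ⟨y2, y3⟩, y4, y5, y6, y7⟩ := y
  simp only [alMap, Prod.mk_add_mk, Prod.mk.injEq, true_and]
  refine ⟨⟨?_, ?_⟩, ?_⟩ <;> ring

theorem alMap_smul (q q' w z : K) (t : K) (x : HV K) :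
    alMap q q' w z (t • x) = t • alMap q q' w z x := by
  obtain ⟨x1, ⟨x2, x3⟩, x4, x5, x6, x7⟩ := x
  simp only [alMap, Prod.smul_mk, smul_eq_mul, Prod.mk.injEq, true_and]
  refine ⟨⟨?_, ?_⟩, ?_⟩ <;> ring

theorem alInv_left {q q' w z : K} (h : q * w - q' * z = 1) (x : HV K) :
    alInv q q' w z (alMap q q' w z x) = x := by
  obtain ⟨x1, ⟨x2, x3⟩, x4, x5, x6, x7⟩ := x
  simp only [alMap, alInv, Prod.mk.injEq, true_and]
  refine ⟨⟨?_, ?_⟩, ?_⟩
  · linear_combination (x2 * (q * w - q' * z + 1)) * h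
  · linear_combination (x3 * (q * w - q' * z + 1)) * h
  · linear_combination (x7 * (q * w - q' * z + 1)) * h

theorem alInv_right {q q' w z : K} (h : q * w - q' * z = 1) (x : HV K) :
    alMap q q' w z (alInv q q' w z x) = x := by
  obtain ⟨x1, ⟨x2, x3⟩, x4, x5, x6, x7⟩ := x
  simp only [alMap, alInv, Prod.mk.injEq, true_and]
  refine ⟨⟨?_, ?_⟩, ?_⟩
  · linear_combination (x2 * (q * w - q' * z + 1)) * h
  · linear_combination (x3 * (q * w - q' * z + 1)) * h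
  · linear_combination (x7 * (q * w - q' * z + 1)) * h

theorem al_isom {q q' : ℕ} {w z : K} (h : (q : K) * w - q' * z = 1) (x y : HV K) :
    pH (q * q') (alMap (q : K) q' w z x) (alMap (q : K) q' w z y) = pH (q * q') x y := by
  obtain ⟨x1, ⟨x2, x3⟩, x4, x5, x6, x7⟩ := x
  obtain ⟨y1, ⟨y2, y3⟩, y4, y5, y6, y7⟩ := y
  simp only [alMap, pH, pR, hU]
  push_cast
  linear_combination ((x2 * y3 + x3 * y2 - 2 * q * q' * (x7 * y7)) *
    ((q : K) * w - q' * z + 1)) * h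

end

theorem al_int {q q' : ℕ} {w z : ℤ} {x : HV ℚ} (hx : IntH x) :
    IntH (alMap (q : ℚ) q' w z x) := by
  obtain ⟨h1, ⟨h2, h3⟩, h4, h5, h6, h7⟩ := hx
  have hq := IsZ.nat q
  have hq' := IsZ.nat q'
  have hw := IsZ.int w
  have hz := IsZ.int z
  have h2' : IsZ 2 := IsZ.nat 2
  refine ⟨h1, ⟨?_, ?_⟩, h4, h5, h6, ?_⟩
  · show IsZ ((q : ℚ) * x.2.1.1 + q' * (z : ℚ) ^ 2 * x.2.1.2 + 2 * q * q' * z * x.2.2.2.2.2)
    rw [pow_two]
    exact ((hq.mul h2).add ((hq'.mul (hz.mul hz)).mul h3)).add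
      ((((h2'.mul hq).mul hq').mul hz).mul h7)
  · show IsZ ((q' : ℚ) * x.2.1.1 + q * (w : ℚ) ^ 2 * x.2.1.2 + 2 * q * q' * w * x.2.2.2.2.2)
    rw [pow_two]
    exact ((hq'.mul h2).add ((hq.mul (hw.mul hw)).mul h3)).add
      ((((h2'.mul hq).mul hq').mul hw).mul h7)
  · show IsZ (x.2.1.1 + (z : ℚ) * w * x.2.1.2 + (q * w + q' * z) * x.2.2.2.2.2)
    exact (h2.add ((hz.mul hw).mul h3)).add (((hq.mul hw).add (hq'.mul hz)).mul h7)

theorem al_int_inv {q q' : ℕ} {w z : ℤ} {x : HV ℚ} (hx : IntH x) :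
    IntH (alInv (q : ℚ) q' w z x) := by
  obtain ⟨h1, ⟨h2, h3⟩, h4, h5, h6, h7⟩ := hx
  have hq := IsZ.nat q
  have hq' := IsZ.nat q'
  have hw := IsZ.int w
  have hz := IsZ.int z
  have h2' : IsZ 2 := IsZ.nat 2
  refine ⟨h1, ⟨?_, ?_⟩, h4, h5, h6, ?_⟩
  · show IsZ ((q : ℚ) * (w : ℚ) ^ 2 * x.2.1.1 + q' * (z : ℚ) ^ 2 * x.2.1.2 -
      2 * q * q' * w * z * x.2.2.2.2.2)
    rw [pow_two, pow_two]
    exact (((hq.mul (hw.mul hw)).mul h2).add ((hq'.mul (hz.mul hz)).mul h3)).sub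
      (((((h2'.mul hq).mul hq').mul hw).mul hz).mul h7)
  · show IsZ ((q' : ℚ) * x.2.1.1 + q * x.2.1.2 - 2 * q * q' * x.2.2.2.2.2)
    exact ((hq'.mul h2).add (hq.mul h3)).sub (((h2'.mul hq).mul hq').mul h7)
  · show IsZ (-(w : ℚ) * x.2.1.1 - z * x.2.1.2 + (q * w + q' * z) * x.2.2.2.2.2)
    exact ((hw.neg.mul h2).sub (hz.mul h3)).add (((hq.mul hw).add (hq'.mul hz)).mul h7)

theorem al_cc {q q' : ℕ} {w z : ℤ} (x : HV ℚ) :
    cc (alMap (q : ℚ) q' w z x) = alMap (q : ℂ) q' w z (cc x) := by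
  simp only [cc, alMap]
  push_cast
  rfl

theorem al_star {q q' : ℕ} {w z : ℤ} (s : HV ℂ) :
    star (alMap (q : ℂ) q' w z s) = alMap (q : ℂ) q' w z (star s) := by
  obtain ⟨x1, ⟨x2, x3⟩, x4, x5, x6, x7⟩ := s
  have e1 : star ((x1, (x2, x3), x4, x5, x6, x7) : HV ℂ) =
      (star x1, (star x2, star x3), star x4, star x5, star x6, star x7) := rfl
  rw [e1]
  have e2 : star (alMap (q : ℂ) q' w z ((x1, (x2, x3), x4, x5, x6, x7) : HV ℂ)) =
      (star x1, (star ((q : ℂ) * x2 + q' * (z : ℂ) ^ 2 * x3 + 2 * q * q' * z * x7),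
        star ((q' : ℂ) * x2 + q * (w : ℂ) ^ 2 * x3 + 2 * q * q' * w * x7)),
        star x4, star x5, star x6,
        star (x2 + (z : ℂ) * w * x3 + (q * w + q' * z) * x7)) := rfl
  rw [e2]
  simp only [alMap, Prod.mk.injEq, true_and]
  simp

/-- PROOF: `N = q q'`, `q w - q' z = 1` with integers `w`, `z`; `γ = alMap` over `ℚ`, `s' = alMap` over `ℂ` of `s`,
`c = 1`; `2 γ δ* = ((0,0),(2z, 2w), .., 2 ε δ*)`, `ε = q w + q' z = 1 + 2 q' z = 2 q w - 1`, and `N = q q'` divides neither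
`ε - 1 = 2 q' z` nor `ε + 1 = 2 q w` because `z` is prime to `q > 2` and `w` is prime to `q' > 2`. -/
theorem atkin_lehner {q q' : ℕ} (hq : 2 < q) (hq' : 2 < q') (hc : q.Coprime q') {s : HV ℂ}
    (hs : IsPeriod (q * q') s) :
    ∃ (s' : HV ℂ) (γ : HV ℚ ≃ₗ[ℚ] HV ℚ), IsPeriod (q * q') s' ∧ HodgeIsometryL (q * q') s s' γ ∧
      ¬ IntH ((2 : ℚ) • (γ (dst (q * q')) - dst (q * q'))) ∧
      ¬ IntH ((2 : ℚ) • (γ (dst (q * q')) + dst (q * q'))) := by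
  obtain ⟨w, z, hwz⟩ : ∃ w z : ℤ, (q : ℤ) * w - q' * z = 1 := by
    obtain ⟨a, b, hab⟩ := Nat.isCoprime_iff_coprime.mpr hc
    exact ⟨a, -b, by linarith⟩
  have hQ : (q : ℚ) * w - q' * z = 1 := by exact_mod_cast hwz
  have hC : (q : ℂ) * w - q' * z = 1 := by exact_mod_cast hwz
  have hq0 : (q : ℚ) ≠ 0 := by
    have : q ≠ 0 := by omega
    exact_mod_cast this
  have hq0' : (q' : ℚ) ≠ 0 := by
    have : q' ≠ 0 := by omega
    exact_mod_cast this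
  let γ : HV ℚ ≃ₗ[ℚ] HV ℚ :=
    { toFun := alMap (q : ℚ) q' w z
      map_add' := alMap_add _ _ _ _
      map_smul' := fun t x => alMap_smul _ _ _ _ t x
      invFun := alInv (q : ℚ) q' w z
      left_inv := alInv_left hQ
      right_inv := alInv_right hQ }
  have hγ : ∀ x, γ x = alMap (q : ℚ) q' w z x := fun _ => rfl
  refine ⟨alMap (q : ℂ) q' w z s, γ, ⟨?_, ?_⟩, ⟨?_, ?_, 1, one_ne_zero, ?_⟩, ?_, ?_⟩
  · rw [al_isom hC]
    exact hs.1
  · rw [al_star, al_isom hC]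
    exact hs.2
  · intro x y
    rw [hγ, hγ, al_isom hQ]
  · intro x
    constructor
    · intro h
      have h1 := al_int_inv (q := q) (q' := q') (w := w) (z := z) h
      rw [hγ, alInv_left hQ] at h1
      exact h1
    · intro h
      exact al_int h
  · intro x
    unfold pC
    rw [hγ, al_cc, al_isom hC, one_mul]
  · intro h
    obtain ⟨n, hn⟩ := h.2.2.2.2.2
    have e : (((2 : ℚ) • (γ (dst (q * q')) - dst (q * q'))) : HV ℚ).2.2.2.2.2 =
        2 * (((0 : ℚ) + z * w * 0 + (q * w + q' * z) * (1 / (2 * ((q * q' : ℕ) : ℚ)) * 1)) -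
          1 / (2 * ((q * q' : ℕ) : ℚ)) * 1) := by
      rw [hγ]
      simp [alMap, dst, dl]
    rw [e] at hn
    have h1 : (2 : ℚ) * z = n * q := by
      rw [← hn]
      push_cast
      field_simp
      linear_combination (-1 : ℚ) * hQ
    have h2 : (2 : ℤ) * z = n * q := by exact_mod_cast h1
    have h3 : (q : ℤ) ∣ 2 := by
      refine ⟨2 * w - q' * n, ?_⟩
      linear_combination (-2 : ℤ) * hwz - (q' : ℤ) * h2
    have h4 : q ≤ 2 := Nat.le_of_dvd two_pos (by exact_mod_cast h3)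
    omega
  · intro h
    obtain ⟨n, hn⟩ := h.2.2.2.2.2
    have e : (((2 : ℚ) • (γ (dst (q * q')) + dst (q * q'))) : HV ℚ).2.2.2.2.2 =
        2 * (((0 : ℚ) + z * w * 0 + (q * w + q' * z) * (1 / (2 * ((q * q' : ℕ) : ℚ)) * 1)) +
          1 / (2 * ((q * q' : ℕ) : ℚ)) * 1) := by
      rw [hγ]
      simp [alMap, dst, dl]
    rw [e] at hn
    have h1 : (2 : ℚ) * w = n * q' := by
      rw [← hn]
      push_cast
      field_simp
      linear_combination hQ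
    have h2 : (2 : ℤ) * w = n * q' := by exact_mod_cast h1
    have h3 : (q' : ℤ) ∣ 2 := by
      refine ⟨q * n - 2 * z, ?_⟩
      linear_combination (-2 : ℤ) * hwz + (q : ℤ) * h2
    have h4 : q' ≤ 2 := Nat.le_of_dvd two_pos (by exact_mod_cast h3)
    omega

end Pool.Agent.H.MP_072fb1_ag.K3
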