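import Pool.Agent.H.MP_072fb1_ag.K3.Lin

/-!
# Elementary properties of the forms
-/

set_option autoImplicit false

namespace Pool.Agent.H.MP_072fb1_ag.K3

open scoped BigOperators

section Ring

variable {K : Type*} [CommRing K]

theorem e8_add_left (x x' y : Fin 8 → K) : e8 (x + x') y = e8 x y + e8 x' y := by
  simp only [e8, Pi.add_apply, add_mul, Finset.sum_add_distrib]

theorem e8_smul_left (c : K) (x y : Fin 8 → K) : e8 (c • x) y = c * e8 x y := by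
  simp only [e8, Pi.smul_apply, smul_eq_mul, Finset.mul_sum, mul_assoc]

theorem e8_gram_symm (i j : Fin 8) : CartanMatrix.E₈ i j = CartanMatrix.E₈ j i := by
  revert i j
  decide

theorem e8_comm (x y : Fin 8 → K) : e8 x y = e8 y x := by
  unfold e8
  rw [Finset.sum_comm]
  refine Finset.sum_congr rfl fun i _ => Finset.sum_congr rfl fun j _ => ?_
  rw [e8_gram_symm j i]
  ring

theorem hU_comm (a b : K × K) : hU a b = hU b a := by unfold hU; ring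

theorem pR_comm (N : ℕ) (x y : RV K) : pR N x y = pR N y x := by
  unfold pR
  rw [hU_comm x.1, hU_comm x.2.1, e8_comm x.2.2.1, e8_comm x.2.2.2.1]
  ring

theorem pR_add_left (N : ℕ) (x x' y : RV K) : pR N (x + x') y = pR N x y + pR N x' y := by
  unfold pR
  simp only [Prod.fst_add, Prod.snd_add, e8_add_left, hU]
  ring

theorem pR_smul_left (N : ℕ) (c : K) (x y : RV K) : pR N (c • x) y = c * pR N x y := by
  unfold pR
  simp only [Prod.smul_fst, Prod.smul_snd, e8_smul_left, hU, smul_eq_mul]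
  ring

theorem pH_comm (N : ℕ) (x y : HV K) : pH N x y = pH N y x := by
  unfold pH
  rw [hU_comm, pR_comm]

theorem pH_add_left (N : ℕ) (x x' y : HV K) : pH N (x + x') y = pH N x y + pH N x' y := by
  unfold pH
  rw [Prod.snd_add, pR_add_left]
  simp only [hU, Prod.fst_add, Prod.snd_add]
  ring

theorem pH_smul_left (N : ℕ) (c : K) (x y : HV K) : pH N (c • x) y = c * pH N x y := by
  unfold pH
  rw [Prod.smul_snd, pR_smul_left]
  simp only [hU, Prod.smul_fst, Prod.smul_snd, smul_eq_mul]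
  ring

theorem pL_comm (N : ℕ) (x y : LV K) : pL N x y = pL N y x := by
  unfold pL
  rw [hU_comm, pH_comm]

theorem pL_add_left (N : ℕ) (x x' y : LV K) : pL N (x + x') y = pL N x y + pL N x' y := by
  unfold pL
  rw [Prod.snd_add, pH_add_left]
  simp only [hU, Prod.fst_add, Prod.snd_add]
  ring

theorem pL_smul_left (N : ℕ) (c : K) (x y : LV K) : pL N (c • x) y = c * pL N x y := by
  unfold pL
  rw [Prod.smul_snd, pH_smul_left]
  simp only [hU, Prod.smul_fst, Prod.smul_snd, smul_eq_mul]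
  ring

theorem pR_add_right (N : ℕ) (x y y' : RV K) : pR N x (y + y') = pR N x y + pR N x y' := by
  rw [pR_comm, pR_add_left, pR_comm N y, pR_comm N y']

theorem pR_smul_right (N : ℕ) (c : K) (x y : RV K) : pR N x (c • y) = c * pR N x y := by
  rw [pR_comm, pR_smul_left, pR_comm]

theorem pH_add_right (N : ℕ) (x y y' : HV K) : pH N x (y + y') = pH N x y + pH N x y' := by
  rw [pH_comm, pH_add_left, pH_comm N y, pH_comm N y']

theorem pH_smul_right (N : ℕ) (c : K) (x y : HV K) : pH N x (c • y) = c * pH N x y := by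
  rw [pH_comm, pH_smul_left, pH_comm]

theorem pL_add_right (N : ℕ) (x y y' : LV K) : pL N x (y + y') = pL N x y + pL N x y' := by
  rw [pL_comm, pL_add_left, pL_comm N y, pL_comm N y']

theorem pL_smul_right (N : ℕ) (c : K) (x y : LV K) : pL N x (c • y) = c * pL N x y := by
  rw [pL_comm, pL_smul_left, pL_comm]

theorem pR_neg_left (N : ℕ) (x y : RV K) : pR N (-x) y = -pR N x y := by
  rw [← neg_one_smul K x, pR_smul_left, neg_one_mul]

theorem pR_neg_right (N : ℕ) (x y : RV K) : pR N x (-y) = -pR N x y := by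
  rw [pR_comm, pR_neg_left, pR_comm]

theorem pH_neg_left (N : ℕ) (x y : HV K) : pH N (-x) y = -pH N x y := by
  rw [← neg_one_smul K x, pH_smul_left, neg_one_mul]

theorem pH_neg_right (N : ℕ) (x y : HV K) : pH N x (-y) = -pH N x y := by
  rw [pH_comm, pH_neg_left, pH_comm]

theorem pL_neg_left (N : ℕ) (x y : LV K) : pL N (-x) y = -pL N x y := by
  rw [← neg_one_smul K x, pL_smul_left, neg_one_mul]

theorem pL_neg_right (N : ℕ) (x y : LV K) : pL N x (-y) = -pL N x y := by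
  rw [pL_comm, pL_neg_left, pL_comm]

theorem pH_sub_left (N : ℕ) (x x' y : HV K) : pH N (x - x') y = pH N x y - pH N x' y := by
  rw [sub_eq_add_neg, pH_add_left, pH_neg_left, sub_eq_add_neg]

theorem pH_sub_right (N : ℕ) (x y y' : HV K) : pH N x (y - y') = pH N x y - pH N x y' := by
  rw [sub_eq_add_neg, pH_add_right, pH_neg_right, sub_eq_add_neg]

theorem pL_sub_left (N : ℕ) (x x' y : LV K) : pL N (x - x') y = pL N x y - pL N x' y := by
  rw [sub_eq_add_neg, pL_add_left, pL_neg_left, sub_eq_add_neg]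

theorem pL_sub_right (N : ℕ) (x y y' : LV K) : pL N x (y - y') = pL N x y - pL N x y' := by
  rw [sub_eq_add_neg, pL_add_right, pL_neg_right, sub_eq_add_neg]

end Ring

section Integral

theorem IsZ.add {a b : ℚ} (ha : IsZ a) (hb : IsZ b) : IsZ (a + b) := by
  obtain ⟨x, rfl⟩ := ha
  obtain ⟨y, rfl⟩ := hb
  exact ⟨x + y, by push_cast; ring⟩

theorem IsZ.mul {a b : ℚ} (ha : IsZ a) (hb : IsZ b) : IsZ (a * b) := by
  obtain ⟨x, rfl⟩ := ha
  obtain ⟨y, rfl⟩ := hb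
  exact ⟨x * y, by push_cast; ring⟩

theorem IsZ.neg {a : ℚ} (ha : IsZ a) : IsZ (-a) := by
  obtain ⟨x, rfl⟩ := ha
  exact ⟨-x, by push_cast; ring⟩

theorem IsZ.sub {a b : ℚ} (ha : IsZ a) (hb : IsZ b) : IsZ (a - b) := by
  rw [sub_eq_add_neg]
  exact ha.add hb.neg

theorem IsZ.int (z : ℤ) : IsZ z := ⟨z, rfl⟩

theorem IsZ.nat (n : ℕ) : IsZ n := ⟨n, by simp⟩

theorem IsZ.zero : IsZ 0 := ⟨0, by simp⟩

theorem IsZ.one : IsZ 1 := ⟨1, by simp⟩

theorem IsZ.sum {ι : Type*} (s : Finset ι) {f : ι → ℚ} (h : ∀ i ∈ s, IsZ (f i)) :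
    IsZ (∑ i ∈ s, f i) := by
  classical
  induction s using Finset.induction_on with
  | empty => simpa using IsZ.zero
  | insert a s ha ih =>
    rw [Finset.sum_insert ha]
    exact (h a (Finset.mem_insert_self a s)).add
      (ih fun i hi => h i (Finset.mem_insert_of_mem hi))

theorem IntR.add {x y : RV ℚ} (hx : IntR x) (hy : IntR y) : IntR (x + y) :=
  ⟨⟨hx.1.1.add hy.1.1, hx.1.2.add hy.1.2⟩, ⟨hx.2.1.1.add hy.2.1.1, hx.2.1.2.add hy.2.1.2⟩,
    fun i => (hx.2.2.1 i).add (hy.2.2.1 i), fun i => (hx.2.2.2.1 i).add (hy.2.2.2.1 i),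
    hx.2.2.2.2.add hy.2.2.2.2⟩

theorem IntR.smul {c : ℚ} {x : RV ℚ} (hc : IsZ c) (hx : IntR x) : IntR (c • x) :=
  ⟨⟨hc.mul hx.1.1, hc.mul hx.1.2⟩, ⟨hc.mul hx.2.1.1, hc.mul hx.2.1.2⟩,
    fun i => hc.mul (hx.2.2.1 i), fun i => hc.mul (hx.2.2.2.1 i), hc.mul hx.2.2.2.2⟩

theorem IntR.neg {x : RV ℚ} (hx : IntR x) : IntR (-x) := by
  rw [← neg_one_smul ℚ x]
  exact IntR.smul IsZ.one.neg hx

theorem IntR.zero : IntR 0 :=
  ⟨⟨IsZ.zero, IsZ.zero⟩, ⟨IsZ.zero, IsZ.zero⟩, fun _ => IsZ.zero, fun _ => IsZ.zero, IsZ.zero⟩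

theorem IntH.add {x y : HV ℚ} (hx : IntH x) (hy : IntH y) : IntH (x + y) :=
  ⟨⟨hx.1.1.add hy.1.1, hx.1.2.add hy.1.2⟩, hx.2.add hy.2⟩

theorem IntH.smul {c : ℚ} {x : HV ℚ} (hc : IsZ c) (hx : IntH x) : IntH (c • x) :=
  ⟨⟨hc.mul hx.1.1, hc.mul hx.1.2⟩, IntR.smul hc hx.2⟩

theorem IntH.neg {x : HV ℚ} (hx : IntH x) : IntH (-x) := by
  rw [← neg_one_smul ℚ x]
  exact IntH.smul IsZ.one.neg hx

theorem IntH.sub {x y : HV ℚ} (hx : IntH x) (hy : IntH y) : IntH (x - y) := by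
  rw [sub_eq_add_neg]
  exact hx.add hy.neg

theorem IntH.zero : IntH 0 := ⟨⟨IsZ.zero, IsZ.zero⟩, IntR.zero⟩

theorem IntL.add {x y : LV ℚ} (hx : IntL x) (hy : IntL y) : IntL (x + y) :=
  ⟨⟨hx.1.1.add hy.1.1, hx.1.2.add hy.1.2⟩, hx.2.add hy.2⟩

theorem IntL.smul {c : ℚ} {x : LV ℚ} (hc : IsZ c) (hx : IntL x) : IntL (c • x) :=
  ⟨⟨hc.mul hx.1.1, hc.mul hx.1.2⟩, IntH.smul hc hx.2⟩

theorem IntL.neg {x : LV ℚ} (hx : IntL x) : IntL (-x) := by
  rw [← neg_one_smul ℚ x]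
  exact IntL.smul IsZ.one.neg hx

theorem IntL.sub {x y : LV ℚ} (hx : IntL x) (hy : IntL y) : IntL (x - y) := by
  rw [sub_eq_add_neg]
  exact hx.add hy.neg

theorem IntL.zero : IntL 0 := ⟨⟨IsZ.zero, IsZ.zero⟩, IntH.zero⟩

theorem e8_int {x y : Fin 8 → ℚ} (hx : ∀ i, IsZ (x i)) (hy : ∀ i, IsZ (y i)) : IsZ (e8 x y) :=
  IsZ.sum _ fun i _ => IsZ.sum _ fun j _ => ((hx i).mul (IsZ.int _)).mul (hy j)

theorem hU_int {a b : ℚ × ℚ} (h1 : IsZ a.1) (h2 : IsZ a.2) (h3 : IsZ b.1) (h4 : IsZ b.2) :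
    IsZ (hU a b) := (h1.mul h4).add (h2.mul h3)

theorem pR_int {N : ℕ} {x y : RV ℚ} (hx : IntR x) (hy : IntR y) : IsZ (pR N x y) := by
  unfold pR
  exact ((((hU_int hx.1.1 hx.1.2 hy.1.1 hy.1.2).add
    (hU_int hx.2.1.1 hx.2.1.2 hy.2.1.1 hy.2.1.2)).sub (e8_int hx.2.2.1 hy.2.2.1)).sub
    (e8_int hx.2.2.2.1 hy.2.2.2.1)).sub
    (((IsZ.nat 2).mul (IsZ.nat N)).mul (hx.2.2.2.2.mul hy.2.2.2.2))

theorem pH_int {N : ℕ} {x y : HV ℚ} (hx : IntH x) (hy : IntH y) : IsZ (pH N x y) :=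
  (hU_int hx.1.1 hx.1.2 hy.1.1 hy.1.2).add (pR_int hx.2 hy.2)

theorem pL_int {N : ℕ} {x y : LV ℚ} (hx : IntL x) (hy : IntL y) : IsZ (pL N x y) :=
  (hU_int hx.1.1 hx.1.2 hy.1.1 hy.1.2).add (pH_int hx.2 hy.2)

theorem hU_even {a : ℚ × ℚ} (h1 : IsZ a.1) (h2 : IsZ a.2) : IsZ (hU a a / 2) := by
  have : hU a a / 2 = a.1 * a.2 := by unfold hU; ring
  rw [this]
  exact h1.mul h2

theorem e8_even {x : Fin 8 → ℚ} (hx : ∀ i, IsZ (x i)) : IsZ (e8 x x / 2) := by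
  choose z hz using hx
  have h : e8 x x / 2 = ((z 0 ^ 2 + z 1 ^ 2 + z 2 ^ 2 + z 3 ^ 2 + z 4 ^ 2 + z 5 ^ 2 + z 6 ^ 2 +
      z 7 ^ 2 - z 0 * z 2 - z 1 * z 3 - z 2 * z 3 - z 3 * z 4 - z 4 * z 5 - z 5 * z 6 -
      z 6 * z 7 : ℤ) : ℚ) := by
    have hx' : x = fun i => (z i : ℚ) := funext hz
    rw [hx']
    simp [e8, CartanMatrix.E₈, Fin.sum_univ_succ]
    ring
  rw [h]
  exact IsZ.int _

theorem pR_even {N : ℕ} {x : RV ℚ} (hx : IntR x) : IsZ (pR N x x / 2) := by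
  have h : pR N x x / 2 = hU x.1 x.1 / 2 + hU x.2.1 x.2.1 / 2 - e8 x.2.2.1 x.2.2.1 / 2 -
      e8 x.2.2.2.1 x.2.2.2.1 / 2 - N * (x.2.2.2.2 * x.2.2.2.2) := by
    unfold pR
    ring
  rw [h]
  exact ((((hU_even hx.1.1 hx.1.2).add (hU_even hx.2.1.1 hx.2.1.2)).sub (e8_even hx.2.2.1)).sub
    (e8_even hx.2.2.2.1)).sub ((IsZ.nat N).mul (hx.2.2.2.2.mul hx.2.2.2.2))

theorem pH_even {N : ℕ} {x : HV ℚ} (hx : IntH x) : IsZ (pH N x x / 2) := by
  have h : pH N x x / 2 = hU x.1 x.1 / 2 + pR N x.2 x.2 / 2 := by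
    unfold pH
    ring
  rw [h]
  exact (hU_even hx.1.1 hx.1.2).add (pR_even hx.2)

theorem pL_even {N : ℕ} {x : LV ℚ} (hx : IntL x) : IsZ (pL N x x / 2) := by
  have h : pL N x x / 2 = hU x.1 x.1 / 2 + pH N x.2 x.2 / 2 := by
    unfold pL
    ring
  rw [h]
  exact (hU_even hx.1.1 hx.1.2).add (pH_even hx.2)

end Integral

section Nondegenerate

theorem e8_nondeg {x : Fin 8 → ℚ} (h : ∀ y, e8 x y = 0) : x = 0 := by
  have h1 : ∀ j, ∑ i, x i * ((CartanMatrix.E₈ i j : ℤ) : ℚ) = 0 := by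
    intro j
    have h2 := h (Pi.single j 1)
    unfold e8 at h2
    have h3 : ∀ i, ∑ j', x i * ((CartanMatrix.E₈ i j' : ℤ) : ℚ) * (Pi.single j 1 : Fin 8 → ℚ) j' =
        x i * ((CartanMatrix.E₈ i j : ℤ) : ℚ) := by
      intro i
      rw [Finset.sum_eq_single j]
      · simp
      · intro b _ hb
        rw [Pi.single_eq_of_ne hb, mul_zero]
      · simp
    simp only [h3] at h2
    exact h2
  have h0 := h1 0
  have h1' := h1 1
  have h2 := h1 2
  have h3 := h1 3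
  have h4 := h1 4
  have h5 := h1 5
  have h6 := h1 6
  have h7 := h1 7
  simp [CartanMatrix.E₈, Fin.sum_univ_succ] at h0 h1' h2 h3 h4 h5 h6 h7
  ext i
  fin_cases i <;> simp <;> linarith

end Nondegenerate

end Pool.Agent.H.MP_072fb1_ag.K3
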