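import Mathlib

/-!
# K3^[n]-type: the extended Mukai lattice, the LLV algebra, the lattice of topological K-theory

`N = n - 1`. `H² = U₁ ⊕ U₂ ⊕ U₃ ⊕ E₈(-1) ⊕ E₈(-1) ⊕ ℤδ`, `(δ, δ) = -2N`, and `Λ = U₀ ⊕ H²`.
-/

set_option autoImplicit false

namespace Pool.Agent.H.MP_072fb1_ag.K3

open scoped BigOperators

section Forms

variable {K : Type*} [CommRing K]

/-- The `E₈` form. -/
def e8 (x y : Fin 8 → K) : K := ∑ i, ∑ j, x i * ((CartanMatrix.E₈ i j : ℤ) : K) * y j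

/-- The hyperbolic plane. -/
def hU (a b : K × K) : K := a.1 * b.2 + a.2 * b.1

end Forms

/-- Coordinates of `U₂ ⊕ U₃ ⊕ E₈ ⊕ E₈ ⊕ Kδ`. -/
abbrev RV (K : Type*) := (K × K) × (K × K) × (Fin 8 → K) × (Fin 8 → K) × K

/-- Coordinates of `H² = U₁ ⊕ U₂ ⊕ U₃ ⊕ E₈ ⊕ E₈ ⊕ Kδ`. -/
abbrev HV (K : Type*) := (K × K) × RV K

/-- Coordinates of `Λ = U₀ ⊕ H²`. -/
abbrev LV (K : Type*) := (K × K) × HV K

section Pairings

variable {K : Type*} [CommRing K]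

/-- The form of `U₂ ⊕ U₃ ⊕ E₈(-1) ⊕ E₈(-1) ⊕ ℤδ`. -/
def pR (N : ℕ) (x y : RV K) : K :=
  hU x.1 y.1 + hU x.2.1 y.2.1 - e8 x.2.2.1 y.2.2.1 - e8 x.2.2.2.1 y.2.2.2.1 -
    2 * (N : K) * (x.2.2.2.2 * y.2.2.2.2)

/-- The Beauville-Bogomolov form of `H²` for K3^[n]-type, `N = n - 1`. -/
def pH (N : ℕ) (x y : HV K) : K := hU x.1 y.1 + pR N x.2 y.2

/-- The form of the extended Mukai lattice `Λ = U₀ ⊕ H²`. -/
def pL (N : ℕ) (x y : LV K) : K := hU x.1 y.1 + pH N x.2 y.2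

end Pairings

/-- Integers among the rational numbers. -/
def IsZ (q : ℚ) : Prop := ∃ z : ℤ, q = z

/-- Integral vectors of `U₂ ⊕ U₃ ⊕ E₈ ⊕ E₈ ⊕ ℤδ`. -/
def IntR (x : RV ℚ) : Prop :=
  (IsZ x.1.1 ∧ IsZ x.1.2) ∧ (IsZ x.2.1.1 ∧ IsZ x.2.1.2) ∧ (∀ i, IsZ (x.2.2.1 i)) ∧
    (∀ i, IsZ (x.2.2.2.1 i)) ∧ IsZ x.2.2.2.2

/-- Integral vectors of `H²`. -/
def IntH (x : HV ℚ) : Prop := (IsZ x.1.1 ∧ IsZ x.1.2) ∧ IntR x.2

/-- Integral vectors of `Λ`. -/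
def IntL (x : LV ℚ) : Prop := (IsZ x.1.1 ∧ IsZ x.1.2) ∧ IntH x.2

/-- The class `δ`. -/
def dl : HV ℚ := (0, 0, 0, 0, 0, 1)

/-- `δ* = δ / 2N`, a generator of the discriminant group of `H²`. -/
def dst (N : ℕ) : HV ℚ := (1 / (2 * (N : ℚ))) • dl

/-- Rational vectors as complex vectors. -/
noncomputable def cc (x : HV ℚ) : HV ℂ :=
  (((x.1.1 : ℚ), (x.1.2 : ℚ)), ((x.2.1.1 : ℚ), (x.2.1.2 : ℚ)), ((x.2.2.1.1 : ℚ), (x.2.2.1.2 : ℚ)),
    (fun i => ((x.2.2.2.1 i : ℚ) : ℂ)), (fun i => ((x.2.2.2.2.1 i : ℚ) : ℂ)), (x.2.2.2.2.2 : ℚ))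

/-- The pairing of a rational class with a complex class. -/
noncomputable def pC (N : ℕ) (x : HV ℚ) (s : HV ℂ) : ℂ := pH N (cc x) s

/-- `s` spans `H^{2,0}` of some marked manifold of K3^[n]-type. -/
def IsPeriod (N : ℕ) (s : HV ℂ) : Prop := pH N s s = 0 ∧ 0 < (pH N s (star s)).re

/-- `x` lies in the rational Neron-Severi space. -/
def InNS (N : ℕ) (s : HV ℂ) (x : HV ℚ) : Prop := pC N x s = 0

/-- `x` lies in the rational transcendental space. -/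
def InT (N : ℕ) (s : HV ℂ) (x : HV ℚ) : Prop := ∀ y, InNS N s y → pH N x y = 0

/-- Every Hodge isometry of the rational transcendental space is `±1`. -/
def OnlySigns (N : ℕ) (s : HV ℂ) : Prop :=
  ∀ φ : HV ℚ → HV ℚ, (∀ x y, φ (x + y) = φ x + φ y) → (∀ (c : ℚ) x, φ (c • x) = c • φ x) →
    (∀ t, InT N s t → InT N s (φ t)) →
    (∀ t u, InT N s t → InT N s u → pH N (φ t) (φ u) = pH N t u) →
    (∃ c : ℂ, c ≠ 0 ∧ ∀ t, InT N s t → pC N (φ t) s = c * pC N t s) →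
    (∀ t, InT N s t → φ t = t) ∨ (∀ t, InT N s t → φ t = -t)

/-- `γ` is a Hodge isometry `H²(X, ℤ) → H²(Y, ℤ)`, `X`, `Y` with periods `s`, `s'`. -/
structure HodgeIsometry (N : ℕ) (s s' : HV ℂ) (γ : HV ℚ → HV ℚ) : Prop where
  add : ∀ x y, γ (x + y) = γ x + γ y
  smul : ∀ (c : ℚ) x, γ (c • x) = c • γ x
  bij : Function.Bijective γ
  isometry : ∀ x y, pH N (γ x) (γ y) = pH N x y
  integral : ∀ x, IntH (γ x) ↔ IntH x
  hodge : ∃ c : ℂ, c ≠ 0 ∧ ∀ x, pC N (γ x) s' = c * pC N x s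

/-- `β`, the class of a point. -/
def bt : LV ℚ := ((0, 1), 0)

/-- `α`, with `(α, β) = 1`. -/
def al : LV ℚ := ((1, 0), 0)

/-- The pairing of a vector of `Λ` with `s + (δ, s)/2 β`, the Hodge line twisted by `exp(δ/2)`. -/
noncomputable def pT (N : ℕ) (x : LV ℚ) (s : HV ℂ) : ℂ := pC N x.2 s + (x.1.1 : ℂ) * (pC N dl s / 2)

/-- The Eichler transvection of `e`, `a`. -/
def eich (N : ℕ) (e a x : LV ℚ) : LV ℚ :=
  x - pL N a x • e + pL N e x • a - (pL N a a / 2 * pL N e x) • e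

/-- `x ∧ y` as an element of `so(Λ)`. -/
def so (N : ℕ) (x y z : LV ℚ) : LV ℚ := pL N y z • x - pL N x z • y

/-- `x ∧ y` as an element of `so(H²)`. -/
def soH (N : ℕ) (x y z : HV ℚ) : HV ℚ := pH N y z • x - pH N x z • y

/-- `ψ` is an isometry of `Λ`. -/
structure IsoL (N : ℕ) (ψ : LV ℚ → LV ℚ) : Prop where
  add : ∀ x y, ψ (x + y) = ψ x + ψ y
  smul : ∀ (c : ℚ) x, ψ (c • x) = c • ψ x
  bij : Function.Bijective ψ
  isometry : ∀ x y, pL N (ψ x) (ψ y) = pL N x y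
  integral : ∀ x, IntL (ψ x) ↔ IntL x

section Data

variable {V : Type*} [AddCommGroup V] [Module ℚ V]

/-- `g` maps the lattice `M` onto itself. -/
def Preserves (M : Submodule ℤ V) (g : V ≃ₗ[ℚ] V) : Prop := ∀ v, g v ∈ M ↔ v ∈ M

/-- `g` is compatible with the LLV action and the map `ψ` of `Λ`. -/
def Lifts (κ : LV ℚ → LV ℚ → V → V) (ψ : LV ℚ → LV ℚ) (g : V ≃ₗ[ℚ] V) : Prop :=
  ∀ x y v, g (κ x y v) = κ (ψ x) (ψ y) (g v)

/-- The degree `j` part: the eigenspace of `κ β α`; cohomological degree `2n + 2j`. -/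
def InDeg (κ : LV ℚ → LV ℚ → V → V) (j : ℤ) (v : V) : Prop := κ bt al v = (j : ℚ) • v

/-- The span of all products of two classes of `H²` with classes of degree `j - 2`. -/
def Prods (κ : LV ℚ → LV ℚ → V → V) (j : ℤ) : Submodule ℚ V :=
  Submodule.span ℚ {v | ∃ (a b : HV ℚ) (u : V), InDeg κ (j - 2) u ∧ v = κ bt (0, a) (κ bt (0, b) u)}

/-- The sum of the parts of degree `> j`. -/
def Above (κ : LV ℚ → LV ℚ → V → V) (j : ℤ) : Submodule ℚ V :=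
  Submodule.span ℚ {v | ∃ i : ℤ, j < i ∧ InDeg κ i v}

/-- `z` is the class of an element of `M` whose first nonzero component is `x`, of degree `j`. -/
def InQ (κ : LV ℚ → LV ℚ → V → V) (M : Submodule ℤ V) (j : ℤ) (π : V → HV ℚ × ℚ)
    (z : HV ℚ × ℚ) : Prop :=
  ∃ m ∈ M, ∃ x, InDeg κ j x ∧ m - x ∈ Above κ j ∧ π x = z

/-- In degree `j` (for `H⁴`: `j = 2 - n`) the lattice of leading terms of `M` modulo products is
the Mukai lattice containing `H² ⊕ ℤv`. -/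
structure MukaiQuotient (N : ℕ) (κ : LV ℚ → LV ℚ → V → V) (M : Submodule ℤ V) (j : ℤ)
    (π : V → HV ℚ × ℚ) : Prop where
  add : ∀ v w, π (v + w) = π v + π w
  smul : ∀ (c : ℚ) v, π (c • v) = c • π v
  ker_iff : ∀ x, InDeg κ j x → (π x = 0 ↔ x ∈ Prods κ j)
  surj : ∀ z, ∃ x, InDeg κ j x ∧ π x = z
  equiv : ∀ a b x, InDeg κ j x → π (κ (0, a) (0, b) x) = (soH N a b (π x).1, 0)
  int_left : ∀ x : HV ℚ, InQ κ M j π (x, 0) ↔ IntH x
  int_right : ∀ y : ℚ, InQ κ M j π (0, y) ↔ IsZ y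
  glue : ∃ c : ℚ, InQ κ M j π (dst N, c)

/-- The data given by the topological K-theory of a manifold of K3^[n]-type, `n = N + 1 ≥ 4`: the
action `κ` of `so(Λ)` on the rational cohomology `V`, the lattice `M = exp(δ/2) v(K_top)`,
automorphisms over the Eichler transvections, and the Mukai lattice in `H⁴`. -/
structure K3Datum (N : ℕ) (κ : LV ℚ → LV ℚ → V → V) (M : Submodule ℤ V) : Prop where
  add_left : ∀ x x' y v, κ (x + x') y v = κ x y v + κ x' y v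
  smul_left : ∀ (c : ℚ) x y v, κ (c • x) y v = c • κ x y v
  add_right : ∀ x y y' v, κ x (y + y') v = κ x y v + κ x y' v
  smul_right : ∀ (c : ℚ) x y v, κ x (c • y) v = c • κ x y v
  add_arg : ∀ x y v w, κ x y (v + w) = κ x y v + κ x y w
  smul_arg : ∀ (c : ℚ) x y v, κ x y (c • v) = c • κ x y v
  alt : ∀ x v, κ x x v = 0
  bracket : ∀ x y z w v, κ x y (κ z w v) - κ z w (κ x y v) =
    κ (so N x y z) w v + κ z (so N x y w) v
  fg : M.FG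
  span_eq : Submodule.span ℚ (M : Set V) = ⊤
  transvection : ∀ e a, IntL e → IntL a → pL N e e = 0 → pL N e a = 0 →
    ∃ g : V ≃ₗ[ℚ] V, Preserves M g ∧ Lifts κ (eich N e a) g
  quot : ∃ (j : ℤ) (π : V → HV ℚ × ℚ), MukaiQuotient N κ M j π

/-- What a derived equivalence between manifolds with periods `s`, `s'` induces: an isomorphism of the
lattice `M = exp(δ/2) v(K_top)`, compatible with an isometry `ψ` of `Λ` which matches the Hodge lines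
`ℂ(s + (δ, s)/2 β)`. -/
def KIsomorphic (N : ℕ) (κ : LV ℚ → LV ℚ → V → V) (M : Submodule ℤ V) (s s' : HV ℂ) : Prop :=
  ∃ (ψ : LV ℚ → LV ℚ) (g : V ≃ₗ[ℚ] V), IsoL N ψ ∧
    (∃ c : ℂ, c ≠ 0 ∧ ∀ x, pT N (ψ x) s' = c * pT N x s) ∧ Preserves M g ∧ Lifts κ ψ g

end Data

end Pool.Agent.H.MP_072fb1_ag.K3
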