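import Pool.Agent.H.MP_072fb1_ag.K3.Twist

/-!
# The dual lattice of `H²`
-/

set_option autoImplicit false

namespace Pool.Agent.H.MP_072fb1_ag.K3

theorem e8_unimod {x : Fin 8 → ℚ} (h : ∀ y, (∀ i, IsZ (y i)) → IsZ (e8 x y)) (i : Fin 8) :
    IsZ (x i) := by
  have hs : ∀ j i : Fin 8, IsZ ((Pi.single j 1 : Fin 8 → ℚ) i) := by
    intro j i
    by_cases hij : i = j
    · subst hij
      rw [Pi.single_eq_same]
      exact IsZ.one
    · rw [Pi.single_eq_of_ne hij]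
      exact IsZ.zero
  have z : ∀ j, ∃ m : ℤ, ∑ i, x i * ((CartanMatrix.E₈ i j : ℤ) : ℚ) = m := by
    intro j
    have h2 := h (Pi.single j 1) (hs j)
    unfold e8 at h2
    have h3 : ∀ i, ∑ j', x i * ((CartanMatrix.E₈ i j' : ℤ) : ℚ) * (Pi.single j 1 : Fin 8 → ℚ) j' =
        x i * ((CartanMatrix.E₈ i j : ℤ) : ℚ) := by
      intro i
      rw [Finset.sum_eq_single j]
      · simp
      · intro b _ hb
        rw [Pi.single_eq_of_ne hb, mul_zero]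
      · simp
    simp only [h3] at h2
    exact h2
  obtain ⟨z0, h0⟩ := z 0
  obtain ⟨z1, h1⟩ := z 1
  obtain ⟨z2, h2⟩ := z 2
  obtain ⟨z3, h3⟩ := z 3
  obtain ⟨z4, h4⟩ := z 4
  obtain ⟨z5, h5⟩ := z 5
  obtain ⟨z6, h6⟩ := z 6
  obtain ⟨z7, h7⟩ := z 7
  simp [CartanMatrix.E₈, Fin.sum_univ_succ] at h0 h1 h2 h3 h4 h5 h6 h7
  fin_cases i <;> simp only [Fin.zero_eta, Fin.mk_one, Fin.reduceFinMk]
  · exact ⟨4 * z0 + 5 * z1 + 7 * z2 + 10 * z3 + 8 * z4 + 6 * z5 + 4 * z6 + 2 * z7, by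
      push_cast
      linarith⟩
  · exact ⟨5 * z0 + 8 * z1 + 10 * z2 + 15 * z3 + 12 * z4 + 9 * z5 + 6 * z6 + 3 * z7, by
      push_cast
      linarith⟩
  · exact ⟨7 * z0 + 10 * z1 + 14 * z2 + 20 * z3 + 16 * z4 + 12 * z5 + 8 * z6 + 4 * z7, by
      push_cast
      linarith⟩
  · exact ⟨10 * z0 + 15 * z1 + 20 * z2 + 30 * z3 + 24 * z4 + 18 * z5 + 12 * z6 + 6 * z7, by
      push_cast
      linarith⟩
  · exact ⟨8 * z0 + 12 * z1 + 16 * z2 + 24 * z3 + 20 * z4 + 15 * z5 + 10 * z6 + 5 * z7, by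
      push_cast
      linarith⟩
  · exact ⟨6 * z0 + 9 * z1 + 12 * z2 + 18 * z3 + 15 * z4 + 12 * z5 + 8 * z6 + 4 * z7, by
      push_cast
      linarith⟩
  · exact ⟨4 * z0 + 6 * z1 + 8 * z2 + 12 * z3 + 10 * z4 + 8 * z5 + 6 * z6 + 3 * z7, by
      push_cast
      linarith⟩
  · exact ⟨2 * z0 + 3 * z1 + 4 * z2 + 6 * z3 + 5 * z4 + 4 * z5 + 3 * z6 + 2 * z7, by
      push_cast
      linarith⟩

/-- A vector pairing integrally with all integral vectors is integral up to a multiple of `δ`. -/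
theorem dual_int {N : ℕ} {w : HV ℚ} (h : ∀ y, IntH y → IsZ (pH N w y)) :
    IntH (w - w.2.2.2.2.2 • dl) := by
  have o := IsZ.zero
  have l := IsZ.one
  have f : ∀ _ : Fin 8, IsZ (0 : ℚ) := fun _ => IsZ.zero
  have h1 := h ((1, 0), (0, 0), (0, 0), 0, 0, 0) ⟨⟨l, o⟩, ⟨o, o⟩, ⟨o, o⟩, f, f, o⟩
  have h2 := h ((0, 1), (0, 0), (0, 0), 0, 0, 0) ⟨⟨o, l⟩, ⟨o, o⟩, ⟨o, o⟩, f, f, o⟩
  have h3 := h ((0, 0), (1, 0), (0, 0), 0, 0, 0) ⟨⟨o, o⟩, ⟨l, o⟩, ⟨o, o⟩, f, f, o⟩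
  have h4 := h ((0, 0), (0, 1), (0, 0), 0, 0, 0) ⟨⟨o, o⟩, ⟨o, l⟩, ⟨o, o⟩, f, f, o⟩
  have h5 := h ((0, 0), (0, 0), (1, 0), 0, 0, 0) ⟨⟨o, o⟩, ⟨o, o⟩, ⟨l, o⟩, f, f, o⟩
  have h6 := h ((0, 0), (0, 0), (0, 1), 0, 0, 0) ⟨⟨o, o⟩, ⟨o, o⟩, ⟨o, l⟩, f, f, o⟩
  have h7 : ∀ u, (∀ i, IsZ (u i)) → IsZ (e8 w.2.2.2.1 u) := by
    intro u hu
    have := h ((0, 0), (0, 0), (0, 0), u, 0, 0) ⟨⟨o, o⟩, ⟨o, o⟩, ⟨o, o⟩, hu, f, o⟩
    simp [pH, pR, hU, odd_e8_zero] at this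
    have := this.neg
    rwa [neg_neg] at this
  have h8 : ∀ u, (∀ i, IsZ (u i)) → IsZ (e8 w.2.2.2.2.1 u) := by
    intro u hu
    have := h ((0, 0), (0, 0), (0, 0), 0, u, 0) ⟨⟨o, o⟩, ⟨o, o⟩, ⟨o, o⟩, f, hu, o⟩
    simp [pH, pR, hU, odd_e8_zero] at this
    have := this.neg
    rwa [neg_neg] at this
  simp [pH, pR, hU, odd_e8_zero] at h1 h2 h3 h4 h5 h6
  refine ⟨⟨?_, ?_⟩, ⟨?_, ?_⟩, ⟨?_, ?_⟩, fun i => ?_, fun i => ?_, ?_⟩ <;> simp [dl]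
  · exact h2
  · exact h1
  · exact h4
  · exact h3
  · exact h6
  · exact h5
  · exact e8_unimod h7 i
  · exact e8_unimod h8 i
  · exact o

theorem dst_dualH {N : ℕ} (hN : 0 < N) {x : HV ℚ} (hx : IntH x) : IsZ (pH N x (dst N)) := by
  have hN0 : (N : ℚ) ≠ 0 := by exact_mod_cast hN.ne'
  have e : pH N x (dst N) = -x.2.2.2.2.2 := by
    simp [hU, pH, pR, e8, dst, dl]
    field_simp
  rw [e]
  exact hx.2.2.2.2.2.neg

theorem dl_dst {N : ℕ} (hN : 0 < N) : (dl : HV ℚ) = (2 * (N : ℚ)) • dst N := by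
  have hN0 : (N : ℚ) ≠ 0 := by exact_mod_cast hN.ne'
  have h : dst N = (1 / (2 * (N : ℚ))) • dl := rfl
  rw [h, smul_smul]
  have e1 : (2 * (N : ℚ)) * (1 / (2 * N)) = 1 := by field_simp
  rw [e1, one_smul]

/-- An integral isometry multiplies `δ*` by a number `e` with `e² ≡ 1 mod 4N`. -/
theorem dual_split {N : ℕ} (hN : 0 < N) {γ : HV ℚ ≃ₗ[ℚ] HV ℚ}
    (g1 : ∀ x y, pH N (γ x) (γ y) = pH N x y) (g2 : ∀ x, IntH (γ x) ↔ IntH x) :
    ∃ (e j : ℤ) (h : HV ℚ), IntH h ∧ γ (dst N) = h + (e : ℚ) • dst N ∧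
      e ^ 2 = 1 + 4 * N * j := by
  have hN0 : (N : ℚ) ≠ 0 := by exact_mod_cast hN.ne'
  set w := γ (dst N) with hw
  have hdual : ∀ y, IntH y → IsZ (pH N w y) := by
    intro y hy
    have e : pH N w y = pH N (γ.symm y) (dst N) := by
      rw [pH_comm, hw, ← g1 (γ.symm y), γ.apply_symm_apply]
    rw [e]
    refine dst_dualH hN ?_
    rw [← g2, γ.apply_symm_apply]
    exact hy
  have h1 := dual_int hdual
  obtain ⟨e, he⟩ : IsZ (2 * N * w.2.2.2.2.2) := by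
    have h2 := (hdual dl dl_int).neg
    rw [pH_comm, pH_dl] at h2
    have e : -(-(2 * (N : ℚ)) * w.2.2.2.2.2) = 2 * N * w.2.2.2.2.2 := by ring
    rwa [e] at h2
  set h := w - w.2.2.2.2.2 • dl with hh
  have hwe : w = h + (e : ℚ) • dst N := by
    have e1 : w.2.2.2.2.2 • (dl : HV ℚ) = (e : ℚ) • dst N := by
      rw [dl_dst hN, smul_smul, ← he]
      congr 1
      ring
    rw [hh, ← e1]
    abel
  obtain ⟨j, hj⟩ := pH_even (N := N) h1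
  refine ⟨e, j, h, h1, hwe, ?_⟩
  have hdh : h.2.2.2.2.2 = 0 := by
    simp [hh, dl]
  have e2 : pH N dl dl = (2 * (N : ℚ)) ^ 2 * pH N (dst N) (dst N) := by
    conv_lhs => rw [dl_dst hN]
    rw [pH_smul_left, pH_smul_right]
    ring
  have e3 : pH N h (dst N) = 0 := by
    have : pH N dl h = 0 := by rw [pH_dl, hdh, mul_zero]
    rw [dl_dst hN, pH_smul_left, pH_comm] at this
    rcases mul_eq_zero.1 this with h' | h'
    · exact absurd h' (by positivity)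
    · exact h'
  have e4 : pH N w w = pH N (dst N) (dst N) := g1 _ _
  rw [hwe, pH_add_left, pH_add_right, pH_add_right, pH_smul_left, pH_smul_right, pH_smul_left,
    pH_smul_right, pH_comm N (dst N) h, e3] at e4
  rw [dl_dl] at e2
  have e5 : pH N h h = 2 * (j : ℚ) := by linarith
  have e6 : (e : ℚ) ^ 2 = 1 + 4 * N * j := by
    have e7 : pH N (dst N) (dst N) = -1 / (2 * N) := by
      have h3 : (2 * (N : ℚ)) ^ 2 * pH N (dst N) (dst N) = -(2 * N) := e2.symm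
      field_simp
      field_simp at h3
      linarith
    rw [e5, e7] at e4
    field_simp at e4
    linarith
  exact_mod_cast e6

end Pool.Agent.H.MP_072fb1_ag.K3
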