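import Pool.Agent.H.MP_072fb1_ag.K3.Basic

/-!
# Eichler: `O(Λ)` is generated by transvections and `O(H²)`
-/

set_option autoImplicit false

namespace Pool.Agent.H.MP_072fb1_ag.K3

/-- `θ` is an Eichler transvection of `Λ`. -/
def IsTrans (N : ℕ) (θ : LV ℚ ≃ₗ[ℚ] LV ℚ) : Prop :=
  ∃ e a, IntL e ∧ IntL a ∧ pL N e e = 0 ∧ pL N e a = 0 ∧ ∀ x, θ x = eich N e a x

/-- The group generated by the Eichler transvections of `Λ`. -/
def Gp (N : ℕ) : Subgroup (LV ℚ ≃ₗ[ℚ] LV ℚ) := Subgroup.closure {θ | IsTrans N θ}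

namespace Eich

theorem eich_neg_eich {N : ℕ} {e a : LV ℚ} (h1 : pL N e e = 0) (h2 : pL N e a = 0) (x : LV ℚ) :
    eich N e (-a) (eich N e a x) = x := by
  have h3 : pL N a e = 0 := by rw [pL_comm, h2]
  simp only [eich, pL_neg_left, pL_neg_right, pL_sub_right, pL_add_right, pL_smul_right, h1, h2, h3]
  module

theorem eich_iso {N : ℕ} {e a : LV ℚ} (h1 : pL N e e = 0) (h2 : pL N e a = 0) (x y : LV ℚ) :
    pL N (eich N e a x) (eich N e a y) = pL N x y := by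
  have h3 : pL N a e = 0 := by rw [pL_comm, h2]
  simp only [eich, pL_sub_left, pL_sub_right, pL_add_left, pL_add_right, pL_smul_left,
    pL_smul_right, h1, h2, h3]
  rw [pL_comm N x e, pL_comm N x a]
  ring

theorem eich_int {N : ℕ} {e a x : LV ℚ} (he : IntL e) (ha : IntL a) (hx : IntL x) :
    IntL (eich N e a x) := by
  unfold eich
  exact ((hx.sub (IntL.smul (pL_int ha hx) he)).add (IntL.smul (pL_int he hx) ha)).sub
    (IntL.smul ((pL_even ha).mul (pL_int he hx)) he)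

/-- The transvection as a linear map. -/
def tvL (N : ℕ) (e a : LV ℚ) : LV ℚ →ₗ[ℚ] LV ℚ where
  toFun := eich N e a
  map_add' x y := by
    simp only [eich, pL_add_right]
    module
  map_smul' c x := by
    simp only [eich, pL_smul_right, RingHom.id_apply]
    module

/-- The transvection as a linear equivalence. -/
def tv (N : ℕ) (e a : LV ℚ) (h1 : pL N e e = 0) (h2 : pL N e a = 0) : LV ℚ ≃ₗ[ℚ] LV ℚ :=
  { tvL N e a with
    invFun := eich N e (-a)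
    left_inv := fun x => eich_neg_eich h1 h2 x
    right_inv := fun x => by
      have h := eich_neg_eich (N := N) (e := e) (a := -a) h1 (by rw [pL_neg_right, h2, neg_zero]) x
      rw [neg_neg] at h
      exact h }

theorem tv_apply {N : ℕ} {e a : LV ℚ} (h1 : pL N e e = 0) (h2 : pL N e a = 0) (x : LV ℚ) :
    tv N e a h1 h2 x = eich N e a x := rfl

theorem tv_mem {N : ℕ} {e a : LV ℚ} (he : IntL e) (ha : IntL a) (h1 : pL N e e = 0)
    (h2 : pL N e a = 0) : tv N e a h1 h2 ∈ Gp N :=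
  Subgroup.subset_closure ⟨e, a, he, ha, h1, h2, fun _ => rfl⟩

end Eich

open Eich

theorem gp_iso {N : ℕ} {θ : LV ℚ ≃ₗ[ℚ] LV ℚ} (h : θ ∈ Gp N) (x y : LV ℚ) :
    pL N (θ x) (θ y) = pL N x y := by
  revert x y
  unfold Gp at h
  induction h using Subgroup.closure_induction with
  | mem θ hθ =>
    obtain ⟨e, a, he, ha, h1, h2, h3⟩ := hθ
    intro x y
    rw [h3, h3, eich_iso h1 h2]
  | one => intro x y; rfl
  | mul θ θ' _ _ h1 h2 =>
    intro x y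
    rw [LinearEquiv.mul_apply, LinearEquiv.mul_apply, h1, h2]
  | inv θ _ h1 =>
    intro x y
    have h := h1 (θ⁻¹ x) (θ⁻¹ y)
    have e1 : ∀ z, θ (θ⁻¹ z) = z := fun z => θ.apply_symm_apply z
    rw [e1, e1] at h
    exact h.symm

theorem gp_int {N : ℕ} {θ : LV ℚ ≃ₗ[ℚ] LV ℚ} (h : θ ∈ Gp N) (x : LV ℚ) :
    IntL (θ x) ↔ IntL x := by
  revert x
  unfold Gp at h
  induction h using Subgroup.closure_induction with
  | mem θ hθ =>
    obtain ⟨e, a, he, ha, h1, h2, h3⟩ := hθ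
    intro x
    rw [h3]
    refine ⟨fun h => ?_, fun h => eich_int he ha h⟩
    have := eich_int (N := N) he ha.neg h
    rwa [eich_neg_eich h1 h2] at this
  | one => intro x; rfl
  | mul θ θ' _ _ h1 h2 =>
    intro x
    rw [LinearEquiv.mul_apply, h1, h2]
  | inv θ _ h1 =>
    intro x
    have h := h1 (θ⁻¹ x)
    have e1 : ∀ z, θ (θ⁻¹ z) = z := fun z => θ.apply_symm_apply z
    rw [e1] at h
    exact h.symm

/-- transvections act trivially on the discriminant group -/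
theorem gp_disc {N : ℕ} {θ : LV ℚ ≃ₗ[ℚ] LV ℚ} (h : θ ∈ Gp N) {y : LV ℚ}
    (hy : ∀ x, IntL x → IsZ (pL N x y)) : IntL (θ y - y) := by
  revert y
  unfold Gp at h
  induction h using Subgroup.closure_induction with
  | mem θ hθ =>
    obtain ⟨e, a, he, ha, h1, h2, h3⟩ := hθ
    intro y hy
    have h4 : θ y - y = -(pL N a y • e) + pL N e y • a - (pL N a a / 2 * pL N e y) • e := by
      rw [h3]
      unfold eich
      abel
    rw [h4]
    exact ((IntL.smul (hy a ha) he).neg.add (IntL.smul (hy e he) ha)).sub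
      (IntL.smul ((pL_even ha).mul (hy e he)) he)
  | one =>
    intro y _
    rw [LinearEquiv.coe_one, id, sub_self]
    exact IntL.zero
  | mul θ θ' hθ _ h1 h2 =>
    intro y hy
    have h4 : (θ * θ') y - y = θ (θ' y - y) + (θ y - y) := by
      rw [LinearEquiv.mul_apply, map_sub]
      abel
    rw [h4]
    exact ((gp_int hθ _).2 (h2 hy)).add (h1 hy)
  | inv θ hθ h1 =>
    intro y hy
    have e1 : ∀ z, θ⁻¹ (θ z) = z := fun z => θ.symm_apply_apply z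
    have h4 : θ⁻¹ y - y = -(θ⁻¹ (θ y - y)) := by
      rw [map_sub, e1]
      abel
    rw [h4]
    exact ((gp_int (Subgroup.inv_mem _ hθ) _).2 (h1 hy)).neg

namespace Eich

section Coordinates

/-- The first vector of `U₁`. -/
def e1 : LV ℚ := (0, ((1, 0), 0))

/-- The second vector of `U₁`. -/
def f1 : LV ℚ := (0, ((0, 1), 0))

/-- A vector of `U₂ ⊕ U₃ ⊕ E₈ ⊕ E₈ ⊕ ℚδ`. -/
def ir (u : RV ℚ) : LV ℚ := (0, (0, u))

theorem pR_zero_left (N : ℕ) (x : RV ℚ) : pR N 0 x = 0 := by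
  have h := pR_smul_left N (0 : ℚ) 0 x
  rwa [zero_smul, zero_mul] at h

theorem pL_al (N : ℕ) (x : LV ℚ) : pL N al x = x.1.2 := by
  simp [pL, pH, al, hU, pR_zero_left]

theorem pL_bt (N : ℕ) (x : LV ℚ) : pL N bt x = x.1.1 := by
  simp [pL, pH, bt, hU, pR_zero_left]

theorem pL_e1 (N : ℕ) (x : LV ℚ) : pL N e1 x = x.2.1.2 := by
  simp [pL, pH, e1, hU, pR_zero_left]

theorem pL_f1 (N : ℕ) (x : LV ℚ) : pL N f1 x = x.2.1.1 := by
  simp [pL, pH, f1, hU, pR_zero_left]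

theorem pL_ir (N : ℕ) (u : RV ℚ) (x : LV ℚ) : pL N (ir u) x = pR N u x.2.2 := by
  simp [pL, pH, ir, hU]

theorem int_al : IntL al := ⟨⟨IsZ.one, IsZ.zero⟩, IntH.zero⟩

theorem int_bt : IntL bt := ⟨⟨IsZ.zero, IsZ.one⟩, IntH.zero⟩

theorem int_e1 : IntL e1 := ⟨⟨IsZ.zero, IsZ.zero⟩, ⟨IsZ.one, IsZ.zero⟩, IntR.zero⟩

theorem int_f1 : IntL f1 := ⟨⟨IsZ.zero, IsZ.zero⟩, ⟨IsZ.zero, IsZ.one⟩, IntR.zero⟩

theorem int_ir {u : RV ℚ} (hu : IntR u) : IntL (ir u) :=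
  ⟨⟨IsZ.zero, IsZ.zero⟩, ⟨IsZ.zero, IsZ.zero⟩, hu⟩

theorem move1 (N : ℕ) (k : ℤ) : ∃ θ ∈ Gp N, ∀ x : LV ℚ, θ x =
    ((x.1.1 - k * x.2.1.2, x.1.2), ((x.2.1.1 + k * x.1.2, x.2.1.2), x.2.2)) := by
  have h1 : pL N al al = 0 := by rw [pL_al]; rfl
  have h2 : pL N al ((k : ℚ) • e1) = 0 := by rw [pL_al]; simp [e1]
  refine ⟨tv N al ((k : ℚ) • e1) h1 h2, tv_mem int_al (IntL.smul (IsZ.int k) int_e1) h1 h2, ?_⟩
  intro x
  rw [tv_apply]
  simp only [eich, pL_smul_left, pL_smul_right, pL_al, pL_e1]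
  refine Prod.ext (Prod.ext ?_ ?_) (Prod.ext (Prod.ext ?_ ?_) ?_) <;> simp [al, e1]
  ring

theorem move2 (N : ℕ) (k : ℤ) : ∃ θ ∈ Gp N, ∀ x : LV ℚ, θ x =
    ((x.1.1 - k * x.2.1.1, x.1.2), ((x.2.1.1, x.2.1.2 + k * x.1.2), x.2.2)) := by
  have h1 : pL N al al = 0 := by rw [pL_al]; rfl
  have h2 : pL N al ((k : ℚ) • f1) = 0 := by rw [pL_al]; simp [f1]
  refine ⟨tv N al ((k : ℚ) • f1) h1 h2, tv_mem int_al (IntL.smul (IsZ.int k) int_f1) h1 h2, ?_⟩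
  intro x
  rw [tv_apply]
  simp only [eich, pL_smul_left, pL_smul_right, pL_al, pL_f1]
  refine Prod.ext (Prod.ext ?_ ?_) (Prod.ext (Prod.ext ?_ ?_) ?_) <;> simp [al, f1]
  ring

theorem move3 (N : ℕ) (k : ℤ) : ∃ θ ∈ Gp N, ∀ x : LV ℚ, θ x =
    ((x.1.1, x.1.2 - k * x.2.1.2), ((x.2.1.1 + k * x.1.1, x.2.1.2), x.2.2)) := by
  have h1 : pL N bt bt = 0 := by rw [pL_bt]; rfl
  have h2 : pL N bt ((k : ℚ) • e1) = 0 := by rw [pL_bt]; simp [e1]
  refine ⟨tv N bt ((k : ℚ) • e1) h1 h2, tv_mem int_bt (IntL.smul (IsZ.int k) int_e1) h1 h2, ?_⟩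
  intro x
  rw [tv_apply]
  simp only [eich, pL_smul_left, pL_smul_right, pL_bt, pL_e1]
  refine Prod.ext (Prod.ext ?_ ?_) (Prod.ext (Prod.ext ?_ ?_) ?_) <;> simp [bt, e1]
  ring

theorem move4 (N : ℕ) (k : ℤ) : ∃ θ ∈ Gp N, ∀ x : LV ℚ, θ x =
    ((x.1.1, x.1.2 - k * x.2.1.1), ((x.2.1.1, x.2.1.2 + k * x.1.1), x.2.2)) := by
  have h1 : pL N bt bt = 0 := by rw [pL_bt]; rfl
  have h2 : pL N bt ((k : ℚ) • f1) = 0 := by rw [pL_bt]; simp [f1]
  refine ⟨tv N bt ((k : ℚ) • f1) h1 h2, tv_mem int_bt (IntL.smul (IsZ.int k) int_f1) h1 h2, ?_⟩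
  intro x
  rw [tv_apply]
  simp only [eich, pL_smul_left, pL_smul_right, pL_bt, pL_f1]
  refine Prod.ext (Prod.ext ?_ ?_) (Prod.ext (Prod.ext ?_ ?_) ?_) <;> simp [bt, f1]
  ring

theorem move5 (N : ℕ) {u : RV ℚ} (hu : IntR u) : ∃ θ ∈ Gp N, ∀ x : LV ℚ, θ x =
    (x.1, ((x.2.1.1 - pR N u x.2.2 - pR N u u / 2 * x.2.1.2, x.2.1.2),
      x.2.2 + x.2.1.2 • u)) := by
  have h1 : pL N e1 e1 = 0 := by rw [pL_e1]; rfl
  have h2 : pL N e1 (ir u) = 0 := by rw [pL_e1]; rfl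
  refine ⟨tv N e1 (ir u) h1 h2, tv_mem int_e1 (int_ir hu) h1 h2, ?_⟩
  intro x
  rw [tv_apply]
  simp only [eich, pL_e1, pL_ir]
  refine Prod.ext (Prod.ext ?_ ?_) (Prod.ext (Prod.ext ?_ ?_) ?_) <;> simp [ir, e1]

theorem move7 (N : ℕ) {u : RV ℚ} (hu : IntR u) : ∃ θ ∈ Gp N, ∀ x : LV ℚ, θ x =
    ((x.1.1 - pR N u x.2.2 - pR N u u / 2 * x.1.2, x.1.2), (x.2.1,
      x.2.2 + x.1.2 • u)) := by
  have h1 : pL N al al = 0 := by rw [pL_al]; rfl
  have h2 : pL N al (ir u) = 0 := by rw [pL_al]; rfl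
  refine ⟨tv N al (ir u) h1 h2, tv_mem int_al (int_ir hu) h1 h2, ?_⟩
  intro x
  rw [tv_apply]
  simp only [eich, pL_al, pL_ir]
  refine Prod.ext (Prod.ext ?_ ?_) (Prod.ext (Prod.ext ?_ ?_) ?_) <;> simp [ir, al]

end Coordinates

/-- Primitive isotropic integral vectors of divisibility one. -/
def Good (N : ℕ) (w : LV ℚ) : Prop :=
  IntL w ∧ pL N w w = 0 ∧ ∃ z, IntL z ∧ pL N w z = 1

/-- Vectors which the group moves to `β`. -/
def Red (N : ℕ) (w : LV ℚ) : Prop := ∃ θ ∈ Gp N, θ w = bt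

theorem good_of {N : ℕ} {θ : LV ℚ ≃ₗ[ℚ] LV ℚ} (h : θ ∈ Gp N) {w : LV ℚ} (hw : Good N w) :
    Good N (θ w) := by
  obtain ⟨h1, h2, z, h3, h4⟩ := hw
  exact ⟨(gp_int h w).2 h1, by rw [gp_iso h, h2], θ z, (gp_int h z).2 h3, by rw [gp_iso h, h4]⟩

theorem red_of {N : ℕ} {θ : LV ℚ ≃ₗ[ℚ] LV ℚ} (h : θ ∈ Gp N) {w : LV ℚ} (hw : Red N (θ w)) :
    Red N w := by
  obtain ⟨θ', h1, h2⟩ := hw
  exact ⟨θ' * θ, Subgroup.mul_mem _ h1 h, by rw [LinearEquiv.mul_apply, h2]⟩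

theorem exists_reduce {B D : ℤ} (hB : B ≠ 0) (hD : ¬ B ∣ D) :
    ∃ k l : ℤ, B - l * (D + k * B) ≠ 0 ∧ (B - l * (D + k * B)).natAbs < B.natAbs := by
  have h1 : D % B ≠ 0 := fun h => hD (Int.dvd_of_emod_eq_zero h)
  have h2 : 0 ≤ D % B := Int.emod_nonneg D hB
  have h3 : D % B < (B.natAbs : ℤ) := by
    rw [Int.natCast_natAbs]
    exact Int.emod_lt_abs D hB
  have h4 : D + (-(D / B)) * B = D % B := by
    have := Int.emod_add_mul_ediv D B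
    linarith
  by_cases h5 : B % (D % B) = 0
  · refine ⟨-(D / B), B / (D % B) - 1, ?_⟩
    rw [h4]
    have h6 : B - (B / (D % B) - 1) * (D % B) = D % B := by
      have := Int.emod_add_mul_ediv B (D % B)
      rw [h5] at this
      linarith
    rw [h6]
    exact ⟨h1, by omega⟩
  · refine ⟨-(D / B), B / (D % B), ?_⟩
    rw [h4]
    have h6 : B - (B / (D % B)) * (D % B) = B % (D % B) := by
      have := Int.emod_add_mul_ediv B (D % B)
      linarith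
    rw [h6]
    refine ⟨h5, ?_⟩
    have h7 : 0 ≤ B % (D % B) := Int.emod_nonneg B h1
    have h8 : B % (D % B) < ((D % B).natAbs : ℤ) := by
      rw [Int.natCast_natAbs]
      exact Int.emod_lt_abs B h1
    omega

/-- Reduction with the second coordinate of `U₁`. -/
theorem reduceD {N : ℕ} {w : LV ℚ} {B D : ℤ} (hB : B ≠ 0) (h1 : w.1.2 = B) (h2 : w.2.1.2 = D)
    (hD : ¬ B ∣ D) :
    ∃ θ ∈ Gp N, ∃ B' : ℤ, (θ w).1.2 = B' ∧ B' ≠ 0 ∧ B'.natAbs < B.natAbs := by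
  obtain ⟨k, l, h3, h4⟩ := exists_reduce hB hD
  obtain ⟨θ, h5, h6⟩ := move2 N k
  obtain ⟨θ', h7, h8⟩ := move3 N l
  refine ⟨θ' * θ, Subgroup.mul_mem _ h7 h5, _, ?_, h3, h4⟩
  rw [LinearEquiv.mul_apply, h6, h8]
  simp only [h1, h2]
  push_cast
  ring

/-- Reduction with the first coordinate of `U₁`. -/
theorem reduceC {N : ℕ} {w : LV ℚ} {B C : ℤ} (hB : B ≠ 0) (h1 : w.1.2 = B) (h2 : w.2.1.1 = C)
    (hC : ¬ B ∣ C) :
    ∃ θ ∈ Gp N, ∃ B' : ℤ, (θ w).1.2 = B' ∧ B' ≠ 0 ∧ B'.natAbs < B.natAbs := by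
  obtain ⟨k, l, h3, h4⟩ := exists_reduce hB hC
  obtain ⟨θ, h5, h6⟩ := move1 N k
  obtain ⟨θ', h7, h8⟩ := move4 N l
  refine ⟨θ' * θ, Subgroup.mul_mem _ h7 h5, _, ?_, h3, h4⟩
  rw [LinearEquiv.mul_apply, h6, h8]
  simp only [h1, h2]
  push_cast
  ring

theorem pH_zero_left (N : ℕ) (x : HV ℚ) : pH N 0 x = 0 := by
  have h := pH_smul_left N (0 : ℚ) 0 x
  rwa [zero_smul, zero_mul] at h

/-- The case of divisibility one, after clearing `U₁`. -/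
theorem red_unit {N : ℕ} {w : LV ℚ} (hw : Good N w) {B : ℤ} (hB : B = 1 ∨ B = -1)
    (h1 : w.1.2 = B) (h2 : w.2.1 = 0) : Red N w := by
  obtain ⟨hi, h0, -⟩ := hw
  have hr : IntR (-((B : ℚ) • w.2.2)) := (IntR.smul (IsZ.int B) hi.2.2).neg
  obtain ⟨θ, hθ, h3⟩ := move7 N hr
  have hBB : (B : ℚ) * B = 1 := by rcases hB with rfl | rfl <;> norm_num
  have hB0 : (B : ℚ) ≠ 0 := by rcases hB with rfl | rfl <;> norm_num
  have h5 : (θ w).1.2 = B := by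
    rw [h3]
    exact h1
  have h6 : (θ w).2 = 0 := by
    rw [h3]
    refine Prod.ext h2 ?_
    show w.2.2 + w.1.2 • (-((B : ℚ) • w.2.2)) = 0
    rw [h1, smul_neg, smul_smul, hBB, one_smul, add_neg_cancel]
  have h7 : (θ w).1.1 = 0 := by
    have h8 : pL N (θ w) (θ w) = 0 := by rw [gp_iso hθ, h0]
    unfold pL at h8
    rw [h6, pH_zero_left] at h8
    simp only [hU, h5, add_zero] at h8
    have h9 : (B : ℚ) * (θ w).1.1 = 0 := by linarith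
    exact (mul_eq_zero.1 h9).resolve_left hB0
  have h9 : θ w = ((0, (B : ℚ)), 0) := Prod.ext (Prod.ext h7 h5) h6
  refine red_of hθ ?_
  rw [h9]
  rcases hB with rfl | rfl
  · refine ⟨1, Subgroup.one_mem _, ?_⟩
    rw [LinearEquiv.coe_one, id]
    simp [bt]
  · obtain ⟨θ1, ha1, ha2⟩ := move1 N (-1)
    obtain ⟨θ4, hb1, hb2⟩ := move4 N (-2)
    refine ⟨θ1 * (θ4 * θ1), Subgroup.mul_mem _ ha1 (Subgroup.mul_mem _ hb1 ha1), ?_⟩
    rw [LinearEquiv.mul_apply, LinearEquiv.mul_apply, ha2, hb2, ha2]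
    refine Prod.ext (Prod.ext ?_ ?_) (Prod.ext (Prod.ext ?_ ?_) ?_) <;> simp [bt]
    all_goals norm_num

theorem red_step {N : ℕ} : ∀ n : ℕ, ∀ w : LV ℚ, Good N w → ∀ B : ℤ, w.1.2 = B → B ≠ 0 →
    B.natAbs = n → Red N w := by
  intro n
  induction n using Nat.strong_induction_on with
  | _ n ih =>
    intro w hw B h1 hB hn
    have key : ∀ w : LV ℚ, Good N w →
        (∃ θ ∈ Gp N, ∃ B' : ℤ, (θ w).1.2 = B' ∧ B' ≠ 0 ∧ B'.natAbs < B.natAbs) → Red N w := by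
      rintro w hw ⟨θ, hθ, B', h2, h3, h4⟩
      exact red_of hθ (ih B'.natAbs (hn ▸ h4) (θ w) (good_of hθ hw) B' h2 h3 rfl)
    obtain ⟨C, hC⟩ := hw.1.2.1.1
    obtain ⟨D, hD⟩ := hw.1.2.1.2
    by_cases hBD : B ∣ D
    swap
    · exact key w hw (reduceD hB h1 hD hBD)
    by_cases hBC : B ∣ C
    swap
    · exact key w hw (reduceC hB h1 hC hBC)
    obtain ⟨k, rfl⟩ := hBC
    obtain ⟨l, rfl⟩ := hBD
    obtain ⟨θ1, ha1, ha2⟩ := move1 N (-k)
    obtain ⟨θ2, hb1, hb2⟩ := move2 N (-l)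
    have g' : Good N (θ2 (θ1 w)) := good_of hb1 (good_of ha1 hw)
    refine red_of ha1 (red_of hb1 ?_)
    have e1 : (θ2 (θ1 w)).1.2 = B := by
      rw [hb2, ha2]
      exact h1
    have e2 : (θ2 (θ1 w)).2.1 = 0 := by
      rw [hb2, ha2]
      refine Prod.ext ?_ ?_
      · show w.2.1.1 + ((-k : ℤ) : ℚ) * w.1.2 = 0
        rw [hC, h1]
        push_cast
        ring
      · show w.2.1.2 + ((-l : ℤ) : ℚ) * w.1.2 = 0
        rw [hD, h1]
        push_cast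
        ring
    generalize θ2 (θ1 w) = w' at g' e1 e2 ⊢
    have e3 : w'.2.1.1 = 0 := by rw [e2]; rfl
    have e4 : w'.2.1.2 = 0 := by rw [e2]; rfl
    obtain ⟨A, hA⟩ := g'.1.1.1
    by_cases hBA : B ∣ A
    swap
    · obtain ⟨θ3, h6, h7⟩ := move3 N 1
      obtain ⟨θ4, h8, B', h9, h10, h11⟩ := reduceC (N := N) (w := θ3 w') (C := A) hB
        (by rw [h7]; simp [e1, e4]) (by rw [h7]; simp [e3, hA]) hBA
      exact key w' g' ⟨θ4 * θ3, Subgroup.mul_mem _ h8 h6, B', h9, h10, h11⟩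
    by_cases hu : ∀ u, IntR u → ∀ z : ℤ, pR N u w'.2.2 = z → B ∣ z
    swap
    · push Not at hu
      obtain ⟨u, hu1, z, hz, hz2⟩ := hu
      obtain ⟨θ3, h6, h7⟩ := move5 N hu1
      obtain ⟨θ4, h8, B', h9, h10, h11⟩ := reduceC (N := N) (w := θ3 w') (C := -z) hB
        (by rw [h7]; exact e1) (by rw [h7]; simp [e3, e4, hz]) (by rwa [dvd_neg])
      exact key w' g' ⟨θ4 * θ3, Subgroup.mul_mem _ h8 h6, B', h9, h10, h11⟩
    have g'' := g'
    obtain ⟨hi, -, z, hz, hz1⟩ := g''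
    obtain ⟨Z1, hZ1⟩ := hz.1.1
    obtain ⟨Z2, hZ2⟩ := hz.1.2
    obtain ⟨q, hq⟩ := pR_int (N := N) hz.2.2 hi.2.2
    have hq2 := hu _ hz.2.2 q hq
    have h12 : ((A * Z2 + B * Z1 + q : ℤ) : ℚ) = 1 := by
      rw [← hz1]
      unfold pL pH
      rw [pR_comm N w'.2.2 z.2.2, hq]
      simp only [hU, e1, e3, e4, hA, hZ1, hZ2]
      push_cast
      ring
    have h13 : A * Z2 + B * Z1 + q = 1 := by exact_mod_cast h12
    have h14 : B ∣ 1 := by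
      rw [← h13]
      exact dvd_add (dvd_add (Dvd.dvd.mul_right hBA _) (Dvd.intro _ rfl)) hq2
    exact red_unit g' (Int.isUnit_iff.1 (isUnit_of_dvd_one h14)) e1 e2

theorem red_of_b {N : ℕ} {w : LV ℚ} (hw : Good N w) (h : w.1.2 ≠ 0) : Red N w := by
  obtain ⟨B, hB⟩ := hw.1.1.2
  refine red_step B.natAbs w hw B hB ?_ rfl
  rintro rfl
  exact h (by rw [hB]; simp)

theorem red_of_c {N : ℕ} {w : LV ℚ} (hw : Good N w) (h : w.1.2 = 0) (hc : w.2.1.1 ≠ 0) :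
    Red N w := by
  obtain ⟨θ, h1, h2⟩ := move4 N 1
  refine red_of h1 (red_of_b (good_of h1 hw) ?_)
  rw [h2]
  simpa [h] using hc

/-- Every primitive isotropic vector of divisibility one is equivalent to `β`. -/
theorem red_good {N : ℕ} {w : LV ℚ} (hw : Good N w) : Red N w := by
  by_cases hb : w.1.2 = 0
  swap
  · exact red_of_b hw hb
  by_cases hc : w.2.1.1 = 0
  swap
  · exact red_of_c hw hb hc
  by_cases hd : w.2.1.2 = 0
  swap
  · obtain ⟨θ, h1, h2⟩ := move3 N 1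
    refine red_of h1 (red_of_b (good_of h1 hw) ?_)
    rw [h2]
    simpa [hb] using hd
  by_cases ha : w.1.1 = 0
  swap
  · obtain ⟨θ, h1, h2⟩ := move3 N 1
    refine red_of h1 (red_of_c (good_of h1 hw) ?_ ?_)
    · rw [h2]
      simp [hb, hd]
    · rw [h2]
      simpa [hc] using ha
  have hw' := hw
  obtain ⟨-, -, z, hz, hz1⟩ := hw'
  have h3 : pR N z.2.2 w.2.2 = 1 := by
    rw [← hz1, pR_comm]
    unfold pL pH
    simp [hU, ha, hb, hc, hd]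
  obtain ⟨θ, h1, h2⟩ := move5 N hz.2.2
  refine red_of h1 (red_of_c (good_of h1 hw) ?_ ?_)
  · rw [h2]
    exact hb
  · rw [h2]
    simp [hc, hd, h3]

end Eich

theorem eichler {N : ℕ} (ψ : LV ℚ ≃ₗ[ℚ] LV ℚ) (h1 : ∀ x y, pL N (ψ x) (ψ y) = pL N x y)
    (h2 : ∀ x, IntL (ψ x) ↔ IntL x) :
    ∃ θ r : LV ℚ ≃ₗ[ℚ] LV ℚ, θ ∈ Gp N ∧ (∀ x, ψ x = θ (r x)) ∧
      (∀ x y, pL N (r x) (r y) = pL N x y) ∧ (∀ x, IntL (r x) ↔ IntL x) ∧ r al = al ∧
      r bt = bt := by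
  have hbb : pL N bt bt = 0 := by rw [pL_bt]; rfl
  have hba : pL N bt al = 1 := by rw [pL_bt]; rfl
  have haa : pL N al al = 0 := by rw [pL_al]; rfl
  have hg : Good N (ψ bt) :=
    ⟨(h2 bt).2 int_bt, by rw [h1, hbb], ψ al, (h2 al).2 int_al, by rw [h1, hba]⟩
  obtain ⟨θ, hθ, h3⟩ := red_good hg
  obtain ⟨z, hz⟩ : ∃ z, z = θ (ψ al) := ⟨_, rfl⟩
  have hz1 : z.1.1 = 1 := by
    rw [← pL_bt N z, ← h3, hz, gp_iso hθ, h1, hba]
  have hz2 : pL N z z = 0 := by rw [hz, gp_iso hθ, h1, haa]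
  have hz3 : IntL z := by
    rw [hz, gp_int hθ, h2]
    exact int_al
  have h4 : pL N bt (0, z.2) = 0 := by rw [pL_bt]; rfl
  have hh : IntL ((0, z.2) : LV ℚ) := ⟨⟨IsZ.zero, IsZ.zero⟩, hz3.2⟩
  have h5 : pL N (0, z.2) (0, z.2) = -2 * z.1.2 := by
    have h6 : pL N z z = 2 * z.1.2 + pL N (0, z.2) (0, z.2) := by
      unfold pL
      simp only [hU, hz1]
      simp
      ring
    linarith
  have h6 : pL N (0, z.2) al = 0 := by rw [pL_comm, pL_al]; rfl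
  have h7 : pL N (0, z.2) bt = 0 := by rw [pL_comm, pL_bt]; rfl
  obtain ⟨ε, hε⟩ : ∃ ε, ε = tv N bt (0, z.2) hbb h4 := ⟨_, rfl⟩
  have hε1 : ε ∈ Gp N := by
    rw [hε]
    exact tv_mem int_bt hh hbb h4
  have hε2 : ε al = z := by
    rw [hε, tv_apply]
    simp only [eich, h6, hba, h5]
    refine Prod.ext (Prod.ext ?_ ?_) ?_
    · simp [al, bt, hz1]
    · simp [al, bt]
      ring
    · simp [al, bt]
  have hε3 : ε bt = bt := by
    rw [hε, tv_apply]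
    simp only [eich, h7, hbb]
    simp
  have e1 : ∀ x, ε⁻¹ (ε x) = x := fun x => ε.symm_apply_apply x
  have e2 : ∀ x, ε (ε⁻¹ x) = x := fun x => ε.apply_symm_apply x
  have e3 : ∀ x, θ⁻¹ (θ x) = x := fun x => θ.symm_apply_apply x
  refine ⟨θ⁻¹ * ε, ε⁻¹ * (θ * ψ), Subgroup.mul_mem _ (Subgroup.inv_mem _ hθ) hε1, ?_, ?_, ?_, ?_, ?_⟩
  · intro x
    simp only [LinearEquiv.mul_apply]
    rw [e2, e3]
  · intro x y
    simp only [LinearEquiv.mul_apply]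
    rw [gp_iso (Subgroup.inv_mem _ hε1), gp_iso hθ, h1]
  · intro x
    simp only [LinearEquiv.mul_apply]
    rw [gp_int (Subgroup.inv_mem _ hε1), gp_int hθ, h2]
  · simp only [LinearEquiv.mul_apply]
    rw [← hz, ← hε2, e1]
  · simp only [LinearEquiv.mul_apply]
    rw [h3]
    nth_rewrite 1 [← hε3]
    rw [e1]

end Pool.Agent.H.MP_072fb1_ag.K3
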