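import Pool.Agent.H.MP_072fb1_ag.K3.Basic

/-!
# A datum: `so(Λ) ⊕ Λ`
-/

set_option autoImplicit false

namespace Pool.Agent.H.MP_072fb1_ag.K3

open scoped BigOperators

section exSoLemmas

theorem exSo_add_left (N : ℕ) (x x' y z : LV ℚ) : so N (x + x') y z = so N x y z + so N x' y z := by
  simp only [so, pL_add_left]
  module

theorem exSo_smul_left (N : ℕ) (c : ℚ) (x y z : LV ℚ) : so N (c • x) y z = c • so N x y z := by
  simp only [so, pL_smul_left]
  module

theorem exSo_add_mid (N : ℕ) (x y y' z : LV ℚ) : so N x (y + y') z = so N x y z + so N x y' z := by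
  simp only [so, pL_add_left]
  module

theorem exSo_smul_mid (N : ℕ) (c : ℚ) (x y z : LV ℚ) : so N x (c • y) z = c • so N x y z := by
  simp only [so, pL_smul_left]
  module

theorem exSo_add_right (N : ℕ) (x y z z' : LV ℚ) : so N x y (z + z') = so N x y z + so N x y z' := by
  simp only [so, pL_add_right]
  module

theorem exSo_smul_right (N : ℕ) (c : ℚ) (x y z : LV ℚ) : so N x y (c • z) = c • so N x y z := by
  simp only [so, pL_smul_right]
  module

theorem exSo_self (N : ℕ) (x z : LV ℚ) : so N x x z = 0 := by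
  simp only [so, sub_self]

theorem exSo_skew (N : ℕ) (x y z w : LV ℚ) : pL N (so N x y z) w + pL N z (so N x y w) = 0 := by
  simp only [so, pL_sub_left, pL_smul_left, pL_sub_right, pL_smul_right]
  rw [pL_comm N z x, pL_comm N z y]
  ring

theorem exSo_bracket (N : ℕ) (x y z w u : LV ℚ) :
    so N x y (so N z w u) - so N z w (so N x y u) =
      so N (so N x y z) w u + so N z (so N x y w) u := by
  simp only [so, pL_sub_left, pL_smul_left, pL_sub_right, pL_smul_right]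
  rw [pL_comm N z x, pL_comm N z y, pL_comm N w x, pL_comm N w y]
  module

theorem exSo_conj (N : ℕ) (ψ : LV ℚ ≃ₗ[ℚ] LV ℚ) (h1 : ∀ x y, pL N (ψ x) (ψ y) = pL N x y)
    (x y z : LV ℚ) : ψ (so N x y z) = so N (ψ x) (ψ y) (ψ z) := by
  simp only [so, map_sub, map_smul, h1]

end exSoLemmas

section exSpace

/-- `so N x y` as a linear map. -/
def exD (N : ℕ) (x y : LV ℚ) : Module.End ℚ (LV ℚ) where
  toFun := so N x y
  map_add' := exSo_add_right N x y
  map_smul' := fun c z => exSo_smul_right N c x y z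

/-- The skew endomorphisms. -/
def exSk (N : ℕ) : Submodule ℚ (Module.End ℚ (LV ℚ)) where
  carrier := {A | ∀ x y, pL N (A x) y + pL N x (A y) = 0}
  add_mem' := fun {A B} hA hB x y => by
    rw [LinearMap.add_apply, LinearMap.add_apply, pL_add_left, pL_add_right]
    linear_combination hA x y + hB x y
  zero_mem' := fun x y => by
    rw [LinearMap.zero_apply, LinearMap.zero_apply, ← zero_smul ℚ (0 : LV ℚ), pL_smul_left,
      pL_smul_right]
    ring
  smul_mem' := fun c A hA x y => by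
    rw [LinearMap.smul_apply, LinearMap.smul_apply, pL_smul_left, pL_smul_right]
    linear_combination c * hA x y

theorem exD_mem (N : ℕ) (x y : LV ℚ) : exD N x y ∈ exSk N := fun z w => exSo_skew N x y z w

/-- The bracket with a skew endomorphism. -/
def exAd (N : ℕ) (x y : LV ℚ) : exSk N →ₗ[ℚ] exSk N where
  toFun := fun A => ⟨exD N x y * A.1 - A.1 * exD N x y, fun z w => by
    have h1 := exSo_skew N x y (A.1 z) w
    have h2 := exSo_skew N x y z (A.1 w)
    have h3 := A.2 (so N x y z) w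
    have h4 := A.2 z (so N x y w)
    change pL N (so N x y (A.1 z) - A.1 (so N x y z)) w +
      pL N z (so N x y (A.1 w) - A.1 (so N x y w)) = 0
    rw [pL_sub_left, pL_sub_right]
    linear_combination h1 + h2 - h3 - h4⟩
  map_add' := fun A B => by
    apply Subtype.ext
    change exD N x y * (A.1 + B.1) - (A.1 + B.1) * exD N x y =
      (exD N x y * A.1 - A.1 * exD N x y) + (exD N x y * B.1 - B.1 * exD N x y)
    noncomm_ring
  map_smul' := fun c A => by
    apply Subtype.ext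
    change exD N x y * (c • A.1) - (c • A.1) * exD N x y =
      c • (exD N x y * A.1 - A.1 * exD N x y)
    rw [mul_smul_comm, smul_mul_assoc, smul_sub]

/-- The space. -/
abbrev exV (N : ℕ) := exSk N × LV ℚ

theorem exV_ext {N : ℕ} {v w : exV N} (h1 : ∀ z, v.1.1 z = w.1.1 z) (h2 : v.2 = w.2) : v = w :=
  Prod.ext (Subtype.ext (LinearMap.ext h1)) h2

/-- The action. -/
def exK (N : ℕ) : LV ℚ →ₗ[ℚ] LV ℚ →ₗ[ℚ] Module.End ℚ (exV N) :=
  LinearMap.mk₂ ℚ (fun x y => LinearMap.prodMap (exAd N x y) (exD N x y))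
    (fun x x' y => by
      apply LinearMap.ext
      intro v
      refine exV_ext (fun z => ?_) ?_
      · change so N (x + x') y (v.1.1 z) - v.1.1 (so N (x + x') y z) =
          (so N x y (v.1.1 z) - v.1.1 (so N x y z)) + (so N x' y (v.1.1 z) - v.1.1 (so N x' y z))
        rw [exSo_add_left, exSo_add_left, map_add]
        module
      · exact exSo_add_left N x x' y v.2)
    (fun c x y => by
      apply LinearMap.ext
      intro v
      refine exV_ext (fun z => ?_) ?_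
      · change so N (c • x) y (v.1.1 z) - v.1.1 (so N (c • x) y z) =
          c • (so N x y (v.1.1 z) - v.1.1 (so N x y z))
        rw [exSo_smul_left, exSo_smul_left, map_smul]
        module
      · exact exSo_smul_left N c x y v.2)
    (fun x y y' => by
      apply LinearMap.ext
      intro v
      refine exV_ext (fun z => ?_) ?_
      · change so N x (y + y') (v.1.1 z) - v.1.1 (so N x (y + y') z) =
          (so N x y (v.1.1 z) - v.1.1 (so N x y z)) + (so N x y' (v.1.1 z) - v.1.1 (so N x y' z))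
        rw [exSo_add_mid, exSo_add_mid, map_add]
        module
      · exact exSo_add_mid N x y y' v.2)
    (fun c x y => by
      apply LinearMap.ext
      intro v
      refine exV_ext (fun z => ?_) ?_
      · change so N x (c • y) (v.1.1 z) - v.1.1 (so N x (c • y) z) =
          c • (so N x y (v.1.1 z) - v.1.1 (so N x y z))
        rw [exSo_smul_mid, exSo_smul_mid, map_smul]
        module
      · exact exSo_smul_mid N c x y v.2)

theorem exK_fst (N : ℕ) (x y : LV ℚ) (v : exV N) (z : LV ℚ) :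
    (exK N x y v).1.1 z = so N x y (v.1.1 z) - v.1.1 (so N x y z) := rfl

theorem exK_snd (N : ℕ) (x y : LV ℚ) (v : exV N) : (exK N x y v).2 = so N x y v.2 := rfl

theorem exK_alt (N : ℕ) (x : LV ℚ) : exK N x x = 0 := by
  apply LinearMap.ext
  intro v
  refine exV_ext (fun z => ?_) ?_
  · rw [exK_fst, exSo_self, exSo_self, map_zero, sub_zero]
    rfl
  · rw [exK_snd, exSo_self]
    rfl

theorem exK_bracket (N : ℕ) (x y z w : LV ℚ) (v : exV N) :
    exK N x y (exK N z w v) - exK N z w (exK N x y v) =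
      exK N (so N x y z) w v + exK N z (so N x y w) v := by
  refine exV_ext (fun u => ?_) ?_
  · change (exK N x y (exK N z w v)).1.1 u - (exK N z w (exK N x y v)).1.1 u =
      (exK N (so N x y z) w v).1.1 u + (exK N z (so N x y w) v).1.1 u
    simp only [exK_fst]
    have h1 := exSo_bracket N x y z w (v.1.1 u)
    have h2 : v.1.1 (so N x y (so N z w u)) - v.1.1 (so N z w (so N x y u)) =
        v.1.1 (so N (so N x y z) w u) + v.1.1 (so N z (so N x y w) u) := by
      rw [← map_sub, ← map_add, exSo_bracket]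
    have h3 : ∀ a b : LV ℚ, so N x y (a - b) = so N x y a - so N x y b := (exD N x y).map_sub
    have h4 : ∀ a b : LV ℚ, so N z w (a - b) = so N z w a - so N z w b := (exD N z w).map_sub
    rw [h3, h4]
    linear_combination (exp := 1) h1 - h2
  · change so N x y (so N z w v.2) - so N z w (so N x y v.2) =
      so N (so N x y z) w v.2 + so N z (so N x y w) v.2
    exact exSo_bracket N x y z w v.2

end exSpace

section exLattice

/-- The class `δ*` in `Λ ⊗ ℚ`. -/
def exd (N : ℕ) : LV ℚ := (0, dst N)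

/-- The dual lattice. -/
def exDual (N : ℕ) (z : LV ℚ) : Prop := ∃ t : ℤ, IntL (z - (t : ℚ) • exd N)

theorem exd_mul {N : ℕ} (hN : 0 < N) (t : ℚ) : (2 * (N : ℚ) * t) • exd N = ((0, t • dl) : LV ℚ) := by
  have hN' : (N : ℚ) ≠ 0 := by positivity
  unfold exd dst
  rw [Prod.smul_mk, smul_zero, smul_smul]
  congr 2
  field_simp

theorem exdl_int : IntH dl :=
  ⟨⟨IsZ.zero, IsZ.zero⟩, ⟨IsZ.zero, IsZ.zero⟩, ⟨IsZ.zero, IsZ.zero⟩, fun _ => IsZ.zero,
    fun _ => IsZ.zero, IsZ.one⟩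

theorem exd_int {N : ℕ} (hN : 0 < N) {t : ℚ} (ht : IsZ t) : IntL ((2 * (N : ℚ) * t) • exd N) := by
  rw [exd_mul hN]
  exact ⟨⟨IsZ.zero, IsZ.zero⟩, IntH.smul ht exdl_int⟩

theorem exe8_zero (x : Fin 8 → ℚ) : e8 x 0 = 0 := by
  unfold e8
  simp

theorem expair_d {N : ℕ} (hN : 0 < N) (x : LV ℚ) : pL N x (exd N) = - x.2.2.2.2.2.2 := by
  have hN' : (N : ℚ) ≠ 0 := by positivity
  have h0 : exd N = (1 / (2 * (N : ℚ))) • ((0, dl) : LV ℚ) := by
    unfold exd dst
    exact Prod.ext (smul_zero _).symm rfl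
  rw [h0, pL_smul_right]
  have h : pL N x ((0, dl) : LV ℚ) = - (2 * (N : ℚ)) * x.2.2.2.2.2.2 := by
    unfold pL pH pR dl
    simp [hU, exe8_zero]
  rw [h]
  field_simp

theorem exd_pair {N : ℕ} (hN : 0 < N) {x : LV ℚ} (hx : IntL x) : IsZ (pL N x (exd N)) := by
  rw [expair_d hN]
  exact hx.2.2.2.2.2.2.neg

theorem exDual_of_int {N : ℕ} {x : LV ℚ} (hx : IntL x) : exDual N x := by
  refine ⟨0, ?_⟩
  simpa using hx

theorem exDual_pair {N : ℕ} (hN : 0 < N) {x z : LV ℚ} (hx : IntL x) (hz : exDual N z) :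
    IsZ (pL N x z) := by
  obtain ⟨t, ht⟩ := hz
  have h : pL N x z = pL N x (z - (t : ℚ) • exd N) + t * pL N x (exd N) := by
    rw [pL_sub_right, pL_smul_right]
    ring
  rw [h]
  exact (pL_int hx ht).add ((IsZ.int t).mul (exd_pair hN hx))

theorem exDual_mul {N : ℕ} (hN : 0 < N) {z : LV ℚ} (hz : exDual N z) :
    IntL ((2 * (N : ℚ)) • z) := by
  obtain ⟨t, ht⟩ := hz
  have h : (2 * (N : ℚ)) • z = (2 * (N : ℚ)) • (z - (t : ℚ) • exd N) +
      (2 * (N : ℚ) * t) • exd N := by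
    module
  rw [h]
  exact (IntL.smul ((IsZ.nat 2).mul (IsZ.nat N)) ht).add (exd_int hN (IsZ.int t))

theorem exDual_so {N : ℕ} (hN : 0 < N) {x y z : LV ℚ} (hx : IntL x) (hy : IntL y)
    (hz : exDual N z) : IntL (so N x y z) :=
  (IntL.smul (exDual_pair hN hy hz) hx).sub (IntL.smul (exDual_pair hN hx hz) hy)

/-- The lattice. -/
def exM (N : ℕ) : Submodule ℤ (exV N) where
  carrier := {v | IntL ((2 * (N : ℚ)) • v.2) ∧
    ∀ z, exDual N z → IntL (v.1.1 z - so N ((2 * (N : ℚ)) • v.2) (exd N) z)}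
  add_mem' := fun {v w} hv hw => by
    refine ⟨?_, fun z hz => ?_⟩
    · have h := hv.1.add hw.1
      rw [← smul_add] at h
      exact h
    · have h := (hv.2 z hz).add (hw.2 z hz)
      change IntL (v.1.1 z + w.1.1 z - so N ((2 * (N : ℚ)) • (v.2 + w.2)) (exd N) z)
      rw [smul_add, exSo_add_left]
      convert h using 1
      abel
  zero_mem' := by
    refine ⟨?_, fun z _ => ?_⟩
    · change IntL ((2 * (N : ℚ)) • (0 : LV ℚ))
      rw [smul_zero]
      exact IntL.zero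
    · change IntL (0 - so N ((2 * (N : ℚ)) • (0 : LV ℚ)) (exd N) z)
      rw [exSo_smul_left, ← zero_smul ℚ (0 : LV ℚ), exSo_smul_left, zero_smul, zero_smul, smul_zero,
        sub_zero]
      exact IntL.zero
  smul_mem' := fun c v hv => by
    refine ⟨?_, fun z hz => ?_⟩
    · change IntL ((2 * (N : ℚ)) • (c • v.2))
      rw [← Int.cast_smul_eq_zsmul ℚ c, smul_comm]
      exact IntL.smul (IsZ.int c) hv.1
    · change IntL (c • v.1.1 z - so N ((2 * (N : ℚ)) • (c • v.2)) (exd N) z)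
      rw [← Int.cast_smul_eq_zsmul ℚ c, ← Int.cast_smul_eq_zsmul ℚ c, smul_comm _ (c : ℚ),
        exSo_smul_left, ← smul_sub]
      exact IntL.smul (IsZ.int c) (hv.2 z hz)

theorem exM_iff {N : ℕ} {v : exV N} : v ∈ exM N ↔ (IntL ((2 * (N : ℚ)) • v.2) ∧
    ∀ z, exDual N z → IntL (v.1.1 z - so N ((2 * (N : ℚ)) • v.2) (exd N) z)) := Iff.rfl

end exLattice

section exLifts

/-- Conjugation by an isometry, with a sign. -/
def exG {N : ℕ} (ψ : LV ℚ ≃ₗ[ℚ] LV ℚ) (h1 : ∀ x y, pL N (ψ x) (ψ y) = pL N x y) (e : ℚ) :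
    exV N →ₗ[ℚ] exV N where
  toFun := fun v => (⟨e • (ψ.toLinearMap ∘ₗ v.1.1 ∘ₗ ψ.symm.toLinearMap), fun x y => by
    have h2 := v.1.2 (ψ.symm x) (ψ.symm y)
    change pL N (e • ψ (v.1.1 (ψ.symm x))) y + pL N x (e • ψ (v.1.1 (ψ.symm y))) = 0
    rw [pL_smul_left, pL_smul_right]
    have h3 := h1 (v.1.1 (ψ.symm x)) (ψ.symm y)
    have h4 := h1 (ψ.symm x) (v.1.1 (ψ.symm y))
    rw [LinearEquiv.apply_symm_apply] at h3 h4
    rw [h3, h4]
    linear_combination e * h2⟩, ψ v.2)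
  map_add' := fun v w => by
    refine exV_ext (fun z => ?_) ?_
    · change e • ψ (v.1.1 (ψ.symm z) + w.1.1 (ψ.symm z)) =
        e • ψ (v.1.1 (ψ.symm z)) + e • ψ (w.1.1 (ψ.symm z))
      rw [map_add, smul_add]
    · exact ψ.map_add v.2 w.2
  map_smul' := fun c v => by
    refine exV_ext (fun z => ?_) ?_
    · change e • ψ (c • v.1.1 (ψ.symm z)) = c • e • ψ (v.1.1 (ψ.symm z))
      rw [map_smul, smul_comm]
    · exact ψ.map_smul c v.2

theorem exG_fst {N : ℕ} (ψ : LV ℚ ≃ₗ[ℚ] LV ℚ) (h1 : ∀ x y, pL N (ψ x) (ψ y) = pL N x y) (e : ℚ)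
    (v : exV N) (z : LV ℚ) : (exG ψ h1 e v).1.1 z = e • ψ (v.1.1 (ψ.symm z)) := rfl

theorem exG_snd {N : ℕ} (ψ : LV ℚ ≃ₗ[ℚ] LV ℚ) (h1 : ∀ x y, pL N (ψ x) (ψ y) = pL N x y) (e : ℚ)
    (v : exV N) : (exG ψ h1 e v).2 = ψ v.2 := rfl

theorem exG_symm_apply {N : ℕ} (ψ φ : LV ℚ ≃ₗ[ℚ] LV ℚ) (h1 : ∀ x y, pL N (ψ x) (ψ y) = pL N x y)
    (h1' : ∀ x y, pL N (φ x) (φ y) = pL N x y) (h : ∀ x, φ (ψ x) = x) (e : ℚ) (he : e * e = 1)
    (v : exV N) : exG φ h1' e (exG ψ h1 e v) = v := by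
  have hs : ∀ z, ψ.symm (φ.symm z) = z := fun z => by
    rw [LinearEquiv.symm_apply_eq, LinearEquiv.symm_apply_eq, h]
  refine exV_ext (fun z => ?_) ?_
  · rw [exG_fst, exG_fst, map_smul, h, smul_smul, he, one_smul, hs]
  · rw [exG_snd, exG_snd, h]

theorem exG_dual {N : ℕ} (ψ : LV ℚ ≃ₗ[ℚ] LV ℚ)
    (h2 : ∀ x, IntL (ψ x) ↔ IntL x) (e : ℚ) (he : e = 1 ∨ e = -1)
    (h3 : IntL (ψ (exd N) - e • exd N)) {z : LV ℚ} (hz : exDual N z) : exDual N (ψ z) := by
  obtain ⟨t, ht⟩ := hz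
  have hez : IsZ e := by
    rcases he with he | he
    · rw [he]; exact IsZ.one
    · rw [he]; exact IsZ.one.neg
  obtain ⟨e', he'⟩ := hez
  refine ⟨t * e', ?_⟩
  have h4 := (h2 _).2 ht
  rw [map_sub, map_smul] at h4
  have h : ψ z - ((t * e' : ℤ) : ℚ) • exd N = (ψ z - (t : ℚ) • ψ (exd N)) +
      (t : ℚ) • (ψ (exd N) - e • exd N) := by
    rw [he']
    push_cast
    module
  rw [h]
  exact h4.add (IntL.smul (IsZ.int t) h3)

theorem exG_symm_d {N : ℕ} (ψ : LV ℚ ≃ₗ[ℚ] LV ℚ)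
    (h2 : ∀ x, IntL (ψ x) ↔ IntL x) (e : ℚ) (he : e = 1 ∨ e = -1)
    (h3 : IntL (ψ (exd N) - e • exd N)) : IntL (ψ.symm (exd N) - e • exd N) := by
  have hee : e * e = 1 := by rcases he with he | he <;> rw [he] <;> norm_num
  have hez : IsZ e := by
    rcases he with he | he
    · rw [he]; exact IsZ.one
    · rw [he]; exact IsZ.one.neg
  rw [← h2, map_sub, map_smul, LinearEquiv.apply_symm_apply]
  have h : exd N - e • ψ (exd N) = (-e) • (ψ (exd N) - e • exd N) := by
    rw [smul_sub, smul_smul, neg_mul, hee]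
    module
  rw [h]
  exact IntL.smul hez.neg h3

theorem exG_mem {N : ℕ} (hN : 0 < N) (ψ : LV ℚ ≃ₗ[ℚ] LV ℚ)
    (h1 : ∀ x y, pL N (ψ x) (ψ y) = pL N x y)
    (h2 : ∀ x, IntL (ψ x) ↔ IntL x) (e : ℚ) (he : e = 1 ∨ e = -1)
    (h3 : IntL (ψ (exd N) - e • exd N)) {v : exV N} (hv : v ∈ exM N) :
    exG ψ h1 e v ∈ exM N := by
  have hee : e * e = 1 := by rcases he with he | he <;> rw [he] <;> norm_num
  have hez : IsZ e := by
    rcases he with he | he
    · rw [he]; exact IsZ.one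
    · rw [he]; exact IsZ.one.neg
  have h3' := exG_symm_d ψ h2 e he h3
  have h2' : ∀ x, IntL (ψ.symm x) ↔ IntL x := fun x => by
    rw [← h2, LinearEquiv.apply_symm_apply]
  rw [exM_iff] at hv ⊢
  refine ⟨?_, fun z hz => ?_⟩
  · rw [exG_snd, ← map_smul]
    exact (h2 _).2 hv.1
  · rw [exG_fst, exG_snd, ← ψ.map_smul (2 * (N : ℚ)) v.2]
    have hz' : exDual N (ψ.symm z) := exG_dual ψ.symm h2' e he h3' hz
    have h5 := (h2 _).2 (hv.2 _ hz')
    have h6 := exDual_so hN ((h2 _).2 hv.1) (IntL.smul hez h3) hz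
    have h7 := exSo_conj N ψ h1 ((2 * (N : ℚ)) • v.2) (exd N) (ψ.symm z)
    rw [LinearEquiv.apply_symm_apply] at h7
    rw [map_sub, h7] at h5
    have h8 := (IntL.smul hez h5).add h6
    convert h8 using 1
    have h9 : e • (ψ (exd N) - e • exd N) = e • ψ (exd N) + (-1 : ℚ) • exd N := by
      rw [smul_sub, smul_smul, hee]
      module
    rw [h9, exSo_add_mid, exSo_smul_mid, exSo_smul_mid]
    module

theorem exLift {N : ℕ} (hN : 0 < N) (ψ : LV ℚ ≃ₗ[ℚ] LV ℚ)
    (h1 : ∀ x y, pL N (ψ x) (ψ y) = pL N x y)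
    (h2 : ∀ x, IntL (ψ x) ↔ IntL x) (e : ℚ) (he : e = 1 ∨ e = -1)
    (h3 : IntL (ψ (exd N) - e • exd N)) :
    ∃ g : exV N ≃ₗ[ℚ] exV N, Preserves (V := exV N) (exM N) g ∧ LiftsL (V := exV N) (exK N) ψ g := by
  have hee : e * e = 1 := by rcases he with he | he <;> rw [he] <;> norm_num
  have h1' : ∀ x y, pL N (ψ.symm x) (ψ.symm y) = pL N x y := fun x y => by
    rw [← h1, LinearEquiv.apply_symm_apply, LinearEquiv.apply_symm_apply]
  have h2' : ∀ x, IntL (ψ.symm x) ↔ IntL x := fun x => by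
    rw [← h2, LinearEquiv.apply_symm_apply]
  have h3' := exG_symm_d ψ h2 e he h3
  refine ⟨LinearEquiv.ofLinearMap (exG ψ h1 e) (exG ψ.symm h1' e) ?_ ?_, ?_, ?_⟩
  · apply LinearMap.ext
    intro v
    exact exG_symm_apply ψ.symm ψ h1' h1 (fun x => ψ.apply_symm_apply x) e hee v
  · apply LinearMap.ext
    intro v
    exact exG_symm_apply ψ ψ.symm h1 h1' (fun x => ψ.symm_apply_apply x) e hee v
  · intro v
    constructor
    · intro h
      have h4 := exG_mem hN ψ.symm h1' h2' e he h3' h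
      have h5 : exG ψ.symm h1' e (exG ψ h1 e v) = v :=
        exG_symm_apply ψ ψ.symm h1 h1' (fun x => ψ.symm_apply_apply x) e hee v
      have h6 : exG ψ.symm h1' e (exG ψ h1 e v) ∈ exM N := h4
      rw [h5] at h6
      exact h6
    · intro h
      exact exG_mem hN ψ h1 h2 e he h3 h
  · intro x y v
    change exG ψ h1 e (exK N x y v) = exK N (ψ x) (ψ y) (exG ψ h1 e v)
    refine exV_ext (fun z => ?_) ?_
    · rw [exG_fst, exK_fst, exK_fst, exG_fst, exG_fst, map_sub, exSo_conj N ψ h1,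
        exSo_smul_right]
      have h4 : ψ.symm (so N (ψ x) (ψ y) z) = so N x y (ψ.symm z) := by
        rw [LinearEquiv.symm_apply_eq, exSo_conj N ψ h1, LinearEquiv.apply_symm_apply]
      rw [h4, smul_sub]
    · rw [exG_snd, exK_snd, exK_snd, exG_snd, exSo_conj N ψ h1]

end exLifts

section exTransvections

/-- The transvection as a linear map. -/
def exE (N : ℕ) (e a : LV ℚ) : LV ℚ →ₗ[ℚ] LV ℚ where
  toFun := eich N e a
  map_add' := fun x y => by
    simp only [eich, pL_add_right]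
    module
  map_smul' := fun c x => by
    simp only [eich, pL_smul_right, RingHom.id_apply]
    module

theorem exE_inv {N : ℕ} {e a : LV ℚ} (h1 : pL N e e = 0) (h2 : pL N e a = 0) (x : LV ℚ) :
    eich N e (-a) (eich N e a x) = x := by
  have h3 : pL N a e = 0 := by rw [pL_comm, h2]
  simp only [eich, pL_neg_left, pL_neg_right, pL_add_right, pL_sub_right, pL_smul_right, h1, h2, h3]
  module

theorem exE_isom {N : ℕ} {e a : LV ℚ} (h1 : pL N e e = 0) (h2 : pL N e a = 0) (x y : LV ℚ) :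
    pL N (eich N e a x) (eich N e a y) = pL N x y := by
  have h3 : pL N a e = 0 := by rw [pL_comm, h2]
  simp only [eich, pL_add_left, pL_sub_left, pL_smul_left, pL_add_right, pL_sub_right,
    pL_smul_right, h1, h2, h3]
  rw [pL_comm N x e, pL_comm N x a]
  ring

theorem exE_int {N : ℕ} {e a : LV ℚ} (he : IntL e) (ha : IntL a) {x : LV ℚ} (hx : IntL x) :
    IntL (eich N e a x) :=
  ((hx.sub (IntL.smul (pL_int ha hx) he)).add (IntL.smul (pL_int he hx) ha)).sub
    (IntL.smul ((pL_even ha).mul (pL_int he hx)) he)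

theorem exE_d {N : ℕ} (hN : 0 < N) {e a : LV ℚ} (he : IntL e) (ha : IntL a) :
    IntL (eich N e a (exd N) - (1 : ℚ) • exd N) := by
  have h : eich N e a (exd N) - (1 : ℚ) • exd N = (-pL N a (exd N)) • e + pL N e (exd N) • a -
      (pL N a a / 2 * pL N e (exd N)) • e := by
    unfold eich
    module
  rw [h]
  exact ((IntL.smul (exd_pair hN ha).neg he).add (IntL.smul (exd_pair hN he) ha)).sub
    (IntL.smul ((pL_even ha).mul (exd_pair hN he)) he)

theorem exTransvection {N : ℕ} (hN : 0 < N) (e a : LV ℚ) (he : IntL e) (ha : IntL a)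
    (h1 : pL N e e = 0) (h2 : pL N e a = 0) :
    ∃ g : exV N ≃ₗ[ℚ] exV N, Preserves (V := exV N) (exM N) g ∧
      LiftsL (V := exV N) (exK N) (eich N e a) g := by
  have h2' : pL N e (-a) = 0 := by rw [pL_neg_right, h2, neg_zero]
  have h5 : ∀ x, eich N e (-a) (eich N e a x) = x := exE_inv h1 h2
  have h6 : ∀ x, eich N e a (eich N e (-a) x) = x := fun x => by
    have h := exE_inv h1 h2' x
    rwa [neg_neg] at h
  have h7 := exLift hN (LinearEquiv.ofLinearMap (exE N e a) (exE N e (-a)) (LinearMap.ext h6)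
    (LinearMap.ext h5)) (exE_isom h1 h2) (fun x => ⟨fun h => by
      have h8 := exE_int (N := N) he ha.neg h
      change IntL (eich N e (-a) (eich N e a x)) at h8
      rwa [h5] at h8, fun h => exE_int he ha h⟩) 1 (Or.inl rfl) (exE_d hN he ha)
  exact h7

end exTransvections

section exFinite

/-- The integers in `ℚ`. -/
def exZ : Submodule ℤ ℚ := Submodule.span ℤ {(1 : ℚ)}

theorem exZ_mem {q : ℚ} : q ∈ exZ ↔ IsZ q := by
  unfold exZ
  rw [Submodule.mem_span_singleton]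
  constructor
  · rintro ⟨a, ha⟩
    exact ⟨a, by rw [← ha, zsmul_eq_mul, mul_one]⟩
  · rintro ⟨a, ha⟩
    exact ⟨a, by rw [ha, zsmul_eq_mul, mul_one]⟩

theorem exZ_fg : exZ.FG := Submodule.fg_span_singleton 1

theorem exZ_mul (x : ℚ) : ∃ c : ℕ, 0 < c ∧ c • x ∈ exZ := by
  refine ⟨x.den, x.den_pos, ?_⟩
  rw [exZ_mem]
  exact ⟨x.num, by rw [nsmul_eq_mul, mul_comm]; exact Rat.mul_den_eq_num x⟩

theorem exProd_mul {W W' : Type*} [AddCommGroup W] [AddCommGroup W'] {S : Submodule ℤ W}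
    {T : Submodule ℤ W'} (hS : ∀ x, ∃ c : ℕ, 0 < c ∧ c • x ∈ S)
    (hT : ∀ x, ∃ c : ℕ, 0 < c ∧ c • x ∈ T) (x : W × W') :
    ∃ c : ℕ, 0 < c ∧ c • x ∈ S.prod T := by
  obtain ⟨c, hc, h1⟩ := hS x.1
  obtain ⟨d, hd, h2⟩ := hT x.2
  refine ⟨c * d, Nat.mul_pos hc hd, ?_, ?_⟩
  · change (c * d) • x.1 ∈ S
    rw [mul_comm, mul_smul]
    exact nsmul_mem h1 d
  · change (c * d) • x.2 ∈ T
    rw [mul_smul]
    exact nsmul_mem h2 c

theorem exPi_mul {ι W : Type*} [Fintype ι] [AddCommGroup W] {S : Submodule ℤ W}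
    (hS : ∀ x, ∃ c : ℕ, 0 < c ∧ c • x ∈ S) (x : ι → W) :
    ∃ c : ℕ, 0 < c ∧ c • x ∈ Submodule.pi (Set.univ : Set ι) (fun _ => S) := by
  classical
  choose c hc h1 using fun i => hS (x i)
  refine ⟨∏ i, c i, Finset.prod_pos fun i _ => hc i, ?_⟩
  rw [Submodule.mem_pi]
  intro i _
  change (∏ i, c i) • x i ∈ S
  rw [← Finset.prod_erase_mul _ _ (Finset.mem_univ i), mul_smul]
  exact nsmul_mem (h1 i) _

/-- The lattice. -/
def exL : Submodule ℤ (LV ℚ) :=
  (exZ.prod exZ).prod ((exZ.prod exZ).prod ((exZ.prod exZ).prod ((exZ.prod exZ).prod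
    ((Submodule.pi (Set.univ : Set (Fin 8)) (fun _ => exZ)).prod
      ((Submodule.pi (Set.univ : Set (Fin 8)) (fun _ => exZ)).prod exZ)))))

theorem exL_mem {x : LV ℚ} : x ∈ exL ↔ IntL x := by
  unfold exL
  simp only [Submodule.mem_prod, Submodule.mem_pi, Set.mem_univ, forall_true_left, exZ_mem]
  rfl

theorem exL_fg : exL.FG := by
  have h2 : (exZ.prod exZ).FG := exZ_fg.prod exZ_fg
  have h8 : (Submodule.pi (Set.univ : Set (Fin 8)) (fun _ => exZ)).FG :=
    Submodule.fg_pi fun _ => exZ_fg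
  exact h2.prod (h2.prod (h2.prod (h2.prod (h8.prod (h8.prod exZ_fg)))))

theorem exL_mul : ∀ x : LV ℚ, ∃ c : ℕ, 0 < c ∧ c • x ∈ exL := by
  have h2 : ∀ x : ℚ × ℚ, ∃ c : ℕ, 0 < c ∧ c • x ∈ exZ.prod exZ := exProd_mul exZ_mul exZ_mul
  have h8 : ∀ x : Fin 8 → ℚ, ∃ c : ℕ, 0 < c ∧
      c • x ∈ Submodule.pi (Set.univ : Set (Fin 8)) (fun _ => exZ) := exPi_mul exZ_mul
  exact exProd_mul h2 (exProd_mul h2 (exProd_mul h2 (exProd_mul h2 (exProd_mul h8
    (exProd_mul h8 exZ_mul)))))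

theorem exM_int {N : ℕ} (hN : 0 < N) {v : exV N} (hv : v ∈ exM N) {z : LV ℚ} (hz : IntL z) :
    IntL ((2 * (N : ℚ)) • v.1.1 z) := by
  have h1 := hv.2 z (exDual_of_int hz)
  have h2 : IntL ((2 * (N : ℚ)) • so N ((2 * (N : ℚ)) • v.2) (exd N) z) := by
    rw [← exSo_smul_mid]
    have h3 := exd_int hN IsZ.one
    rw [mul_one] at h3
    exact exDual_so hN hv.1 h3 (exDual_of_int hz)
  have h4 := (IntL.smul ((IsZ.nat 2).mul (IsZ.nat N)) h1).add h2
  convert h4 using 1
  push_cast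
  module

theorem exM_fg {N : ℕ} (hN : 0 < N) : (exM N).FG := by
  obtain ⟨S, hS⟩ := exL_fg
  have hN' : (2 * (N : ℚ)) ≠ 0 := by positivity
  let f : exV N →ₗ[ℚ] (S → LV ℚ) × LV ℚ :=
    { toFun := fun v => (fun s => (2 * (N : ℚ)) • v.1.1 s.1, (2 * (N : ℚ)) • v.2)
      map_add' := fun v w => by
        refine Prod.ext (funext fun s => ?_) ?_
        · exact smul_add _ _ _
        · exact smul_add _ _ _
      map_smul' := fun c v => by
        refine Prod.ext (funext fun s => ?_) ?_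
        · exact smul_comm (2 * (N : ℚ)) c (v.1.1 s.1)
        · exact smul_comm (2 * (N : ℚ)) c v.2 }
  have hf : Function.Injective (f.restrictScalars ℤ) := by
    refine (injective_iff_map_eq_zero _).2 ?_
    intro v hv
    have h1 : ∀ s ∈ S, v.1.1 s = 0 := fun s hs => by
      have h := congrFun (congrArg Prod.fst hv) ⟨s, hs⟩
      change (2 * (N : ℚ)) • v.1.1 s = 0 at h
      exact (smul_eq_zero.1 h).resolve_left hN'
    have h2 : v.2 = 0 := by
      have h := congrArg Prod.snd hv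
      change (2 * (N : ℚ)) • v.2 = 0 at h
      exact (smul_eq_zero.1 h).resolve_left hN'
    have h3 : ∀ z ∈ exL, v.1.1 z = 0 := by
      intro z hz
      rw [← hS] at hz
      induction hz using Submodule.span_induction with
      | mem x hx => exact h1 x hx
      | zero => exact map_zero _
      | add x y _ _ hx hy => rw [map_add, hx, hy, add_zero]
      | smul c x _ hx => rw [map_zsmul, hx, smul_zero]
    refine exV_ext (fun z => ?_) h2
    obtain ⟨c, hc, h4⟩ := exL_mul z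
    have h5 := h3 _ h4
    rw [map_nsmul, ← Nat.cast_smul_eq_nsmul ℚ] at h5
    exact (smul_eq_zero.1 h5).resolve_left (Nat.cast_ne_zero.2 hc.ne')
  refine Submodule.fg_of_fg_map_injective _ hf ?_
  have hP : ((Submodule.pi (Set.univ : Set S) (fun _ => exL)).prod exL).FG :=
    (Submodule.fg_pi fun _ => exL_fg).prod exL_fg
  have hPN := isNoetherian_of_fg_of_noetherian _ hP
  refine isNoetherian_submodule.1 hPN _ ?_
  rintro _ ⟨v, hv, rfl⟩
  refine ⟨?_, ?_⟩
  · rw [SetLike.mem_coe, Submodule.mem_pi]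
    intro s _
    rw [exL_mem]
    refine exM_int hN hv ?_
    rw [← exL_mem, ← hS]
    exact Submodule.subset_span s.2
  · rw [SetLike.mem_coe, exL_mem]
    exact hv.1

theorem exM_mul {N : ℕ} (hN : 0 < N) (v : exV N) : ∃ c : ℕ, 0 < c ∧ (c : ℚ) • v ∈ exM N := by
  obtain ⟨S, hS⟩ := exL_fg
  obtain ⟨c1, hc1, h1⟩ := exPi_mul exL_mul (fun s : S => v.1.1 s.1)
  obtain ⟨c2, hc2, h2⟩ := exL_mul v.2
  rw [Submodule.mem_pi] at h1
  have h3 : ∀ z ∈ exL, c1 • v.1.1 z ∈ exL := by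
    intro z hz
    rw [← hS] at hz
    induction hz using Submodule.span_induction with
    | mem x hx => exact h1 ⟨x, hx⟩ (Set.mem_univ _)
    | zero =>
      rw [map_zero, smul_zero]
      exact exL.zero_mem
    | add x y _ _ hx hy =>
      rw [map_add, smul_add]
      exact exL.add_mem hx hy
    | smul c x _ hx =>
      rw [map_zsmul, smul_comm]
      exact exL.smul_mem c hx
  have h3' : ∀ z, IntL z → IntL (((c1 : ℚ)) • v.1.1 z) := fun z hz => by
    rw [← exL_mem, Nat.cast_smul_eq_nsmul]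
    exact h3 z (exL_mem.2 hz)
  have h2' : IntL ((c2 : ℚ) • v.2) := by
    rw [← exL_mem, Nat.cast_smul_eq_nsmul]
    exact h2
  refine ⟨2 * N * (c1 * c2), by positivity, ?_, fun z hz => ?_⟩
  · change IntL ((2 * (N : ℚ)) • ((2 * N * (c1 * c2) : ℕ) : ℚ) • v.2)
    have h4 := IntL.smul (((IsZ.nat 2).mul (IsZ.nat N)).mul
      (((IsZ.nat 2).mul (IsZ.nat N)).mul (IsZ.nat c1))) h2'
    convert h4 using 1
    push_cast
    module
  · change IntL ((((2 * N * (c1 * c2) : ℕ) : ℚ) • v.1.1 z) -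
      so N ((2 * (N : ℚ)) • ((2 * N * (c1 * c2) : ℕ) : ℚ) • v.2) (exd N) z)
    have h5 := h3' _ (exDual_mul hN hz)
    rw [map_smul] at h5
    have h6 := exd_int hN IsZ.one
    rw [mul_one] at h6
    have h7 := exDual_so hN (IntL.smul (((IsZ.nat 2).mul (IsZ.nat N)).mul (IsZ.nat c1)) h2') h6 hz
    have h8 := (IntL.smul (IsZ.nat c2) h5).sub h7
    convert h8 using 1
    simp only [exSo_smul_left, exSo_smul_mid]
    push_cast
    module

theorem exM_span {N : ℕ} (hN : 0 < N) : Submodule.span ℚ (exM N : Set (exV N)) = ⊤ := by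
  rw [Submodule.eq_top_iff']
  intro v
  obtain ⟨c, hc, h⟩ := exM_mul hN v
  have hc' : (c : ℚ) ≠ 0 := by positivity
  have h1 : v = (c : ℚ)⁻¹ • ((c : ℚ) • v) := by
    rw [smul_smul, inv_mul_cancel₀ hc', one_smul]
  rw [h1]
  exact Submodule.smul_mem _ _ (Submodule.subset_span h)

end exFinite

section exQuotient

theorem exal_pair (N : ℕ) (z : LV ℚ) : pL N al z = z.1.2 := by
  have h : pH N (0 : HV ℚ) z.2 = 0 := by rw [← zero_smul ℚ (0 : HV ℚ), pH_smul_left, zero_mul]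
  unfold pL al
  simp [hU, h]

theorem exbt_pair (N : ℕ) (z : LV ℚ) : pL N bt z = z.1.1 := by
  have h : pH N (0 : HV ℚ) z.2 = 0 := by rw [← zero_smul ℚ (0 : HV ℚ), pH_smul_left, zero_mul]
  unfold pL bt
  simp [hU, h]

theorem exh (N : ℕ) (z : LV ℚ) : so N bt al z = ((-z.1.1, z.1.2), 0) := by
  unfold so
  rw [exal_pair, exbt_pair]
  unfold bt al
  refine Prod.ext (Prod.ext ?_ ?_) ?_
  · simp
  · simp
  · simp

theorem exEig {N : ℕ} {w : LV ℚ} {c : ℚ} (h : so N bt al w = c • w) :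
    (c ≠ -1 → w.1.1 = 0) ∧ (c ≠ 1 → w.1.2 = 0) ∧ (c ≠ 0 → w.2 = 0) := by
  rw [exh] at h
  have h1 : -w.1.1 = c * w.1.1 := congrArg (fun z : LV ℚ => z.1.1) h
  have h2 : w.1.2 = c * w.1.2 := congrArg (fun z : LV ℚ => z.1.2) h
  have h3 : (0 : HV ℚ) = c • w.2 := congrArg (fun z : LV ℚ => z.2) h
  refine ⟨fun hc => ?_, fun hc => ?_, fun hc => ?_⟩
  · have h4 : (c + 1) * w.1.1 = 0 := by linear_combination -h1
    exact (mul_eq_zero.1 h4).resolve_left fun h5 => hc (by linear_combination h5)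
  · have h4 : (c - 1) * w.1.2 = 0 := by linear_combination -h2
    exact (mul_eq_zero.1 h4).resolve_left fun h5 => hc (by linear_combination h5)
  · exact (smul_eq_zero.1 h3.symm).resolve_left hc

theorem exDeg_bt {N : ℕ} {j : ℤ} {v : exV N} (h : InDegL (exK N) j v) :
    so N bt al (v.1.1 bt) = ((j : ℚ) + 1) • v.1.1 bt := by
  have h1 : so N bt al (v.1.1 bt) - v.1.1 (so N bt al bt) = (j : ℚ) • v.1.1 bt :=
    congrArg (fun w : exV N => w.1.1 bt) h
  have h2 : so N bt al bt = bt := by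
    rw [exh]
    refine Prod.ext (Prod.ext ?_ ?_) ?_ <;> simp [bt]
  rw [h2, sub_eq_iff_eq_add] at h1
  rw [h1]
  module

theorem exDeg_al {N : ℕ} {j : ℤ} {v : exV N} (h : InDegL (exK N) j v) :
    so N bt al (v.1.1 al) = ((j : ℚ) - 1) • v.1.1 al := by
  have h1 : so N bt al (v.1.1 al) - v.1.1 (so N bt al al) = (j : ℚ) • v.1.1 al :=
    congrArg (fun w : exV N => w.1.1 al) h
  have h2 : so N bt al al = -al := by
    rw [exh]
    refine Prod.ext (Prod.ext ?_ ?_) ?_ <;> simp [al]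
  rw [h2, map_neg, sub_eq_iff_eq_add] at h1
  rw [h1]
  module

theorem exDeg_H {N : ℕ} {j : ℤ} {v : exV N} (h : InDegL (exK N) j v) (y : HV ℚ) :
    so N bt al (v.1.1 (0, y)) = (j : ℚ) • v.1.1 (0, y) := by
  have h1 : so N bt al (v.1.1 (0, y)) - v.1.1 (so N bt al (0, y)) = (j : ℚ) • v.1.1 (0, y) :=
    congrArg (fun w : exV N => w.1.1 (0, y)) h
  have h2 : so N bt al (0, y) = 0 := by
    rw [exh]
    refine Prod.ext (Prod.ext ?_ ?_) ?_ <;> simp
  rw [h2, map_zero, sub_zero] at h1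
  exact h1

theorem exDeg_l {N : ℕ} {j : ℤ} {v : exV N} (h : InDegL (exK N) j v) :
    so N bt al v.2 = (j : ℚ) • v.2 := congrArg (fun w : exV N => w.2) h

theorem exZero_of {N : ℕ} {v : exV N} (h1 : v.1.1 bt = 0) (h2 : v.1.1 al = 0)
    (h3 : ∀ y, v.1.1 (0, y) = 0) (h4 : v.2 = 0) : v = 0 := by
  refine exV_ext (fun z => ?_) h4
  have h5 : z = z.1.1 • al + z.1.2 • bt + (0, z.2) := by
    unfold al bt
    refine Prod.ext (Prod.ext ?_ ?_) ?_ <;> simp
  rw [h5, map_add, map_add, map_smul, map_smul, h1, h2, h3]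
  simp

theorem exDeg_low {N : ℕ} {v : exV N} (h : InDegL (exK N) (-3) v) : v = 0 := by
  have h1 := exEig (exDeg_bt h)
  have h2 := exEig (exDeg_al h)
  have h3 := fun y => exEig (exDeg_H h y)
  have h4 := exEig (exDeg_l h)
  exact exZero_of
    (Prod.ext (Prod.ext (h1.1 (by norm_num)) (h1.2.1 (by norm_num))) (h1.2.2 (by norm_num)))
    (Prod.ext (Prod.ext (h2.1 (by norm_num)) (h2.2.1 (by norm_num))) (h2.2.2 (by norm_num)))
    (fun y => Prod.ext (Prod.ext ((h3 y).1 (by norm_num)) ((h3 y).2.1 (by norm_num)))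
      ((h3 y).2.2 (by norm_num)))
    (Prod.ext (Prod.ext (h4.1 (by norm_num)) (h4.2.1 (by norm_num))) (h4.2.2 (by norm_num)))

/-- The leading coefficients in degree `-1`. -/
def exPi (N : ℕ) : exV N →ₗ[ℚ] HV ℚ × ℚ where
  toFun := fun v => (-(v.1.1 bt).2, v.2.1.1)
  map_add' := fun v w => by
    refine Prod.ext ?_ rfl
    change -((v.1.1 bt).2 + (w.1.1 bt).2) = -(v.1.1 bt).2 + -(w.1.1 bt).2
    exact neg_add _ _
  map_smul' := fun c v => by
    refine Prod.ext ?_ rfl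
    change -(c • (v.1.1 bt).2) = c • -(v.1.1 bt).2
    exact (smul_neg _ _).symm

theorem exPi_apply (N : ℕ) (v : exV N) : exPi N v = (-(v.1.1 bt).2, v.2.1.1) := rfl

theorem exPi_above {N : ℕ} {v : exV N} (h : v ∈ AboveL (exK N) (-1)) : exPi N v = 0 := by
  unfold AboveL at h
  induction h using Submodule.span_induction with
  | mem x hx =>
    obtain ⟨i, hi, hx⟩ := hx
    have h1 := (exEig (exDeg_bt hx)).2.2
    have h2 := (exEig (exDeg_l hx)).1
    have hi1 : (i : ℚ) ≠ -1 := by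
      intro h
      have : i = -1 := by exact_mod_cast h
      omega
    have hi2 : (i : ℚ) + 1 ≠ 0 := fun h => hi1 (by linear_combination h)
    rw [exPi_apply, h1 hi2, h2 hi1, neg_zero]
    rfl
  | zero => exact map_zero _
  | add x y _ _ hx hy => rw [map_add, hx, hy, add_zero]
  | smul c x _ hx => rw [map_smul, hx, smul_zero]

theorem exPi_inj {N : ℕ} {v : exV N} (h : InDegL (exK N) (-1) v) (h0 : exPi N v = 0) : v = 0 := by
  have h1 := exEig (exDeg_bt h)
  have h2 := exEig (exDeg_al h)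
  have h3 := fun y => exEig (exDeg_H h y)
  have h4 := exEig (exDeg_l h)
  rw [exPi_apply] at h0
  have h5 : -(v.1.1 bt).2 = 0 := congrArg Prod.fst h0
  have h6 : v.2.1.1 = 0 := congrArg Prod.snd h0
  have h7 : v.1.1 bt = 0 :=
    Prod.ext (Prod.ext (h1.1 (by norm_num)) (h1.2.1 (by norm_num))) (neg_eq_zero.1 h5)
  refine exZero_of h7
    (Prod.ext (Prod.ext (h2.1 (by norm_num)) (h2.2.1 (by norm_num))) (h2.2.2 (by norm_num)))
    (fun y => ?_)
    (Prod.ext (Prod.ext h6 (h4.2.1 (by norm_num))) (h4.2.2 (by norm_num)))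
  refine Prod.ext (Prod.ext ?_ ((h3 y).2.1 (by norm_num))) ((h3 y).2.2 (by norm_num))
  have h8 := v.1.2 bt (0, y)
  rw [h7, exbt_pair] at h8
  have h9 : pL N (0 : LV ℚ) (0, y) = 0 := by
    rw [← zero_smul ℚ (0 : LV ℚ), pL_smul_left, zero_mul]
  rw [h9, zero_add] at h8
  exact h8

/-- The element of degree `-1` with leading coefficients `a`, `t`. -/
def exX (N : ℕ) (a : HV ℚ) (t : ℚ) : exV N := (⟨exD N al (0, a), exD_mem N al (0, a)⟩, t • al)

theorem exX_deg (N : ℕ) (a : HV ℚ) (t : ℚ) : InDegL (exK N) (-1) (exX N a t) := by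
  have h2 : so N bt al al = -al := by
    rw [exh]
    refine Prod.ext (Prod.ext ?_ ?_) ?_ <;> simp [al]
  have h3 : so N bt al (0, a) = 0 := by
    rw [exh]
    refine Prod.ext (Prod.ext ?_ ?_) ?_ <;> simp
  refine exV_ext (fun z => ?_) ?_
  · rw [exK_fst]
    change so N bt al (so N al (0, a) z) - so N al (0, a) (so N bt al z) =
      (((-1 : ℤ) : ℚ)) • so N al (0, a) z
    rw [exSo_bracket, h2, h3, ← neg_one_smul ℚ al, exSo_smul_left, ← zero_smul ℚ (0 : LV ℚ),
      exSo_smul_mid, zero_smul, add_zero]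
    push_cast
    rfl
  · rw [exK_snd]
    change so N bt al (t • al) = (((-1 : ℤ) : ℚ)) • (t • al)
    rw [exSo_smul_right, h2]
    push_cast
    module

theorem exX_pi (N : ℕ) (a : HV ℚ) (t : ℚ) : exPi N (exX N a t) = (a, t) := by
  rw [exPi_apply]
  change (-(so N al (0, a) bt).2, (t • al).1.1) = (a, t)
  refine Prod.ext ?_ ?_
  · unfold so
    rw [exal_pair, pL_comm, exbt_pair]
    simp [bt]
  · simp [al]

theorem exX_mem {N : ℕ} (hN : 0 < N) {a : HV ℚ} {t : ℚ} (h1 : IsZ (2 * (N : ℚ) * t))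
    (h2 : IntH (a - (2 * (N : ℚ) * t) • dst N)) : exX N a t ∈ exM N := by
  have hal : IntL al := ⟨⟨IsZ.one, IsZ.zero⟩, IntH.zero⟩
  rw [exM_iff]
  refine ⟨?_, fun z hz => ?_⟩
  · change IntL ((2 * (N : ℚ)) • (t • al))
    rw [smul_smul]
    exact IntL.smul h1 hal
  · change IntL (so N al (0, a) z - so N ((2 * (N : ℚ)) • (t • al)) (exd N) z)
    have h3 : IntL ((0, a - (2 * (N : ℚ) * t) • dst N) : LV ℚ) := ⟨⟨IsZ.zero, IsZ.zero⟩, h2⟩
    have h4 := exDual_so hN hal h3 hz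
    convert h4 using 1
    have h5 : ((0, a - (2 * (N : ℚ) * t) • dst N) : LV ℚ) =
        (0, a) + (-(2 * (N : ℚ) * t)) • exd N := by
      unfold exd
      refine Prod.ext ?_ ?_
      · simp
      · change a - (2 * (N : ℚ) * t) • dst N = a + (-(2 * (N : ℚ) * t)) • dst N
        rw [neg_smul, sub_eq_add_neg]
    rw [h5, exSo_add_mid, exSo_smul_mid, exSo_smul_left, exSo_smul_left]
    module

theorem exInQ {N : ℕ} (hN : 0 < N) (z : HV ℚ × ℚ) :
    InQL (V := exV N) (exK N) (exM N) (-1) (exPi N) z ↔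
    (IsZ (2 * (N : ℚ) * z.2) ∧ IntH (z.1 - (2 * (N : ℚ) * z.2) • dst N)) := by
  constructor
  · rintro ⟨m, hm, x, _, h2, h3⟩
    have h4 : exPi N m = z := by
      have h5 := exPi_above h2
      rw [map_sub, h3] at h5
      exact sub_eq_zero.1 h5
    rw [exPi_apply] at h4
    subst h4
    rw [exM_iff] at hm
    refine ⟨hm.1.1.1, ?_⟩
    have hbt : IntL bt := ⟨⟨IsZ.zero, IsZ.one⟩, IntH.zero⟩
    have h6 := (hm.2 bt (exDual_of_int hbt)).2.neg
    convert h6 using 1
    change -(m.1.1 bt).2 - (2 * (N : ℚ) * m.2.1.1) • dst N =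
      -((m.1.1 bt).2 - (so N ((2 * (N : ℚ)) • m.2) (exd N) bt).2)
    have h7 : (so N ((2 * (N : ℚ)) • m.2) (exd N) bt).2 = -((2 * (N : ℚ) * m.2.1.1) • dst N) := by
      unfold so
      rw [pL_comm, exbt_pair, pL_smul_left, pL_comm N m.2, exbt_pair]
      unfold exd
      simp
    rw [h7]
    abel
  · rintro ⟨h1, h2⟩
    refine ⟨exX N z.1 z.2, exX_mem hN h1 h2, exX N z.1 z.2, exX_deg N z.1 z.2, ?_, exX_pi N z.1 z.2⟩
    rw [sub_self]
    exact Submodule.zero_mem _

theorem exQuot {N : ℕ} (hN : 0 < N) :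
    MukaiQuotientL (V := exV N) N (exK N) (exM N) (-1) (exPi N) where
  ker_iff := fun x hx => by
    constructor
    · intro h
      rw [exPi_inj hx h]
      exact Submodule.zero_mem _
    · intro h
      unfold ProdsL at h
      have h1 : x = 0 := by
        clear hx
        induction h using Submodule.span_induction with
        | mem v hv =>
          obtain ⟨a, b, u, hu, rfl⟩ := hv
          rw [exDeg_low hu, map_zero, map_zero]
        | zero => rfl
        | add x y _ _ hx hy => rw [hx, hy, add_zero]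
        | smul c x _ hx => rw [hx, smul_zero]
      rw [h1, map_zero]
  surj := fun z => ⟨exX N z.1 z.2, exX_deg N z.1 z.2, exX_pi N z.1 z.2⟩
  equiv := fun a b x _ => by
    have h0 : ∀ z : LV ℚ, so N (0, a) (0, b) z = (0, soH N a b z.2) := fun z => by
      have h1 : ∀ c : HV ℚ, pL N (0, c) z = pH N c z.2 := fun c => by
        unfold pL
        simp [hU]
      unfold so soH
      rw [h1, h1]
      refine Prod.ext ?_ rfl
      simp
    have h2 : so N (0, a) (0, b) bt = 0 := by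
      rw [h0]
      unfold soH bt
      have h3 : ∀ c : HV ℚ, pH N c 0 = 0 := fun c => by
        rw [← zero_smul ℚ (0 : HV ℚ), pH_smul_right, zero_mul]
      change ((0, pH N b 0 • a - pH N a 0 • b) : LV ℚ) = 0
      rw [h3, h3]
      simp
    rw [exPi_apply, exPi_apply, exK_fst, exK_snd, h2, map_zero, sub_zero, h0, h0]
    refine Prod.ext ?_ rfl
    change -(soH N a b (x.1.1 bt).2) = soH N a b (-(x.1.1 bt).2)
    unfold soH
    rw [pH_neg_right, pH_neg_right]
    module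
  int_left := fun x => by
    rw [exInQ hN]
    simp [IsZ.zero]
  int_right := fun y => by
    rw [exInQ hN]
    have hN' : (N : ℚ) ≠ 0 := by positivity
    have h1 : (2 * (N : ℚ) * y) • dst N = y • dl := by
      unfold dst
      rw [smul_smul]
      congr 1
      field_simp
    change IsZ (2 * (N : ℚ) * y) ∧ IntH (0 - (2 * (N : ℚ) * y) • dst N) ↔ IsZ y
    rw [h1]
    constructor
    · rintro ⟨_, h⟩
      have h2 := h.2.2.2.2.2.neg
      simpa [dl] using h2
    · intro h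
      refine ⟨((IsZ.nat 2).mul (IsZ.nat N)).mul h, ?_⟩
      exact IntH.zero.sub (IntH.smul h exdl_int)
  glue := by
    have hN' : (N : ℚ) ≠ 0 := by positivity
    refine ⟨1 / (2 * (N : ℚ)), ?_⟩
    rw [exInQ hN]
    have h1 : 2 * (N : ℚ) * (1 / (2 * (N : ℚ))) = 1 := by field_simp
    change IsZ (2 * (N : ℚ) * (1 / (2 * (N : ℚ)))) ∧
      IntH (dst N - (2 * (N : ℚ) * (1 / (2 * (N : ℚ)))) • dst N)
    rw [h1, one_smul, sub_self]
    exact ⟨IsZ.one, IntH.zero⟩

end exQuotient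

section exFinal

theorem exDatum {N : ℕ} (hN : 0 < N) : K3DatumL (V := exV N) N (exK N) (exM N) where
  alt := exK_alt N
  bracket := exK_bracket N
  fg := exM_fg hN
  span_eq := exM_span hN
  transvection := fun e a he ha h1 h2 => exTransvection hN e a he ha h1 h2
  quot := ⟨-1, exPi N, exQuot hN⟩

theorem exLift' {N : ℕ} (hN : 0 < N) (ψ : LV ℚ ≃ₗ[ℚ] LV ℚ)
    (h1 : ∀ x y, pL N (ψ x) (ψ y) = pL N x y) (h2 : ∀ x, IntL (ψ x) ↔ IntL x)
    (h : IntL (ψ (0, dst N) - (0, dst N)) ∨ IntL (ψ (0, dst N) + (0, dst N))) :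
    ∃ g : exV N ≃ₗ[ℚ] exV N, Preserves (V := exV N) (exM N) g ∧
      LiftsL (V := exV N) (exK N) ψ g := by
  rcases h with h | h
  · refine exLift hN ψ h1 h2 1 (Or.inl rfl) ?_
    rw [one_smul]
    exact h
  · refine exLift hN ψ h1 h2 (-1) (Or.inr rfl) ?_
    rw [neg_one_smul, sub_neg_eq_add]
    exact h

end exFinal

/-- PROOF: `V = so(Λ_ℚ) × Λ_ℚ`, `so(Λ_ℚ)` the skew endomorphisms of `LV ℚ`, `κ x y (A, l) = ([D, A], D l)`,
`D = so N x y`; `M = {(A, l) | 2N l ∈ Λ, A - so(2N l, δ*) maps Λ* to Λ}`; `j = -1`,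
`π (A, l) = (- (A bt).2, pL l bt)`; `ProdsL κ (-1) = 0` because there is nothing of degree `-3`; the part of degree
`-1` consists of `(so(al, (0, a)), t al)`. For `ψ ∈ O(Λ)` with `ψ δ* - e δ* ∈ Λ`, `e = ±1`, the map
`(A, l) ↦ (e ψ A ψ⁻¹, ψ l)` preserves `M` and lifts `ψ`. -/
theorem example_datum {N : ℕ} (hN : 0 < N) :
    ∃ (V : Type) (_ : AddCommGroup V) (_ : Module ℚ V)
      (κ : LV ℚ →ₗ[ℚ] LV ℚ →ₗ[ℚ] Module.End ℚ V) (M : Submodule ℤ V), K3DatumL N κ M ∧
      ∀ ψ : LV ℚ ≃ₗ[ℚ] LV ℚ, (∀ x y, pL N (ψ x) (ψ y) = pL N x y) → (∀ x, IntL (ψ x) ↔ IntL x) →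
        (IntL (ψ (0, dst N) - (0, dst N)) ∨ IntL (ψ (0, dst N) + (0, dst N))) →
        ∃ g : V ≃ₗ[ℚ] V, Preserves M g ∧ LiftsL κ ψ g :=
  ⟨exV N, inferInstance, inferInstance, exK N, exM N, exDatum hN,
    fun ψ h1 h2 h => exLift' hN ψ h1 h2 h⟩

end Pool.Agent.H.MP_072fb1_ag.K3
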