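import Pool.Agent.H.MP_072fb1_ag.K3.Odd

/-!
# A period with `NS = U₁`
-/

set_option autoImplicit false

namespace Pool.Agent.H.MP_072fb1_ag.K3

open Polynomial

theorem per_exists_transc : ∃ t : ℝ, 0 < t ∧ Transcendental ℚ t := by
  have h1 : Transcendental ℤ (liouvilleNumber ((2 : ℕ) : ℝ)) :=
    transcendental_liouvilleNumber (le_refl 2)
  have h2 : Transcendental ℚ (liouvilleNumber ((2 : ℕ) : ℝ)) := by
    intro h
    exact h1 ((IsFractionRing.isAlgebraic_iff ℤ ℚ ℝ).2 h)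
  have h0 : liouvilleNumber ((2 : ℕ) : ℝ) ≠ 0 := by
    intro h
    rw [h] at h2
    exact h2 isAlgebraic_zero
  refine ⟨(liouvilleNumber ((2 : ℕ) : ℝ)) ^ 2, by positivity, h2.pow (by norm_num)⟩

/-- Half of the value of the `E₈` form at `(u^k, …, u^(k+7))`. -/
def perQ {K : Type*} [CommRing K] (u : K) (k : ℕ) : K :=
  u ^ (2 * k) * (1 + u ^ 2 + u ^ 4 + u ^ 6 + u ^ 8 + u ^ 10 + u ^ 12 + u ^ 14 - u ^ 2 - u ^ 4 -
    u ^ 5 - u ^ 7 - u ^ 9 - u ^ 11 - u ^ 13)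

theorem per_e8 (u : ℂ) (k : ℕ) :
    e8 (fun i : Fin 8 => u ^ (k + (i : ℕ))) (fun i : Fin 8 => u ^ (k + (i : ℕ))) = 2 * perQ u k := by
  simp [e8, CartanMatrix.E₈, Fin.sum_univ_succ, perQ]
  ring

/-- The coordinate `W`. -/
def perW {K : Type*} [CommRing K] (N : ℕ) (u : K) : K :=
  u ^ 3 + perQ u 3 + perQ u 11 + (N : K) * u ^ 38

/-- The period. -/
noncomputable def perS (N : ℕ) (t : ℝ) : HV ℂ :=
  ((0, 0), (1, perW N (t : ℂ)), (Complex.I * t, Complex.I * t ^ 2),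
    (fun i : Fin 8 => (t : ℂ) ^ (3 + (i : ℕ))), (fun i : Fin 8 => (t : ℂ) ^ (11 + (i : ℕ))),
    (t : ℂ) ^ 19)

/-- The coefficients of the linear form `e8 p`. -/
def perE (p : Fin 8 → ℚ) : Fin 8 → ℚ :=
  ![2 * p 0 - p 2, 2 * p 1 - p 3, 2 * p 2 - p 0 - p 3, 2 * p 3 - p 1 - p 2 - p 4,
    2 * p 4 - p 3 - p 5, 2 * p 5 - p 4 - p 6, 2 * p 6 - p 5 - p 7, 2 * p 7 - p 6]

theorem perE_zero {p : Fin 8 → ℚ} (h : ∀ i, perE p i = 0) : p = 0 := by
  have h0 := h 0
  have h1 := h 1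
  have h2 := h 2
  have h3 := h 3
  have h4 := h 4
  have h5 := h 5
  have h6 := h 6
  have h7 := h 7
  simp [perE] at h0 h1 h2 h3 h4 h5 h6 h7
  ext i
  fin_cases i <;> simp <;> linarith

theorem per_e8_lin (p : Fin 8 → ℚ) (u : ℂ) (k : ℕ) :
    e8 (fun i => ((p i : ℚ) : ℂ)) (fun i : Fin 8 => u ^ (k + (i : ℕ))) =
      ∑ i : Fin 8, ((perE p i : ℚ) : ℂ) * u ^ (k + (i : ℕ)) := by
  simp [e8, CartanMatrix.E₈, Fin.sum_univ_succ, perE]
  ring

/-- The polynomial of the real part. -/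
noncomputable def perP (N : ℕ) (x : HV ℚ) : ℚ[X] :=
  C x.2.1.1 * perW N X + C x.2.1.2 - (∑ i : Fin 8, C (perE x.2.2.2.1 i) * X ^ (3 + (i : ℕ))) -
    (∑ i : Fin 8, C (perE x.2.2.2.2.1 i) * X ^ (11 + (i : ℕ))) -
    C (2 * (N : ℚ) * x.2.2.2.2.2) * X ^ 19

theorem per_pC (N : ℕ) (t : ℝ) (x : HV ℚ) : pC N x (perS N t) =
    ((aeval t (perP N x) : ℝ) : ℂ) +
      (((x.2.2.1.1 : ℝ) * t ^ 2 + (x.2.2.1.2 : ℝ) * t : ℝ) : ℂ) * Complex.I := by
  unfold pC pH pR
  simp only [perS, cc, per_e8_lin]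
  simp [perP, hU, perW, perQ, Fin.sum_univ_succ]
  ring

theorem per_isPeriod {N : ℕ} {t : ℝ} (ht : 0 < t) : IsPeriod N (perS N t) := by
  constructor
  · unfold pH pR
    simp only [perS, per_e8]
    simp only [hU, perW]
    ring_nf
    simp only [Complex.I_sq]
    ring
  · have h : pH N (perS N t) (star (perS N t)) = ((4 * t ^ 3 : ℝ) : ℂ) := by
      have e1 : ∀ k : ℕ, star (fun i : Fin 8 => (t : ℂ) ^ (k + (i : ℕ))) =
          fun i : Fin 8 => (t : ℂ) ^ (k + (i : ℕ)) := by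
        intro k
        funext i
        simp
      have e2 : star (perS N t) = ((0, 0), (1, perW N (t : ℂ)), (-(Complex.I * t),
          -(Complex.I * t ^ 2)), (fun i : Fin 8 => (t : ℂ) ^ (3 + (i : ℕ))),
          (fun i : Fin 8 => (t : ℂ) ^ (11 + (i : ℕ))), (t : ℂ) ^ 19) := by
        refine Prod.ext (Prod.ext ?_ ?_) (Prod.ext (Prod.ext ?_ ?_) (Prod.ext (Prod.ext ?_ ?_)
          (Prod.ext (funext fun i => ?_) (Prod.ext (funext fun i => ?_) ?_)))) <;>
          simp [perS, perW, perQ]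
      rw [e2]
      unfold pH pR
      simp only [perS, per_e8]
      simp only [hU, perW]
      push_cast
      ring_nf
      simp only [Complex.I_sq]
      ring
    rw [h, Complex.ofReal_re]
    positivity

theorem per_coeffs {N : ℕ} (hN : 0 < N) {x : HV ℚ} (h : perP N x = 0) :
    x.2.1 = 0 ∧ x.2.2.2.1 = 0 ∧ x.2.2.2.2.1 = 0 ∧ x.2.2.2.2.2 = 0 := by
  have hN' : (N : ℚ) ≠ 0 := by exact_mod_cast hN.ne'
  have hc : ∀ k : ℕ, (perP N x).coeff k = 0 := fun k => by rw [h, coeff_zero]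
  have e : perP N x = C x.2.1.1 * (X ^ 3 + (X ^ 6 + X ^ 12 + X ^ 14 + X ^ 16 + X ^ 18 + X ^ 20 -
      X ^ 11 - X ^ 13 - X ^ 15 - X ^ 17 - X ^ 19) + (X ^ 22 + X ^ 28 + X ^ 30 + X ^ 32 + X ^ 34 +
      X ^ 36 - X ^ 27 - X ^ 29 - X ^ 31 - X ^ 33 - X ^ 35) + C (N : ℚ) * X ^ 38) + C x.2.1.2 -
      (∑ i : Fin 8, C (perE x.2.2.2.1 i) * X ^ (3 + (i : ℕ))) -
      (∑ i : Fin 8, C (perE x.2.2.2.2.1 i) * X ^ (11 + (i : ℕ))) -
      C (2 * (N : ℚ) * x.2.2.2.2.2) * X ^ 19 := by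
    simp only [perP, perW, perQ, map_natCast]
    ring
  rw [e] at hc
  simp only [Fin.sum_univ_eight] at hc
  generalize hcc : 2 * (N : ℚ) * x.2.2.2.2.2 = c at hc
  have ha := hc 38
  simp [coeff_X_pow] at ha
  have ha : x.2.1.1 = 0 := by
    rcases ha with ha | ha
    · exact ha
    · exact absurd ha hN.ne'
  simp only [ha, map_zero, zero_mul, zero_add] at hc
  have hb := hc 0
  simp [coeff_X_pow, coeff_C] at hb
  have p0 := hc 3
  have p1 := hc 4
  have p2 := hc 5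
  have p3 := hc 6
  have p4 := hc 7
  have p5 := hc 8
  have p6 := hc 9
  have p7 := hc 10
  have q0 := hc 11
  have q1 := hc 12
  have q2 := hc 13
  have q3 := hc 14
  have q4 := hc 15
  have q5 := hc 16
  have q6 := hc 17
  have q7 := hc 18
  have r := hc 19
  simp [coeff_X_pow] at p0 p1 p2 p3 p4 p5 p6 p7 q0 q1 q2 q3 q4 q5 q6 q7 r
  refine ⟨Prod.ext ha hb, perE_zero ?_, perE_zero ?_, ?_⟩
  · intro i
    fin_cases i <;> simp <;> assumption
  · intro i
    fin_cases i <;> simp <;> assumption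
  · rw [r] at hcc
    have h2 : 2 * (N : ℚ) ≠ 0 := mul_ne_zero two_ne_zero hN'
    exact (mul_eq_zero.1 hcc).resolve_left h2

theorem exists_period {N : ℕ} (hN : 0 < N) :
    ∃ s : HV ℂ, IsPeriod N s ∧ ∀ x, InNS N s x ↔ x.2 = 0 := by
  obtain ⟨t, ht, htr⟩ := per_exists_transc
  refine ⟨perS N t, per_isPeriod ht, fun x => ⟨fun h => ?_, fun h => ?_⟩⟩
  · have h1 : pC N x (perS N t) = 0 := h
    rw [per_pC] at h1
    have hre : (aeval t (perP N x) : ℝ) = 0 := by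
      have := congrArg Complex.re h1
      simpa only [Complex.add_re, Complex.mul_re, Complex.ofReal_re, Complex.ofReal_im,
        Complex.I_re, Complex.I_im, mul_zero, zero_mul, sub_zero, add_zero, Complex.zero_re]
        using this
    have him : (x.2.2.1.1 : ℝ) * t ^ 2 + (x.2.2.1.2 : ℝ) * t = 0 := by
      have := congrArg Complex.im h1
      simpa only [Complex.add_im, Complex.mul_im, Complex.ofReal_re, Complex.ofReal_im,
        Complex.I_re, Complex.I_im, mul_zero, zero_mul, mul_one, zero_add, add_zero,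
        Complex.zero_im] using this
    have hP : perP N x = 0 := by
      by_contra hne
      exact htr ⟨_, hne, hre⟩
    obtain ⟨h2, h4, h5, h6⟩ := per_coeffs hN hP
    have hQ : (C x.2.2.1.1 * X ^ 2 + C x.2.2.1.2 * X : ℚ[X]) = 0 := by
      by_contra hne
      refine htr ⟨_, hne, ?_⟩
      simpa using him
    have h7 : x.2.2.1.1 = 0 := by
      have := congrArg (fun q : ℚ[X] => q.coeff 2) hQ
      simpa [coeff_X, coeff_X_pow] using this
    have h8 : x.2.2.1.2 = 0 := by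
      have := congrArg (fun q : ℚ[X] => q.coeff 1) hQ
      simpa [coeff_X, coeff_X_pow] using this
    exact Prod.ext h2 (Prod.ext (Prod.ext h7 h8) (Prod.ext h4 (Prod.ext h5 h6)))
  · change pC N x (perS N t) = 0
    have hP : perP N x = 0 := by
      simp [perP, h, perE, Fin.sum_univ_eight]
    rw [per_pC, hP, h]
    simp

theorem inT_iff {N : ℕ} (hN : 0 < N) {s : HV ℂ} (h : ∀ x, InNS N s x ↔ x.2 = 0) (x : HV ℚ) :
    InT N s x ↔ x.1 = 0 := by
  constructor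
  · intro hx
    have h1 := hx ((1, 0), 0) ((h _).2 rfl)
    have h2 := hx ((0, 1), 0) ((h _).2 rfl)
    simp [pH, pR, hU, odd_e8_zero] at h1 h2
    exact Prod.ext h2 h1
  · intro hx y hy
    have hy2 : y.2 = 0 := (h y).1 hy
    simp [pH, pR, hU, hx, hy2, odd_e8_zero]

theorem finrank_T {N : ℕ} (hN : 0 < N) {s : HV ℂ} (h : ∀ x, InNS N s x ↔ x.2 = 0) :
    Module.finrank ℚ (Tsub N s) = 21 := by
  have e : Tsub N s ≃ₗ[ℚ] RV ℚ :=
    { toFun := fun x => x.1.2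
      map_add' := fun _ _ => rfl
      map_smul' := fun _ _ => rfl
      invFun := fun y => ⟨(0, y), (inT_iff hN h _).2 rfl⟩
      left_inv := fun x => Subtype.ext (Prod.ext ((inT_iff hN h _).1 x.2).symm rfl)
      right_inv := fun _ => rfl }
  rw [e.finrank_eq]
  simp [Module.finrank_prod]

end Pool.Agent.H.MP_072fb1_ag.K3
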