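import Pool.Agent.H.MP_072fb1_ag.K3.Main
import Pool.Agent.H.MP_072fb1_ag.K3.AL
import Pool.Agent.H.MP_072fb1_ag.K3.Per
import Pool.Agent.H.MP_072fb1_ag.K3.Ex

/-!
# The parts of the result
-/

set_option autoImplicit false

namespace Pool.Agent.H.MP_072fb1_ag.K3

theorem span_inT (N : ℕ) (s : HV ℂ) : Submodule.span ℚ {x | InT N s x} = Tsub N s :=
  Submodule.span_eq (Tsub N s)

theorem final_odd {N : ℕ} (hN : 0 < N) {s : HV ℂ} (hnd : ∀ x, InNS N s x → InT N s x → x = 0)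
    (hodd : Odd (Module.finrank ℚ (Submodule.span ℚ {x | InT N s x}))) : OnlySignsL N s := by
  rw [span_inT] at hodd
  exact odd_signs hN hnd hodd

theorem final_datum {N : ℕ} (hN : 0 < N) :
    ∃ (V : Type) (_ : AddCommGroup V) (_ : Module ℚ V)
      (κ : LV ℚ →ₗ[ℚ] LV ℚ →ₗ[ℚ] Module.End ℚ V) (M : Submodule ℤ V), K3DatumL N κ M ∧
      ∀ (s s' : HV ℂ) (γ : HV ℚ ≃ₗ[ℚ] HV ℚ), HodgeIsometryL N s s' γ →
        (IntH ((2 : ℚ) • (γ (dst N) - dst N)) ∨ IntH ((2 : ℚ) • (γ (dst N) + dst N))) →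
        KIsomorphicL N κ M s s' := by
  obtain ⟨V, i1, i2, κ, M, hD, hl⟩ := example_datum hN
  refine ⟨V, i1, i2, κ, M, hD, fun s s' γ hγ h => ?_⟩
  obtain ⟨ψ, p1, p2, p3, p4⟩ := main_converse hN hγ h
  obtain ⟨g, g1, g2⟩ := hl ψ p1 p2 p4
  exact ⟨ψ, g, p1, p2, p3, g1, g2⟩

theorem final_period {N : ℕ} (hN : 0 < N) :
    ∃ s, IsPeriod N s ∧ (∀ x, InNS N s x ↔ x.2 = 0) ∧ OnlySignsL N s ∧ InT N s dl := by
  obtain ⟨s, hs, h⟩ := exists_period hN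
  refine ⟨s, hs, h, odd_signs hN ?_ ?_, ?_⟩
  · intro x hx hx'
    exact Prod.ext ((inT_iff hN h x).1 hx') ((h x).1 hx)
  · rw [finrank_T hN h]
    decide
  · exact (inT_iff hN h dl).2 rfl

theorem final_counter {q q' : ℕ} (hq : 2 < q) (hq' : 2 < q') (hc : q.Coprime q') {s : HV ℂ}
    (hs : IsPeriod (q * q') s) (hsig : OnlySignsL (q * q') s) (hdl : InT (q * q') s dl) :
    ∃ s', IsPeriod (q * q') s' ∧ (∃ γ, HodgeIsometryL (q * q') s s' γ) ∧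
      ∀ (V : Type) [AddCommGroup V] [Module ℚ V] (κ : LV ℚ →ₗ[ℚ] LV ℚ →ₗ[ℚ] Module.End ℚ V)
        (M : Submodule ℤ V), K3DatumL (q * q') κ M → ¬ KIsomorphicL (q * q') κ M s s' := by
  have hN : 0 < q * q' := by positivity
  obtain ⟨s', γ, hs', hγ, n1, n2⟩ := atkin_lehner hq hq' hc hs
  refine ⟨s', hs', ⟨γ, hγ⟩, fun V _ _ κ M hD hK => ?_⟩
  have ht : InT (q * q') s ((2 * ((1 : ℤ) : ℚ)) • dst (q * q')) := by
    have h2 : (2 * ((1 : ℤ) : ℚ)) • dst (q * q') = (1 / ((q * q' : ℕ) : ℚ)) • dl := by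
      have hN0 : ((q * q' : ℕ) : ℚ) ≠ 0 := by exact_mod_cast hN.ne'
      conv_rhs => rw [dl_dst hN]
      rw [smul_smul]
      congr 1
      field_simp
      push_cast
      ring
    rw [h2]
    intro y hy
    rw [pH_smul_left, hdl y hy, mul_zero]
  have h := main_general hN hsig hγ hD hK 1 ht (by rw [sub_self]; exact IntH.zero)
  have e : (2 * ((1 : ℤ) : ℚ)) = 2 := by norm_num
  rw [e] at h
  rcases h with h | h
  · exact n1 h
  · exact n2 h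

end Pool.Agent.H.MP_072fb1_ag.K3
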