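import Pool.Agent.H.MP_072fb1_ag.K3.Odd

/-!
# The glue of the Mukai quotient
-/

set_option autoImplicit false

namespace Pool.Agent.H.MP_072fb1_ag.K3

section

variable {N : ℕ}

/-- The restriction to `H²` of a map of `Λ`. -/
def gluH (r : LV ℚ ≃ₗ[ℚ] LV ℚ) (x : HV ℚ) : HV ℚ := (r (0, x)).2

theorem glue_zero {r : LV ℚ ≃ₗ[ℚ] LV ℚ} (h1 : ∀ x y, pL N (r x) (r y) = pL N x y)
    (h3 : r al = al) (h4 : r bt = bt) (x : HV ℚ) : r (0, x) = (0, gluH r x) := by
  have e1 := h1 (0, x) al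
  have e2 := h1 (0, x) bt
  rw [h3] at e1
  rw [h4] at e2
  have e3 : (r (0, x)).1 = 0 := by
    ext
    · simp [pL, hU, bt, pH, pR, e8] at e2
      exact e2
    · simp [pL, hU, al, pH, pR, e8] at e1
      exact e1
  exact Prod.ext e3 rfl

theorem glue_pH {r : LV ℚ ≃ₗ[ℚ] LV ℚ} (h1 : ∀ x y, pL N (r x) (r y) = pL N x y)
    (h3 : r al = al) (h4 : r bt = bt) (x y : HV ℚ) :
    pH N (gluH r x) (gluH r y) = pH N x y := by
  have e1 := h1 (0, x) (0, y)
  rw [glue_zero h1 h3 h4, glue_zero h1 h3 h4] at e1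
  simpa [pL, hU] using e1

theorem gluH_add (r : LV ℚ ≃ₗ[ℚ] LV ℚ) (x y : HV ℚ) : gluH r (x + y) = gluH r x + gluH r y := by
  unfold gluH
  rw [show ((0, x + y) : LV ℚ) = (0, x) + (0, y) from by ext <;> simp, map_add]
  rfl

theorem gluH_smul (r : LV ℚ ≃ₗ[ℚ] LV ℚ) (c : ℚ) (x : HV ℚ) : gluH r (c • x) = c • gluH r x := by
  unfold gluH
  rw [show ((0, c • x) : LV ℚ) = c • (0, x) from by ext <;> simp, map_smul]
  rfl

theorem gluH_soH {r : LV ℚ ≃ₗ[ℚ] LV ℚ} (h1 : ∀ x y, pL N (r x) (r y) = pL N x y)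
    (h3 : r al = al) (h4 : r bt = bt) (a b x : HV ℚ) :
    gluH r (soH N a b x) = soH N (gluH r a) (gluH r b) (gluH r x) := by
  unfold soH
  rw [glue_pH h1 h3 h4, glue_pH h1 h3 h4, sub_eq_add_neg, gluH_add, gluH_smul,
    ← neg_smul, gluH_smul, neg_smul, ← sub_eq_add_neg]

theorem glue_symm_iso {r : LV ℚ ≃ₗ[ℚ] LV ℚ} (h1 : ∀ x y, pL N (r x) (r y) = pL N x y)
    (x y : LV ℚ) : pL N (r.symm x) (r.symm y) = pL N x y := by
  rw [← h1, r.apply_symm_apply, r.apply_symm_apply]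

theorem gluH_symm {r : LV ℚ ≃ₗ[ℚ] LV ℚ} (h1 : ∀ x y, pL N (r x) (r y) = pL N x y)
    (h3 : r al = al) (h4 : r bt = bt) (x : HV ℚ) : gluH r.symm (gluH r x) = x := by
  have e := glue_zero h1 h3 h4 x
  have : r.symm (0, gluH r x) = (0, x) := by rw [← e, r.symm_apply_apply]
  unfold gluH at this ⊢
  rw [this]

end

section

variable {N : ℕ} {V : Type*} [AddCommGroup V] [Module ℚ V]
    {κ : LV ℚ →ₗ[ℚ] LV ℚ →ₗ[ℚ] Module.End ℚ V} {M : Submodule ℤ V} {j : ℤ}
    {π : V →ₗ[ℚ] HV ℚ × ℚ}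

theorem glue_deg {r : LV ℚ ≃ₗ[ℚ] LV ℚ} (h3 : r al = al) (h4 : r bt = bt)
    {g : V ≃ₗ[ℚ] V} (h6 : LiftsL κ r g) {i : ℤ} {x : V} (hx : InDegL κ i x) :
    InDegL κ i (g x) := by
  unfold InDegL at hx ⊢
  have e := h6 bt al x
  rw [h3, h4, hx, map_smul] at e
  exact e.symm

theorem glue_prods {r : LV ℚ ≃ₗ[ℚ] LV ℚ} (h1 : ∀ x y, pL N (r x) (r y) = pL N x y)
    (h3 : r al = al) (h4 : r bt = bt) {g : V ≃ₗ[ℚ] V} (h6 : LiftsL κ r g) {x : V}
    (hx : x ∈ ProdsL κ j) : g x ∈ ProdsL κ j := by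
  have h : ProdsL κ j ≤ (ProdsL κ j).comap (g : V →ₗ[ℚ] V) := by
    unfold ProdsL
    rw [Submodule.span_le]
    rintro _ ⟨a, b, u, hu, rfl⟩
    rw [SetLike.mem_coe, Submodule.mem_comap]
    refine Submodule.subset_span ⟨gluH r a, gluH r b, g u, glue_deg h3 h4 h6 hu, ?_⟩
    rw [LinearEquiv.coe_coe, h6, h6, h4, glue_zero h1 h3 h4, glue_zero h1 h3 h4]
  exact h hx

theorem glue_above {r : LV ℚ ≃ₗ[ℚ] LV ℚ} (h3 : r al = al) (h4 : r bt = bt)
    {g : V ≃ₗ[ℚ] V} (h6 : LiftsL κ r g) {x : V} (hx : x ∈ AboveL κ j) : g x ∈ AboveL κ j := by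
  have h : AboveL κ j ≤ (AboveL κ j).comap (g : V →ₗ[ℚ] V) := by
    unfold AboveL
    rw [Submodule.span_le]
    rintro v ⟨i, hi, hv⟩
    rw [SetLike.mem_coe, Submodule.mem_comap]
    exact Submodule.subset_span ⟨i, hi, glue_deg h3 h4 h6 hv⟩
  exact h hx

theorem glue_lifts_symm {r : LV ℚ ≃ₗ[ℚ] LV ℚ} {g : V ≃ₗ[ℚ] V} (h6 : LiftsL κ r g) :
    LiftsL κ r.symm g.symm := by
  intro x y v
  rw [LinearEquiv.symm_apply_eq, h6, r.apply_symm_apply, r.apply_symm_apply, g.apply_symm_apply]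

theorem glue_pres_symm {g : V ≃ₗ[ℚ] V} (h5 : Preserves M g) : Preserves M g.symm := by
  intro v
  rw [← h5 (g.symm v), g.apply_symm_apply]

theorem glue_deg_add {i : ℤ} {x y : V} (hx : InDegL κ i x) (hy : InDegL κ i y) :
    InDegL κ i (x + y) := by
  unfold InDegL at hx hy ⊢
  rw [map_add, hx, hy, smul_add]

theorem glue_deg_smul {i : ℤ} {x : V} (c : ℚ) (hx : InDegL κ i x) : InDegL κ i (c • x) := by
  unfold InDegL at hx ⊢
  rw [map_smul, hx, smul_comm]

theorem glue_deg_sub {i : ℤ} {x y : V} (hx : InDegL κ i x) (hy : InDegL κ i y) :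
    InDegL κ i (x - y) := by
  unfold InDegL at hx hy ⊢
  rw [map_sub, hx, hy, smul_sub]

theorem glue_so_bt (a : HV ℚ) : so N bt al (0, a) = 0 := by
  unfold so
  have e1 : pL N al (0, a) = 0 := by simp [pL, hU, al, pH, pR, e8]
  have e2 : pL N bt (0, a) = 0 := by simp [pL, hU, bt, pH, pR, e8]
  rw [e1, e2, zero_smul, zero_smul, sub_zero]

theorem glue_deg_kap (hbr : ∀ x y z w v, κ x y (κ z w v) - κ z w (κ x y v) =
      κ (so N x y z) w v + κ z (so N x y w) v) {i : ℤ} {x : V} (a b : HV ℚ)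
    (hx : InDegL κ i x) : InDegL κ i (κ (0, a) (0, b) x) := by
  have e := hbr bt al (0, a) (0, b) x
  rw [glue_so_bt, glue_so_bt, map_zero, LinearMap.zero_apply, LinearMap.zero_apply, map_zero,
    LinearMap.zero_apply, add_zero, sub_eq_zero] at e
  unfold InDegL at hx ⊢
  rw [e, hx, map_smul]

theorem glue_q_sub {z z' : HV ℚ × ℚ} (h : InQL κ M j π z) (h' : InQL κ M j π z') :
    InQL κ M j π (z - z') := by
  obtain ⟨m, hm, x, hx, hmx, hπ⟩ := h
  obtain ⟨m', hm', x', hx', hmx', hπ'⟩ := h'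
  refine ⟨m - m', M.sub_mem hm hm', x - x', glue_deg_sub hx hx', ?_, ?_⟩
  · have e : m - m' - (x - x') = (m - x) - (m' - x') := by abel
    rw [e]
    exact Submodule.sub_mem _ hmx hmx'
  · rw [map_sub, hπ, hπ']

theorem glue_q_neg {z : HV ℚ × ℚ} (h : InQL κ M j π z) : InQL κ M j π (-z) := by
  obtain ⟨m, hm, x, hx, hmx, hπ⟩ := h
  refine ⟨-m, M.neg_mem hm, -x, ?_, ?_, ?_⟩
  · have := glue_deg_smul (-1) hx
    rwa [neg_one_smul] at this
  · have e : -m - -x = -(m - x) := by abel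
    rw [e]
    exact Submodule.neg_mem _ hmx
  · rw [map_neg, hπ]

/-- The map induced on `H² ⊕ ℚv`. -/
theorem glue_exists (hbr : ∀ x y z w v, κ x y (κ z w v) - κ z w (κ x y v) =
      κ (so N x y z) w v + κ z (so N x y w) v) (hQ : MukaiQuotientL N κ M j π)
    {r : LV ℚ ≃ₗ[ℚ] LV ℚ} (h1 : ∀ x y, pL N (r x) (r y) = pL N x y)
    (h3 : r al = al) (h4 : r bt = bt) {g : V ≃ₗ[ℚ] V} (h5 : Preserves M g)
    (h6 : LiftsL κ r g) :
    ∃ G : HV ℚ × ℚ →ₗ[ℚ] HV ℚ × ℚ, (∀ x, InDegL κ j x → π (g x) = G (π x)) ∧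
      (∀ z, InQL κ M j π z → InQL κ M j π (G z)) ∧
      ∀ a b z, G (soH N a b z.1, 0) = (soH N (gluH r a) (gluH r b) (G z).1, 0) := by
  choose s hs hs' using hQ.surj
  have key : ∀ x z, InDegL κ j x → π x = z → π (g x) = π (g (s z)) := by
    intro x z hx hz
    have e1 : InDegL κ j (x - s z) := glue_deg_sub hx (hs z)
    have e2 : π (x - s z) = 0 := by rw [map_sub, hs', hz, sub_self]
    have e3 := glue_prods h1 h3 h4 h6 ((hQ.ker_iff _ e1).1 e2)
    have e4 := (hQ.ker_iff _ (glue_deg h3 h4 h6 e1)).2 e3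
    rw [map_sub, map_sub, sub_eq_zero] at e4
    exact e4
  let G : HV ℚ × ℚ →ₗ[ℚ] HV ℚ × ℚ :=
    { toFun := fun z => π (g (s z))
      map_add' := fun z z' => by
        rw [← key (s z + s z') (z + z') (glue_deg_add (hs z) (hs z'))
          (by rw [map_add, hs', hs']), map_add, map_add]
      map_smul' := fun c z => by
        rw [← key (c • s z) (c • z) (glue_deg_smul c (hs z)) (by rw [map_smul, hs']),
          map_smul, map_smul]
        rfl }
  refine ⟨G, fun x hx => key x _ hx rfl, ?_, ?_⟩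
  · rintro z ⟨m, hm, x, hx, hmx, hπ⟩
    refine ⟨g m, (h5 m).2 hm, g x, glue_deg h3 h4 h6 hx, ?_, key x z hx hπ⟩
    rw [← map_sub]
    exact glue_above h3 h4 h6 hmx
  · intro a b z
    have e1 : π (κ (0, a) (0, b) (s z)) = (soH N a b z.1, 0) := by
      rw [hQ.equiv a b _ (hs z), hs']
    have e2 := key _ _ (glue_deg_kap hbr a b (hs z)) e1
    have e3 : G (soH N a b z.1, 0) = π (g (κ (0, a) (0, b) (s z))) := e2.symm
    rw [e3, h6, glue_zero h1 h3 h4, glue_zero h1 h3 h4,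
      hQ.equiv _ _ _ (glue_deg h3 h4 h6 (hs z))]
    rfl

/-- A linear map of `H²` which commutes with `so(H²)` is a scalar. -/
theorem glue_scalar (hN : 0 < N) {F : HV ℚ →ₗ[ℚ] HV ℚ}
    (hF : ∀ a b x, F (soH N a b x) = soH N a b (F x)) : ∃ c : ℚ, ∀ x, F x = c • x := by
  set b1 : HV ℚ := ((1, 1), 0) with hb1
  set b2 : HV ℚ := (0, ((1, 1), 0)) with hb2
  have hN0 : (N : ℚ) ≠ 0 := by exact_mod_cast hN.ne'
  have e11 : pH N b1 b1 = 2 := by
    simp [hb1, pH, pR, hU, e8]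
    norm_num
  have e22 : pH N b2 b2 = 2 := by
    simp [hb2, pH, pR, hU, e8]
    norm_num
  have e1d : pH N b1 dl = 0 := by simp [hb1, dl, pH, pR, hU, e8]
  have e2d : pH N b2 dl = 0 := by simp [hb2, dl, pH, pR, hU, e8]
  have edd : pH N dl dl = -(2 * N) := by simp [dl, pH, pR, hU, e8]
  have k1 : (2 : ℚ) • F dl = pH N b1 (F b1) • dl - pH N dl (F b1) • b1 := by
    have h := hF dl b1 b1
    have e : soH N dl b1 b1 = (2 : ℚ) • dl := by
      unfold soH
      rw [e11, pH_comm, e1d, zero_smul, sub_zero]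
    rw [e, map_smul] at h
    rw [h]
    rfl
  have k2 : (2 : ℚ) • F dl = pH N b2 (F b2) • dl - pH N dl (F b2) • b2 := by
    have h := hF dl b2 b2
    have e : soH N dl b2 b2 = (2 : ℚ) • dl := by
      unfold soH
      rw [e22, pH_comm, e2d, zero_smul, sub_zero]
    rw [e, map_smul] at h
    rw [h]
    rfl
  have m1 : pH N dl (F b1) = 0 := by
    have h := k1.symm.trans k2
    have h' := congrArg (fun v : HV ℚ => v.1.1) h
    simp [hb1, hb2, dl] at h'
    exact h'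
  set c : ℚ := pH N b1 (F b1) / 2 with hc
  have kd : F dl = c • dl := by
    rw [m1, zero_smul, sub_zero] at k1
    have : F dl = (1 / 2 : ℚ) • ((2 : ℚ) • F dl) := by rw [smul_smul]; norm_num
    rw [this, k1, smul_smul]
    congr 1
    rw [hc]
    ring
  have ka : ∀ a, pH N a dl = 0 → F a = c • a := by
    intro a ha
    have h := hF a dl dl
    have e : soH N a dl dl = (-(2 * N) : ℚ) • a := by
      unfold soH
      rw [edd, ha, zero_smul, sub_zero]
    have e' : soH N a dl (F dl) = (-(2 * N) * c : ℚ) • a := by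
      unfold soH
      rw [kd, pH_smul_right, pH_smul_right, edd, ha, mul_zero, zero_smul, sub_zero]
      congr 1
      ring
    rw [e, e', map_smul] at h
    have h2 : (-(2 * N) : ℚ) ≠ 0 := by
      simpa using hN0
    have h3 : F a = (-(2 * N) : ℚ)⁻¹ • ((-(2 * N) : ℚ) • F a) := by
      rw [smul_smul, inv_mul_cancel₀ h2, one_smul]
    rw [h3, h, smul_smul]
    congr 1
    field_simp
  refine ⟨c, fun x => ?_⟩
  set k : ℚ := pH N x dl / (-(2 * N)) with hk
  have e : x = (x - k • dl) + k • dl := by abel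
  have e0 : pH N (x - k • dl) dl = 0 := by
    rw [pH_sub_left, pH_smul_left, edd, hk]
    field_simp
    ring
  rw [e, map_add, ka _ e0, map_smul, kd, smul_add, smul_comm]

theorem glue_ann (hN : 0 < N) {w : HV ℚ} (h : ∀ a b, soH N a b w = 0) : w = 0 := by
  set b1 : HV ℚ := ((1, 1), 0) with hb1
  set b2 : HV ℚ := (0, ((1, 1), 0)) with hb2
  refine pH_nondeg hN fun y => ?_
  rw [pH_comm]
  by_contra hy
  have e1 := h b1 y
  have e2 := h b2 y
  unfold soH at e1 e2
  have h1 : b1 = (pH N b1 w / pH N y w) • y := by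
    rw [sub_eq_zero] at e1
    rw [div_eq_inv_mul, mul_smul, ← e1, smul_smul, inv_mul_cancel₀ hy, one_smul]
  have h2 : b2 = (pH N b2 w / pH N y w) • y := by
    rw [sub_eq_zero] at e2
    rw [div_eq_inv_mul, mul_smul, ← e2, smul_smul, inv_mul_cancel₀ hy, one_smul]
  have a1 := congrArg (fun v : HV ℚ => v.1.1) h1
  have a2 := congrArg (fun v : HV ℚ => v.2.1.1) h2
  have a3 := congrArg (fun v : HV ℚ => v.1.1) h2
  simp [hb1] at a1
  simp [hb2] at a2 a3
  rcases a3 with a3 | a3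
  · rcases a3 with a3 | a3
    · rw [a3] at a2
      simp at a2
    · exact hy a3
  · rw [a3] at a1
    simp at a1

/-- The shape of the induced map. -/
theorem glue_shape (hN : 0 < N) {r : LV ℚ ≃ₗ[ℚ] LV ℚ}
    (h1 : ∀ x y, pL N (r x) (r y) = pL N x y) (h3 : r al = al) (h4 : r bt = bt)
    (h3' : r.symm al = al) (h4' : r.symm bt = bt)
    {G : HV ℚ × ℚ →ₗ[ℚ] HV ℚ × ℚ}
    (hG : ∀ a b z, G (soH N a b z.1, 0) = (soH N (gluH r a) (gluH r b) (G z).1, 0)) :
    ∃ c d : ℚ, ∀ x y, G (x, y) = (c • gluH r x, d * y) := by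
  have hsymm := glue_symm_iso (N := N) h1
  have hrs : ∀ x, gluH r (gluH r.symm x) = x := fun x => by
    have := gluH_symm (N := N) (r := r.symm) hsymm h3' h4' x
    rwa [LinearEquiv.symm_symm] at this
  have hsr : ∀ x, gluH r.symm (gluH r x) = x := gluH_symm h1 h3 h4
  -- the second component vanishes on `H²`
  set b1 : HV ℚ := ((1, 1), 0) with hb1
  set b2 : HV ℚ := (0, ((1, 1), 0)) with hb2
  have e11 : pH N b1 b1 = 2 := by
    simp [hb1, pH, pR, hU, e8]
    norm_num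
  have e22 : pH N b2 b2 = 2 := by
    simp [hb2, pH, pR, hU, e8]
    norm_num
  have e12 : pH N b1 b2 = 0 := by
    simp [hb1, hb2, pH, pR, hU, e8]
  have hgen : ∀ a b, pH N a b = 0 → pH N b b = 2 → (G (a, 0)).2 = 0 := by
    intro a b hab hbb
    have h := hG a b (b, 0)
    have e : soH N a b b = (2 : ℚ) • a := by
      unfold soH
      rw [hbb, hab, zero_smul, sub_zero]
    simp only [e] at h
    have e' : (((2 : ℚ) • a, 0) : HV ℚ × ℚ) = (2 : ℚ) • (a, 0) := by
      ext <;> simp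
    rw [e', map_smul] at h
    have := congrArg Prod.snd h
    simpa using this
  have hsnd : ∀ x, (G (x, 0)).2 = 0 := by
    intro x
    set k : ℚ := pH N x b1 / 2 with hk
    have e : ((x, 0) : HV ℚ × ℚ) = (x - k • b1, 0) + k • (b1, 0) := by
      ext <;> simp
    have e0 : pH N (x - k • b1) b1 = 0 := by
      rw [pH_sub_left, pH_smul_left, e11, hk]
      ring
    rw [e, map_add, map_smul, Prod.snd_add, hgen _ _ e0 e11, Prod.smul_snd,
      hgen _ _ e12 e22, smul_zero, add_zero]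
  -- the first component on `H²`
  let F : HV ℚ →ₗ[ℚ] HV ℚ :=
    { toFun := fun x => gluH r.symm (G (x, 0)).1
      map_add' := fun x y => by
        rw [show ((x + y, 0) : HV ℚ × ℚ) = (x, 0) + (y, 0) from by ext <;> simp, map_add,
          Prod.fst_add, gluH_add]
      map_smul' := fun c x => by
        rw [show ((c • x, 0) : HV ℚ × ℚ) = c • (x, 0) from by ext <;> simp, map_smul,
          Prod.smul_fst, gluH_smul]
        rfl }
  obtain ⟨c, hc⟩ := glue_scalar hN (F := F) (by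
    intro a b x
    change gluH r.symm (G (soH N a b x, 0)).1 = soH N a b (gluH r.symm (G (x, 0)).1)
    have h := hG a b (x, 0)
    simp only at h
    rw [h]
    simp only
    rw [gluH_soH hsymm h3' h4', hsr, hsr])
  have hc' : ∀ x, G (x, 0) = (c • gluH r x, 0) := by
    intro x
    have e1 : gluH r.symm (G (x, 0)).1 = c • x := hc x
    refine Prod.ext ?_ (hsnd x)
    simp only
    rw [← hrs (G (x, 0)).1, e1, gluH_smul]
  -- the second summand
  have hw : (G (0, 1)).1 = 0 := by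
    refine glue_ann hN fun a b => ?_
    have h := hG (gluH r.symm a) (gluH r.symm b) (0, 1)
    have e : soH N (gluH r.symm a) (gluH r.symm b) (0 : HV ℚ) = 0 := by
      unfold soH
      rw [show (0 : HV ℚ) = (0 : ℚ) • (0 : HV ℚ) from (zero_smul _ _).symm, pH_smul_right,
        pH_smul_right, zero_mul, zero_mul, zero_smul, zero_smul, sub_zero, zero_smul]
    simp only [e] at h
    rw [hrs, hrs, show ((0, 0) : HV ℚ × ℚ) = 0 from rfl, map_zero] at h
    exact (congrArg Prod.fst h).symm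
  refine ⟨c, (G (0, 1)).2, fun x y => ?_⟩
  have e : ((x, y) : HV ℚ × ℚ) = (x, 0) + y • (0, 1) := by ext <;> simp
  rw [e, map_add, map_smul, hc']
  refine Prod.ext ?_ ?_
  · simp [hw]
  · simp [mul_comm]

theorem glue_unit {c : ℚ} (h : IsZ c) (h' : IsZ c⁻¹) (h0 : c ≠ 0) : c = 1 ∨ c = -1 := by
  obtain ⟨a, rfl⟩ := h
  obtain ⟨b, hb⟩ := h'
  have h1 : (a : ℚ) * b = 1 := by rw [← hb, mul_inv_cancel₀ h0]
  have h2 : a * b = 1 := by exact_mod_cast h1
  rcases Int.isUnit_iff.1 (IsUnit.of_mul_eq_one b h2) with h | h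
  · left
    exact_mod_cast h
  · right
    exact_mod_cast h

theorem glue_step (hN : 0 < N) (hbr : ∀ x y z w v, κ x y (κ z w v) - κ z w (κ x y v) =
      κ (so N x y z) w v + κ z (so N x y w) v) (hQ : MukaiQuotientL N κ M j π)
    (r : LV ℚ ≃ₗ[ℚ] LV ℚ) (h1 : ∀ x y, pL N (r x) (r y) = pL N x y)
    (h2 : ∀ x, IntL (r x) ↔ IntL x) (h3 : r al = al) (h4 : r bt = bt)
    (g : V ≃ₗ[ℚ] V) (h5 : Preserves M g) (h6 : LiftsL κ r g) :
    IntH ((r (0, dst N)).2 - dst N) ∨ IntH ((r (0, dst N)).2 + dst N) := by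
  have h3' : r.symm al = al := by rw [LinearEquiv.symm_apply_eq, h3]
  have h4' : r.symm bt = bt := by rw [LinearEquiv.symm_apply_eq, h4]
  have h1' := glue_symm_iso (N := N) h1
  obtain ⟨G, hG1, hG2, hG3⟩ := glue_exists hbr hQ h1 h3 h4 h5 h6
  obtain ⟨G', hG1', hG2', hG3'⟩ := glue_exists hbr hQ h1' h3' h4' (glue_pres_symm h5)
    (glue_lifts_symm h6)
  have hinv : ∀ z, G' (G z) = z := by
    intro z
    obtain ⟨x, hx, rfl⟩ := hQ.surj z
    rw [← hG1 x hx, ← hG1' _ (glue_deg h3 h4 h6 hx), g.symm_apply_apply]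
  obtain ⟨c, d, hcd⟩ := glue_shape hN h1 h3 h4 h3' h4' hG3
  obtain ⟨c', d', hcd'⟩ := glue_shape hN (r := r.symm) h1' h3' h4'
    (by rw [LinearEquiv.symm_symm, h3]) (by rw [LinearEquiv.symm_symm, h4]) hG3'
  have hIH : ∀ x, IntH x → IntH (gluH r x) := by
    intro x hx
    have := (h2 (0, x)).2 ⟨⟨IsZ.zero, IsZ.zero⟩, hx⟩
    exact this.2
  have hIH' : ∀ x, IntH x → IntH (gluH r.symm x) := by
    intro x hx
    have h := (h2 (r.symm (0, x))).1 (by
      rw [r.apply_symm_apply]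
      exact ⟨⟨IsZ.zero, IsZ.zero⟩, hx⟩)
    exact h.2
  have hsr : ∀ x, gluH r.symm (gluH r x) = x := gluH_symm h1 h3 h4
  have hcc : c' * c = 1 := by
    have h := hinv (((1, 0), 0), 0)
    rw [hcd, hcd', gluH_smul, hsr, smul_smul] at h
    have h' := congrArg (fun z : HV ℚ × ℚ => z.1.1.1) h
    simpa using h'
  have hdd : d' * d = 1 := by
    have h := hinv (0, 1)
    rw [hcd, hcd'] at h
    have h' := congrArg Prod.snd h
    simpa using h'
  have hc0 : c ≠ 0 := by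
    rintro rfl
    rw [mul_zero] at hcc
    exact zero_ne_one hcc
  have hd0 : d ≠ 0 := by
    rintro rfl
    rw [mul_zero] at hdd
    exact zero_ne_one hdd
  have hci : c' = c⁻¹ := eq_inv_of_mul_eq_one_left hcc
  have hdi : d' = d⁻¹ := eq_inv_of_mul_eq_one_left hdd
  have he1 : IntH ((1, 0), 0) := ⟨⟨IsZ.one, IsZ.zero⟩, IntR.zero⟩
  have hrs : ∀ x, gluH r (gluH r.symm x) = x := fun x => by
    have := gluH_symm (N := N) (r := r.symm) h1' h3' h4' x
    rwa [LinearEquiv.symm_symm] at this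
  have hcZ : IsZ c := by
    have h := hG2 _ ((hQ.int_left (gluH r.symm ((1, 0), 0))).2 (hIH' _ he1))
    rw [hcd, mul_zero, hrs] at h
    have h' := (hQ.int_left _).1 h
    have h'' := h'.1.1
    simpa using h''
  have hcZ' : IsZ c⁻¹ := by
    have h := hG2' _ ((hQ.int_left (gluH r ((1, 0), 0))).2 (hIH _ he1))
    rw [hcd', mul_zero, hsr] at h
    have h' := (hQ.int_left _).1 h
    have h'' := h'.1.1
    rw [← hci]
    simpa using h''
  have hz0 : gluH r (0 : HV ℚ) = 0 := by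
    have := gluH_smul r 0 (0 : HV ℚ)
    rwa [zero_smul, zero_smul] at this
  have hz0' : gluH r.symm (0 : HV ℚ) = 0 := by
    have := gluH_smul r.symm 0 (0 : HV ℚ)
    rwa [zero_smul, zero_smul] at this
  have hdZ : IsZ d := by
    have h := hG2 _ ((hQ.int_right 1).2 IsZ.one)
    rw [hcd, hz0, smul_zero, mul_one] at h
    exact (hQ.int_right _).1 h
  have hdZ' : IsZ d⁻¹ := by
    have h := hG2' _ ((hQ.int_right 1).2 IsZ.one)
    rw [hcd', hz0', smul_zero, mul_one, hdi] at h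
    exact (hQ.int_right _).1 h
  obtain ⟨u, hu⟩ := hQ.glue
  have hGu := hG2 _ hu
  rw [hcd] at hGu
  have hfin : IntH (c • gluH r (dst N) - d • dst N) := by
    rcases glue_unit hdZ hdZ' hd0 with rfl | rfl
    · have h := glue_q_sub hGu hu
      rw [Prod.mk_sub_mk, one_mul, sub_self] at h
      rw [one_smul]
      exact (hQ.int_left _).1 h
    · have h := glue_q_sub hGu (glue_q_neg hu)
      rw [Prod.neg_mk, Prod.mk_sub_mk, neg_one_mul, sub_self] at h
      rw [neg_one_smul]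
      exact (hQ.int_left _).1 h
  change IntH (gluH r (dst N) - dst N) ∨ IntH (gluH r (dst N) + dst N)
  rcases glue_unit hcZ hcZ' hc0 with rfl | rfl <;>
    rcases glue_unit hdZ hdZ' hd0 with rfl | rfl
  · left
    simpa using hfin
  · right
    simpa using hfin
  · right
    have := hfin.neg
    rw [neg_one_smul, one_smul] at this
    have e : gluH r (dst N) + dst N = -(-gluH r (dst N) - dst N) := by abel
    rw [e]
    exact this
  · left
    have := hfin.neg
    rw [neg_one_smul, neg_one_smul] at this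
    have e : gluH r (dst N) - dst N = -(-gluH r (dst N) - -dst N) := by abel
    rw [e]
    exact this

end

end Pool.Agent.H.MP_072fb1_ag.K3
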