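import Pool.Agent.H.MP_072fb1_ag.K3.Defs

/-!
# The definitions of `Defs`, with bundled linear maps
-/

set_option autoImplicit false

namespace Pool.Agent.H.MP_072fb1_ag.K3

/-- Every Hodge isometry of the rational transcendental space is `±1`. -/
def OnlySignsL (N : ℕ) (s : HV ℂ) : Prop :=
  ∀ φ : HV ℚ →ₗ[ℚ] HV ℚ, (∀ t, InT N s t → InT N s (φ t)) →
    (∀ t u, InT N s t → InT N s u → pH N (φ t) (φ u) = pH N t u) →
    (∃ c : ℂ, c ≠ 0 ∧ ∀ t, InT N s t → pC N (φ t) s = c * pC N t s) →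
    (∀ t, InT N s t → φ t = t) ∨ (∀ t, InT N s t → φ t = -t)

/-- `γ` is a Hodge isometry `H²(X, ℤ) → H²(Y, ℤ)`, `X`, `Y` with periods `s`, `s'`. -/
def HodgeIsometryL (N : ℕ) (s s' : HV ℂ) (γ : HV ℚ ≃ₗ[ℚ] HV ℚ) : Prop :=
  (∀ x y, pH N (γ x) (γ y) = pH N x y) ∧ (∀ x, IntH (γ x) ↔ IntH x) ∧
    ∃ c : ℂ, c ≠ 0 ∧ ∀ x, pC N (γ x) s' = c * pC N x s

section Data

variable {V : Type*} [AddCommGroup V] [Module ℚ V]

/-- `g` is compatible with the LLV action and the map `ψ` of `Λ`. -/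
def LiftsL (κ : LV ℚ →ₗ[ℚ] LV ℚ →ₗ[ℚ] Module.End ℚ V) (ψ : LV ℚ → LV ℚ) (g : V ≃ₗ[ℚ] V) : Prop :=
  ∀ x y v, g (κ x y v) = κ (ψ x) (ψ y) (g v)

/-- The degree `j` part: the eigenspace of `κ β α`; cohomological degree `2n + 2j`. -/
def InDegL (κ : LV ℚ →ₗ[ℚ] LV ℚ →ₗ[ℚ] Module.End ℚ V) (j : ℤ) (v : V) : Prop :=
  κ bt al v = (j : ℚ) • v

/-- The span of all products of two classes of `H²` with classes of degree `j - 2`. -/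
def ProdsL (κ : LV ℚ →ₗ[ℚ] LV ℚ →ₗ[ℚ] Module.End ℚ V) (j : ℤ) : Submodule ℚ V :=
  Submodule.span ℚ {v | ∃ (a b : HV ℚ) (u : V), InDegL κ (j - 2) u ∧ v = κ bt (0, a) (κ bt (0, b) u)}

/-- The sum of the parts of degree `> j`. -/
def AboveL (κ : LV ℚ →ₗ[ℚ] LV ℚ →ₗ[ℚ] Module.End ℚ V) (j : ℤ) : Submodule ℚ V :=
  Submodule.span ℚ {v | ∃ i : ℤ, j < i ∧ InDegL κ i v}

/-- `z` is the class of an element of `M` whose first nonzero component is `x`, of degree `j`. -/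
def InQL (κ : LV ℚ →ₗ[ℚ] LV ℚ →ₗ[ℚ] Module.End ℚ V) (M : Submodule ℤ V) (j : ℤ)
    (π : V →ₗ[ℚ] HV ℚ × ℚ) (z : HV ℚ × ℚ) : Prop :=
  ∃ m ∈ M, ∃ x, InDegL κ j x ∧ m - x ∈ AboveL κ j ∧ π x = z

/-- In degree `j` (for `H⁴`: `j = 2 - n`) the lattice of leading terms of `M` modulo products is
the Mukai lattice containing `H² ⊕ ℤv`. -/
structure MukaiQuotientL (N : ℕ) (κ : LV ℚ →ₗ[ℚ] LV ℚ →ₗ[ℚ] Module.End ℚ V) (M : Submodule ℤ V)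
    (j : ℤ) (π : V →ₗ[ℚ] HV ℚ × ℚ) : Prop where
  ker_iff : ∀ x, InDegL κ j x → (π x = 0 ↔ x ∈ ProdsL κ j)
  surj : ∀ z, ∃ x, InDegL κ j x ∧ π x = z
  equiv : ∀ a b x, InDegL κ j x → π (κ (0, a) (0, b) x) = (soH N a b (π x).1, 0)
  int_left : ∀ x : HV ℚ, InQL κ M j π (x, 0) ↔ IntH x
  int_right : ∀ y : ℚ, InQL κ M j π (0, y) ↔ IsZ y
  glue : ∃ c : ℚ, InQL κ M j π (dst N, c)

/-- The data given by the topological K-theory of a manifold of K3^[n]-type, `n = N + 1 ≥ 4`. -/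
structure K3DatumL (N : ℕ) (κ : LV ℚ →ₗ[ℚ] LV ℚ →ₗ[ℚ] Module.End ℚ V) (M : Submodule ℤ V) :
    Prop where
  alt : ∀ x, κ x x = 0
  bracket : ∀ x y z w v, κ x y (κ z w v) - κ z w (κ x y v) =
    κ (so N x y z) w v + κ z (so N x y w) v
  fg : M.FG
  span_eq : Submodule.span ℚ (M : Set V) = ⊤
  transvection : ∀ e a, IntL e → IntL a → pL N e e = 0 → pL N e a = 0 →
    ∃ g : V ≃ₗ[ℚ] V, Preserves M g ∧ LiftsL κ (eich N e a) g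
  quot : ∃ (j : ℤ) (π : V →ₗ[ℚ] HV ℚ × ℚ), MukaiQuotientL N κ M j π

/-- What a derived equivalence between manifolds with periods `s`, `s'` induces: an isomorphism of the
lattice `M = exp(δ/2) v(K_top)`, compatible with an isometry `ψ` of `Λ` which matches the Hodge lines
`ℂ(s + (δ, s)/2 β)`. -/
def KIsomorphicL (N : ℕ) (κ : LV ℚ →ₗ[ℚ] LV ℚ →ₗ[ℚ] Module.End ℚ V) (M : Submodule ℤ V)
    (s s' : HV ℂ) : Prop :=
  ∃ (ψ : LV ℚ ≃ₗ[ℚ] LV ℚ) (g : V ≃ₗ[ℚ] V), (∀ x y, pL N (ψ x) (ψ y) = pL N x y) ∧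
    (∀ x, IntL (ψ x) ↔ IntL x) ∧ (∃ c : ℂ, c ≠ 0 ∧ ∀ x, pT N (ψ x) s' = c * pT N x s) ∧
    Preserves M g ∧ LiftsL κ ψ g

end Data

end Pool.Agent.H.MP_072fb1_ag.K3
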