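import Pool.Agent.H.MP_072fb1_ag.K3.Odd

/-!
# Transcendental parts with no Hodge isometries besides `±1`
-/

set_option autoImplicit false

namespace Pool.Agent.H.MP_072fb1_ag.K3

/-- In odd rank every rational Hodge isometry of the transcendental part is `±1`. -/
theorem odd_signs {N : ℕ} (hN : 0 < N) {s : HV ℂ}
    (hnd : ∀ x, InNS N s x → InT N s x → x = 0)
    (hodd : Odd (Module.finrank ℚ (Tsub N s))) : OnlySignsL N s := by
  intro φ0 hφT hiso0 ⟨c, _, hc⟩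
  let φ : Tsub N s →ₗ[ℚ] Tsub N s := φ0.restrict hφT
  have hφ : ∀ x : Tsub N s, (φ x).1 = φ0 x.1 := fun x => rfl
  have hiso : ∀ x y : Tsub N s, pH N (φ x).1 (φ y).1 = pH N x.1 y.1 := by
    intro x y
    rw [hφ, hφ]
    exact hiso0 _ _ x.2 y.2
  obtain ⟨ε, hε, y, hy, hyε⟩ := odd_eigen hN hnd hodd φ hiso
  have hyne : pC N y.1 s ≠ 0 := by
    intro h0
    exact hy (Subtype.ext (hnd y.1 h0 y.2))
  have hceq : c = ε := by
    have h1 := hc y.1 y.2
    have h2 : φ0 y.1 = ε • y.1 := by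
      rw [← hφ, hyε]
      rfl
    rw [h2, odd_pC_smul] at h1
    exact (mul_right_cancel₀ hyne h1).symm
  have hall : ∀ t, InT N s t → φ0 t = ε • t := by
    intro t ht
    have h1 : InNS N s (φ0 t - ε • t) := by
      show pC N (φ0 t - ε • t) s = 0
      rw [odd_pC_sub, hc t ht, hceq, odd_pC_smul, sub_self]
    have h4 : φ0 t - ε • t ∈ Tsub N s :=
      Submodule.sub_mem _ (hφT t ht) (Submodule.smul_mem _ _ ht)
    exact sub_eq_zero.1 (hnd _ h1 h4)
  have hε' : (ε - 1) * (ε + 1) = 0 := by linear_combination hε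
  rcases mul_eq_zero.1 hε' with h | h
  · left
    intro t ht
    rw [hall t ht, sub_eq_zero.1 h, one_smul]
  · right
    intro t ht
    rw [hall t ht, eq_neg_of_add_eq_zero_left h, neg_one_smul]

/-- `ψ` and `γ` agree up to a sign on the transcendental part. -/
theorem signs_step {N : ℕ} {s s' : HV ℂ} (hsig : OnlySignsL N s)
    (γ : HV ℚ ≃ₗ[ℚ] HV ℚ) (hγ : HodgeIsometryL N s s' γ)
    (ψ : LV ℚ ≃ₗ[ℚ] LV ℚ) (hψ : ∀ x y, pL N (ψ x) (ψ y) = pL N x y)
    (hc : ∃ c : ℂ, c ≠ 0 ∧ ∀ x, pC N (ψ x).2 s' = c * pC N x.2 s) :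
    (∀ t, InT N s t → ψ (0, t) = (0, γ t)) ∨ (∀ t, InT N s t → ψ (0, t) = (0, -γ t)) := by
  obtain ⟨c, hc0, hc⟩ := hc
  obtain ⟨hγ1, -, c', hc0', hγ2⟩ := hγ
  have hmix : ∀ t, InT N s t → ∀ y : LV ℚ, pC N y.2 s' = 0 → pL N (ψ (0, t)) y = 0 := by
    intro t ht y hy
    obtain ⟨x, rfl⟩ := ψ.surjective y
    rw [hψ]
    have hx : InNS N s x.2 := by
      have h1 := hc x
      rw [hy] at h1
      rcases mul_eq_zero.1 h1.symm with h2 | h2
      · exact absurd h2 hc0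
      · exact h2
    have h3 := ht _ hx
    simp only [pL, hU, Prod.fst_zero, Prod.snd_zero, zero_mul, add_zero, zero_add]
    exact h3
  have hpC0 : pC N 0 s' = 0 := by
    rw [← zero_smul ℚ (0 : HV ℚ), odd_pC_smul]
    simp
  have hpH0 : ∀ z : HV ℚ, pH N z 0 = 0 := by
    intro z
    rw [← zero_smul ℚ (0 : HV ℚ), pH_smul_right, zero_mul]
  have hfst : ∀ t, InT N s t → (ψ (0, t)).1 = 0 := by
    intro t ht
    have h1 := hmix t ht ((1, 0), 0) hpC0
    have h2 := hmix t ht ((0, 1), 0) hpC0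
    simp [pL, hU, hpH0] at h1 h2
    exact Prod.ext h2 h1
  have hsnd : ∀ t, InT N s t → ∀ y, InNS N s' y → pH N (ψ (0, t)).2 y = 0 := by
    intro t ht y hy
    have h1 := hmix t ht (0, y) hy
    simpa [pL, hU] using h1
  let φ0 : HV ℚ →ₗ[ℚ] HV ℚ := γ.symm.toLinearMap ∘ₗ LinearMap.snd ℚ (ℚ × ℚ) (HV ℚ) ∘ₗ
    ψ.toLinearMap ∘ₗ LinearMap.inr ℚ (ℚ × ℚ) (HV ℚ)
  have hφ0 : ∀ t, γ (φ0 t) = (ψ (0, t)).2 := fun t => LinearEquiv.apply_symm_apply γ _
  have hφT : ∀ t, InT N s t → InT N s (φ0 t) := by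
    intro t ht y hy
    rw [← hγ1, hφ0]
    refine hsnd t ht _ ?_
    show pC N (γ y) s' = 0
    have hy' : pC N y s = 0 := hy
    rw [hγ2, hy', mul_zero]
  have hiso : ∀ t u, InT N s t → InT N s u → pH N (φ0 t) (φ0 u) = pH N t u := by
    intro x y hx hy
    rw [← hγ1, hφ0, hφ0]
    have h1 := hψ (0, x) (0, y)
    have h2 : ∀ z w : LV ℚ, z.1 = 0 → pL N z w = pH N z.2 w.2 := by
      intro z w hz
      simp [pL, hU, hz]
    rw [h2 _ _ (hfst _ hx), h2 _ _ rfl] at h1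
    exact h1
  have hhodge : ∀ t, pC N (φ0 t) s = (c / c') * pC N t s := by
    intro t
    have h1 : c' * pC N (φ0 t) s = c * pC N t s := by
      rw [← hγ2, hφ0]
      exact hc (0, t)
    rw [div_mul_eq_mul_div, eq_div_iff hc0', ← h1, mul_comm]
  rcases hsig φ0 hφT hiso ⟨c / c', div_ne_zero hc0 hc0', fun t _ => hhodge t⟩ with h | h
  · left
    intro t ht
    refine Prod.ext (hfst t ht) ?_
    show (ψ (0, t)).2 = γ t
    rw [← hφ0, h t ht]
  · right
    intro t ht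
    refine Prod.ext (hfst t ht) ?_
    show (ψ (0, t)).2 = -γ t
    rw [← hφ0, h t ht, map_neg]

end Pool.Agent.H.MP_072fb1_ag.K3
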