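import Pool.Agent.H.MP_072fb1_ag.K3.Eichler
import Pool.Agent.H.MP_072fb1_ag.K3.Glue
import Pool.Agent.H.MP_072fb1_ag.K3.Dual
import Pool.Agent.H.MP_072fb1_ag.K3.Signs

/-!
# The theorem for K3^[n]-type
-/

set_option autoImplicit false

namespace Pool.Agent.H.MP_072fb1_ag.K3

theorem gp_lifts {N : ℕ} {V : Type*} [AddCommGroup V] [Module ℚ V]
    {κ : LV ℚ →ₗ[ℚ] LV ℚ →ₗ[ℚ] Module.End ℚ V} {M : Submodule ℤ V} (hD : K3DatumL N κ M)
    {θ : LV ℚ ≃ₗ[ℚ] LV ℚ} (hθ : θ ∈ Gp N) : ∃ g : V ≃ₗ[ℚ] V, Preserves M g ∧ LiftsL κ θ g := by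
  unfold Gp at hθ
  induction hθ using Subgroup.closure_induction with
  | mem θ h =>
    obtain ⟨e, a, he, ha, hee, hea, hx⟩ := h
    obtain ⟨g, hg, hl⟩ := hD.transvection e a he ha hee hea
    refine ⟨g, hg, fun x y v => ?_⟩
    rw [hx, hx]
    exact hl x y v
  | one => exact ⟨LinearEquiv.refl ℚ V, fun v => Iff.rfl, fun x y v => rfl⟩
  | mul θ θ' _ _ h h' =>
    obtain ⟨g, hg, hl⟩ := h
    obtain ⟨g', hg', hl'⟩ := h'
    refine ⟨g'.trans g, fun v => (hg (g' v)).trans (hg' v), fun x y v => ?_⟩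
    rw [LinearEquiv.trans_apply, hl', hl]
    rfl
  | inv θ _ h =>
    obtain ⟨g, hg, hl⟩ := h
    exact ⟨g.symm, glue_pres_symm hg, glue_lifts_symm hl⟩

theorem dst_dual {N : ℕ} (hN : 0 < N) {x : LV ℚ} (hx : IntL x) : IsZ (pL N x (0, dst N)) := by
  have hN0 : (N : ℚ) ≠ 0 := by exact_mod_cast hN.ne'
  have e : pL N x (0, dst N) = -x.2.2.2.2.2.2 := by
    simp [pL, hU, pH, pR, e8, dst, dl]
    field_simp
  rw [e]
  exact hx.2.2.2.2.2.2.neg

/-- Every isomorphism acts on the discriminant group by `±1`. -/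
theorem disc_sign {N : ℕ} (hN : 0 < N) {V : Type*} [AddCommGroup V] [Module ℚ V]
    {κ : LV ℚ →ₗ[ℚ] LV ℚ →ₗ[ℚ] Module.End ℚ V} {M : Submodule ℤ V} (hD : K3DatumL N κ M)
    (ψ : LV ℚ ≃ₗ[ℚ] LV ℚ) (h1 : ∀ x y, pL N (ψ x) (ψ y) = pL N x y)
    (h2 : ∀ x, IntL (ψ x) ↔ IntL x) (g : V ≃ₗ[ℚ] V) (h5 : Preserves M g) (h6 : LiftsL κ ψ g) :
    IntL (ψ (0, dst N) - (0, dst N)) ∨ IntL (ψ (0, dst N) + (0, dst N)) := by
  obtain ⟨θ, r, hθ, hψ, r1, r2, r3, r4⟩ := eichler ψ h1 h2
  obtain ⟨g0, hg0, hl0⟩ := gp_lifts hD hθ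
  obtain ⟨j, π, hQ⟩ := hD.quot
  have hg' : Preserves M (g.trans g0.symm) := fun v =>
    (glue_pres_symm hg0 (g v)).trans (h5 v)
  have hl' : LiftsL κ r (g.trans g0.symm) := by
    intro x y v
    have e := glue_lifts_symm hl0 (ψ x) (ψ y) (g v)
    rw [hψ, hψ, θ.symm_apply_apply, θ.symm_apply_apply] at e
    rw [LinearEquiv.trans_apply, h6, hψ, hψ]
    exact e
  have hr0 := glue_zero r1 r3 r4 (dst N)
  have hdual : ∀ x, IntL x → IsZ (pL N x (r (0, dst N))) := by
    intro x hx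
    have e : pL N x (r (0, dst N)) = pL N (r.symm x) (0, dst N) := by
      rw [← r1 (r.symm x), r.apply_symm_apply]
    rw [e]
    refine dst_dual hN ?_
    rw [← r2, r.apply_symm_apply]
    exact hx
  have h7 := gp_disc hθ hdual
  rw [← hψ] at h7
  rcases glue_step hN hD.bracket hQ r r1 r2 r3 r4 _ hg' hl' with h | h
  · left
    have e : ψ (0, dst N) - (0, dst N) = (ψ (0, dst N) - r (0, dst N)) +
        (0, (r (0, dst N)).2 - dst N) := by
      rw [hr0]
      unfold gluH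
      rw [show ((0, (r (0, dst N)).2 - dst N) : LV ℚ) = (0, (r (0, dst N)).2) - (0, dst N) from
        Prod.ext (by simp) rfl]
      abel
    rw [e]
    exact h7.add ⟨⟨IsZ.zero, IsZ.zero⟩, h⟩
  · right
    have e : ψ (0, dst N) + (0, dst N) = (ψ (0, dst N) - r (0, dst N)) +
        (0, (r (0, dst N)).2 + dst N) := by
      rw [hr0]
      unfold gluH
      rw [show ((0, (r (0, dst N)).2 + dst N) : LV ℚ) = (0, (r (0, dst N)).2) + (0, dst N) from
        Prod.ext (by simp) rfl]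
      abel
    rw [e]
    exact h7.add ⟨⟨IsZ.zero, IsZ.zero⟩, h⟩

/-- The necessary condition: if `t ∈ T(X)` and `t - 2kδ*` is integral, then `γ` is `±1` on the
multiples of `2kδ*` modulo `H²`. -/
theorem main_general {N : ℕ} (hN : 0 < N) {s s' : HV ℂ} (hsig : OnlySignsL N s)
    {γ : HV ℚ ≃ₗ[ℚ] HV ℚ} (hγ : HodgeIsometryL N s s' γ)
    {V : Type*} [AddCommGroup V] [Module ℚ V]
    {κ : LV ℚ →ₗ[ℚ] LV ℚ →ₗ[ℚ] Module.End ℚ V} {M : Submodule ℤ V} (hD : K3DatumL N κ M)
    (hK : KIsomorphicL N κ M s s') (k : ℤ) {t : HV ℚ} (ht : InT N s t)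
    (hkt : IntH (t - (2 * k : ℚ) • dst N)) :
    IntH ((2 * k : ℚ) • (γ (dst N) - dst N)) ∨ IntH ((2 * k : ℚ) • (γ (dst N) + dst N)) := by
  have hN0 : (N : ℚ) ≠ 0 := by exact_mod_cast hN.ne'
  obtain ⟨ψ, g, h1, h2, ⟨c, hc0, hc⟩, h5, h6⟩ := hK
  have hds := disc_sign hN hD ψ h1 h2 g h5 h6
  -- untwist
  have hψ' : ∀ x y, pL N ((tw N).symm (ψ (tw N x))) ((tw N).symm (ψ (tw N y))) = pL N x y := by
    intro x y
    rw [← tw_iso, LinearEquiv.apply_symm_apply, LinearEquiv.apply_symm_apply, h1, tw_iso]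
  have hc' : ∀ x, pC N ((tw N).symm (ψ (tw N x))).2 s' = c * pC N x.2 s := by
    intro x
    rw [← tw_pT, LinearEquiv.apply_symm_apply, hc, tw_pT]
  have hstep := signs_step hsig γ hγ ((tw N).trans (ψ.trans (tw N).symm)) hψ' ⟨c, hc0, hc'⟩
  have hbt : IntH (ψ bt).2 := ((h2 bt).2 ⟨⟨IsZ.zero, IsZ.one⟩, IntH.zero⟩).2
  have h2k : IsZ (2 * k : ℚ) := (IsZ.nat 2).mul (IsZ.int k)
  -- `(δ, t)` is even
  obtain ⟨b, hb⟩ : IsZ (pH N dl t / 2) := by
    have e : pH N dl t / 2 = -(N * (t - (2 * k : ℚ) • dst N).2.2.2.2.2) - k := by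
      rw [pH_dl]
      simp [dst, dl]
      field_simp
      ring
    rw [e]
    exact ((IsZ.nat N).mul hkt.2.2.2.2.2).neg.sub (IsZ.int k)
  have e1 : ∀ u : HV ℚ, ((tw N) (0, u)).2 = u := by
    intro u
    rw [tw_apply]
    unfold twF
    simp
  have e2 : (tw N) (0, t) = (b : ℚ) • bt + (0, t) := by
    rw [tw_apply]
    unfold twF
    refine Prod.ext (Prod.ext ?_ ?_) ?_
    · simp [bt]
    · simp [bt]
      exact hb
    · simp [bt]
  have e3 : ((0, t) : LV ℚ) = (0, t - (2 * k : ℚ) • dst N) + (2 * k : ℚ) • (0, dst N) :=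
    Prod.ext (by simp) (by simp)
  have hψt : IntH ((ψ (tw N (0, t))).2 - (2 * k : ℚ) • (ψ (0, dst N)).2) := by
    have e4 : (ψ (tw N (0, t))).2 - (2 * k : ℚ) • (ψ (0, dst N)).2 =
        (b : ℚ) • (ψ bt).2 + (ψ (0, t - (2 * k : ℚ) • dst N)).2 := by
      rw [e2, map_add, map_smul, Prod.snd_add, Prod.smul_snd]
      conv_lhs => rw [e3, map_add, map_smul, Prod.snd_add, Prod.smul_snd]
      abel
    rw [e4]
    exact (IntH.smul (IsZ.int b) hbt).add ((h2 _).2 ⟨⟨IsZ.zero, IsZ.zero⟩, hkt⟩).2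
  have hγt : IntH (γ t - (2 * k : ℚ) • γ (dst N)) := by
    rw [← map_smul, ← map_sub]
    exact (hγ.2.1 _).2 hkt
  have e5 : ∀ u : HV ℚ, (tw N).symm (ψ (tw N (0, t))) = (0, u) → (ψ (tw N (0, t))).2 = u := by
    intro u hu
    have := congrArg (tw N) hu
    rw [LinearEquiv.apply_symm_apply] at this
    rw [this, e1]
  have hsign : IntH ((2 * k : ℚ) • γ (dst N) - (2 * k : ℚ) • (ψ (0, dst N)).2) ∨
      IntH ((2 * k : ℚ) • γ (dst N) + (2 * k : ℚ) • (ψ (0, dst N)).2) := by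
    rcases hstep with h | h
    · left
      have h7 := e5 _ (h t ht)
      rw [h7] at hψt
      have := hψt.sub hγt
      convert this using 1
      abel
    · right
      have h7 := e5 _ (h t ht)
      rw [h7] at hψt
      have := (hψt.add hγt).neg
      convert this using 1
      abel
  have hds' : IntH ((2 * k : ℚ) • (ψ (0, dst N)).2 - (2 * k : ℚ) • dst N) ∨
      IntH ((2 * k : ℚ) • (ψ (0, dst N)).2 + (2 * k : ℚ) • dst N) := by
    rcases hds with h | h
    · left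
      rw [← smul_sub]
      exact IntH.smul h2k h.2
    · right
      rw [← smul_add]
      exact IntH.smul h2k h.2
  rw [smul_sub, smul_add]
  rcases hsign with h | h <;> rcases hds' with h' | h'
  · left
    have := h.add h'
    convert this using 1
    abel
  · right
    have := h.add h'
    convert this using 1
    abel
  · right
    have := h.sub h'
    convert this using 1
    abel
  · left
    have := h.sub h'
    convert this using 1
    abel

section Converse

variable {N : ℕ}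

theorem main_iso {e a : LV ℚ} (he : pL N e e = 0) (hea : pL N e a = 0) (x y : LV ℚ) :
    pL N (eich N e a x) (eich N e a y) = pL N x y := by
  unfold eich
  simp only [pL_add_left, pL_add_right, pL_sub_left, pL_sub_right, pL_smul_left, pL_smul_right]
  rw [he, hea, pL_comm N a e, hea, pL_comm N x e, pL_comm N x a]
  ring

theorem main_int {e a x : LV ℚ} (he : IntL e) (ha : IntL a) (hx : IntL x) :
    IntL (eich N e a x) := by
  unfold eich
  exact ((hx.sub (IntL.smul (pL_int ha hx) he)).add (IntL.smul (pL_int he hx) ha)).sub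
    (IntL.smul ((pL_even ha).mul (pL_int he hx)) he)

theorem main_inv {e a : LV ℚ} (he : pL N e e = 0) (hea : pL N e a = 0) (x : LV ℚ) :
    eich N e (-a) (eich N e a x) = x := by
  have e1 : pL N e (eich N e a x) = pL N e x := by
    unfold eich
    simp only [pL_add_right, pL_sub_right, pL_smul_right]
    rw [he, hea]
    ring
  have e2 : pL N a (eich N e a x) = pL N a x + pL N a a * pL N e x := by
    unfold eich
    simp only [pL_add_right, pL_sub_right, pL_smul_right]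
    rw [pL_comm N a e, hea]
    ring
  have e3 : eich N e (-a) (eich N e a x) = eich N e a x - pL N (-a) (eich N e a x) • e +
      pL N e (eich N e a x) • (-a) -
      (pL N (-a) (-a) / 2 * pL N e (eich N e a x)) • e := rfl
  rw [e3, e1, pL_neg_left, e2, pL_neg_left, pL_neg_right, neg_neg]
  unfold eich
  module

theorem main_add (e a x y : LV ℚ) : eich N e a (x + y) = eich N e a x + eich N e a y := by
  unfold eich
  rw [pL_add_right, pL_add_right]
  module

theorem main_smul (e a : LV ℚ) (c : ℚ) (x : LV ℚ) :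
    eich N e a (c • x) = c • eich N e a x := by
  unfold eich
  rw [pL_smul_right, pL_smul_right]
  module

/-- A transvection as a linear automorphism. -/
def mainE (N : ℕ) (e a : LV ℚ) (he : pL N e e = 0) (hea : pL N e a = 0) : LV ℚ ≃ₗ[ℚ] LV ℚ where
  toFun := eich N e a
  invFun := eich N e (-a)
  left_inv := main_inv he hea
  right_inv := fun x => by
    have := main_inv (N := N) (a := -a) he (by rw [pL_neg_right, hea, neg_zero]) x
    rwa [neg_neg] at this
  map_add' := main_add e a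
  map_smul' := main_smul e a

end Converse

/-- Every Hodge isometry extends to an integral isometry of `Λ` which matches the twisted Hodge
lines. -/
theorem main_extend {N : ℕ} (hN : 0 < N) {s s' : HV ℂ} {γ : HV ℚ ≃ₗ[ℚ] HV ℚ}
    (hγ : HodgeIsometryL N s s' γ) {e j : ℤ} {h : HV ℚ} (hh : IntH h)
    (hd : γ (dst N) = h + (e : ℚ) • dst N) (he : e ^ 2 = 1 + 4 * N * j) :
    ∃ ψ : LV ℚ ≃ₗ[ℚ] LV ℚ, (∀ x y, pL N (ψ x) (ψ y) = pL N x y) ∧
      (∀ x, IntL (ψ x) ↔ IntL x) ∧ (∃ c : ℂ, c ≠ 0 ∧ ∀ x, pT N (ψ x) s' = c * pT N x s) ∧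
      IntL (ψ (0, dst N) - (0, (e : ℚ) • dst N)) := by
  have hN0 : (N : ℚ) ≠ 0 := by exact_mod_cast hN.ne'
  obtain ⟨g1, g2, c, hc0, hc⟩ := hγ
  have hodd : Odd e := by
    have h1 : Odd (e ^ 2) := by
      rw [he]
      exact ⟨2 * N * j, by ring⟩
    exact (Int.odd_pow' (by norm_num)).1 h1
  obtain ⟨p, hp⟩ := hodd
  have e3 : γ dl = (2 * (N : ℚ)) • γ (dst N) := by
    rw [← map_smul, ← dl_dst hN]
  set u : HV ℚ := (1 / 2 : ℚ) • (γ dl - dl) with hu
  have huZ : IntH u := by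
    have e5 : u = (N : ℚ) • h + (p : ℚ) • dl := by
      have e6 : ((e : ℚ) * (2 * N)) • dst N = (e : ℚ) • dl := by
        conv_rhs => rw [dl_dst hN]
        rw [smul_smul]
      have e7 : (2 * (N : ℚ)) • (e : ℚ) • dst N = (e : ℚ) • dl := by
        rw [smul_smul, ← e6]
        congr 1
        ring
      rw [hu, e3, hd, smul_add, e7, hp]
      push_cast
      module
    rw [e5]
    exact (IntH.smul (IsZ.nat N) hh).add (IntH.smul (IsZ.int p) dl_int)
  have b1 : pL N bt bt = 0 := by simp [pL, hU, bt, pH, pR, e8]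
  have b2 : pL N bt (0, u) = 0 := by simp [pL, hU, bt, pH, pR, e8]
  have hbtZ : IntL bt := ⟨⟨IsZ.zero, IsZ.one⟩, IntH.zero⟩
  have huL : IntL (0, u) := ⟨⟨IsZ.zero, IsZ.zero⟩, huZ⟩
  let G : LV ℚ ≃ₗ[ℚ] LV ℚ := LinearEquiv.prodCongr (LinearEquiv.refl ℚ (ℚ × ℚ)) γ
  have hG : ∀ x, G x = (x.1, γ x.2) := fun x => rfl
  have hGi : ∀ x y, pL N (G x) (G y) = pL N x y := by
    intro x y
    rw [hG, hG]
    unfold pL
    rw [g1]
  have hGZ : ∀ x, IntL (G x) ↔ IntL x := fun x => by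
    rw [hG]
    exact and_congr Iff.rfl (g2 x.2)
  refine ⟨G.trans (mainE N bt (0, u) b1 b2), fun x y => ?_, fun x => ?_, ⟨c, hc0, fun x => ?_⟩, ?_⟩
  · exact (main_iso b1 b2 _ _).trans (hGi x y)
  · constructor
    · intro hx
      rw [← hGZ]
      have e := (mainE N bt (0, u) b1 b2).symm_apply_apply (G x)
      rw [← e]
      exact main_int hbtZ huL.neg hx
    · intro hx
      exact main_int hbtZ huL ((hGZ x).2 hx)
  · change pT N (eich N bt (0, u) (G x)) s' = c * pT N x s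
    have e1 : eich N bt (0, u) (G x) = ((x.1.1, (eich N bt (0, u) (G x)).1.2),
        γ x.2 + x.1.1 • u) := by
      have a1 : pL N bt (G x) = x.1.1 := by
        rw [hG]
        simp [pL, hU, bt, pH, pR, e8]
      refine Prod.ext (Prod.ext ?_ rfl) ?_
      · unfold eich
        rw [a1, hG]
        simp [bt]
      · unfold eich
        rw [a1, hG]
        simp [bt]
    rw [e1]
    unfold pT
    simp only
    have e5 : pC N u s' = (1 / 2 : ℂ) * (c * pC N dl s) - (1 / 2 : ℂ) * pC N dl s' := by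
      rw [hu, odd_pC_smul, odd_pC_sub, hc]
      push_cast
      ring
    rw [odd_pC_add, odd_pC_smul, hc, e5]
    ring
  · have a1 : pL N bt (0, γ (dst N)) = 0 := by simp [pL, hU, bt, pH, pR, e8]
    have hval : eich N bt (0, u) (0, γ (dst N)) = (0, γ (dst N)) -
        pL N (0, u) (0, γ (dst N)) • bt := by
      unfold eich
      rw [a1]
      simp
    have hint : IsZ (pL N (0, u) (0, γ (dst N))) := by
      have hγs : IntL (0, γ.symm u) := by
        refine ⟨⟨IsZ.zero, IsZ.zero⟩, ?_⟩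
        rw [← g2, γ.apply_symm_apply]
        exact huZ
      have e : pL N (0, u) (0, γ (dst N)) = pL N (0, γ.symm u) (0, dst N) := by
        have := hGi (0, γ.symm u) (0, dst N)
        rw [hG, hG] at this
        simp only [LinearEquiv.apply_symm_apply] at this
        exact this
      rw [e]
      exact dst_dual hN hγs
    change IntL (eich N bt (0, u) (0, γ (dst N)) - (0, (e : ℚ) • dst N))
    rw [hval]
    have e : (0, γ (dst N)) - pL N (0, u) (0, γ (dst N)) • bt - (0, (e : ℚ) • dst N) =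
        ((0, h) : LV ℚ) - pL N (0, u) (0, γ (dst N)) • bt := by
      have e8 : ((0, γ (dst N)) : LV ℚ) = (0, h) + (0, (e : ℚ) • dst N) :=
        Prod.ext (by simp) hd
      generalize pL N (0, u) (0, γ (dst N)) = r
      rw [e8]
      abel
    rw [e]
    exact IntL.sub ⟨⟨IsZ.zero, IsZ.zero⟩, hh⟩ (IntL.smul hint hbtZ)

/-- A Hodge isometry which acts by `±1` on the multiples of `2δ*` modulo `H²` induces an integral
isometry of `Λ` which matches the twisted Hodge lines and acts on the discriminant group by `±1`. -/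
theorem main_converse {N : ℕ} (hN : 0 < N) {s s' : HV ℂ} {γ : HV ℚ ≃ₗ[ℚ] HV ℚ}
    (hγ : HodgeIsometryL N s s' γ)
    (h : IntH ((2 : ℚ) • (γ (dst N) - dst N)) ∨ IntH ((2 : ℚ) • (γ (dst N) + dst N))) :
    ∃ ψ : LV ℚ ≃ₗ[ℚ] LV ℚ, (∀ x y, pL N (ψ x) (ψ y) = pL N x y) ∧
      (∀ x, IntL (ψ x) ↔ IntL x) ∧ (∃ c : ℂ, c ≠ 0 ∧ ∀ x, pT N (ψ x) s' = c * pT N x s) ∧
      (IntL (ψ (0, dst N) - (0, dst N)) ∨ IntL (ψ (0, dst N) + (0, dst N))) := by
  have hN0 : (N : ℚ) ≠ 0 := by exact_mod_cast hN.ne'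
  obtain ⟨e, j, h0, hh, hd, he⟩ := dual_split hN hγ.1 hγ.2.1
  obtain ⟨ψ, p1, p2, ⟨c, hc0, hc⟩, p4⟩ := main_extend hN hγ hh hd he
  -- `e = σ + kN`
  obtain ⟨σ, k, hσ, hk⟩ : ∃ σ k : ℤ, (σ = 1 ∨ σ = -1) ∧ e = σ + k * N := by
    have hcoord : ∀ σ : ℤ, IntH ((2 : ℚ) • (γ (dst N) - (σ : ℚ) • dst N)) →
        ∃ k : ℤ, e = σ + k * N := by
      intro σ hσ
      rw [hd] at hσ
      obtain ⟨z, hz⟩ := hσ.2.2.2.2.2
      obtain ⟨z', hz'⟩ := hh.2.2.2.2.2
      refine ⟨z - 2 * z', ?_⟩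
      have e1 : (2 : ℚ) * (h0.2.2.2.2.2 + e * (1 / (2 * N)) - σ * (1 / (2 * N))) = z := by
        rw [← hz]
        simp [dst, dl]
      rw [hz'] at e1
      have e2 : (e : ℚ) = σ + (z - 2 * z') * N := by
        field_simp at e1
        linarith
      exact_mod_cast e2
    rcases h with h | h
    · obtain ⟨k, hk⟩ := hcoord 1 (by simpa using h)
      exact ⟨1, k, Or.inl rfl, hk⟩
    · obtain ⟨k, hk⟩ := hcoord (-1) (by
        have e1 : γ (dst N) - ((-1 : ℤ) : ℚ) • dst N = γ (dst N) + dst N := by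
          push_cast
          rw [neg_one_smul, sub_neg_eq_add]
        rw [e1]
        exact h)
      exact ⟨-1, k, Or.inr rfl, hk⟩
  have hfin : ∀ χ : LV ℚ, IntL (χ - (0, (σ : ℚ) • dst N)) →
      IntL (χ - (0, dst N)) ∨ IntL (χ + (0, dst N)) := by
    intro χ hχ
    rcases hσ with rfl | rfl
    · left
      have e1 : ((0, ((1 : ℤ) : ℚ) • dst N) : LV ℚ) = (0, dst N) := by simp
      rwa [e1] at hχ
    · right
      have e1 : χ - (0, ((-1 : ℤ) : ℚ) • dst N) = χ + (0, dst N) := by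
        have e2 : ((0, ((-1 : ℤ) : ℚ) • dst N) : LV ℚ) = -(0, dst N) := by
          refine Prod.ext (by simp) ?_
          simp
        rw [e2, sub_neg_eq_add]
      rwa [e1] at hχ
  have hσ2 : σ ^ 2 = 1 := by rcases hσ with rfl | rfl <;> norm_num
  rcases Int.even_or_odd' k with ⟨k', hk' | hk'⟩
  · refine ⟨ψ, p1, p2, ⟨c, hc0, hc⟩, hfin _ ?_⟩
    have e1 : ψ (0, dst N) - (0, (σ : ℚ) • dst N) =
        (ψ (0, dst N) - (0, (e : ℚ) • dst N)) + (k' : ℚ) • (0, dl) := by
      have e2 : ((0, (e : ℚ) • dst N) : LV ℚ) = (0, (σ : ℚ) • dst N) + (k' : ℚ) • (0, dl) := by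
        refine Prod.ext (by simp) ?_
        show (e : ℚ) • dst N = (σ : ℚ) • dst N + (k' : ℚ) • dl
        conv_rhs => rw [dl_dst hN]
        rw [smul_smul, ← add_smul, hk, hk']
        push_cast
        congr 1
        ring
      rw [e2]
      abel
    rw [e1]
    exact p4.add (IntL.smul (IsZ.int k') ⟨⟨IsZ.zero, IsZ.zero⟩, dl_int⟩)
  · -- `N ≡ 2 mod 4`
    have hk1 : 2 * σ * k + k ^ 2 * N = 4 * j := by
      have h1 : (N : ℤ) * (2 * σ * k + k ^ 2 * N) = N * (4 * j) := by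
        have : e ^ 2 = σ ^ 2 + N * (2 * σ * k + k ^ 2 * N) := by
          rw [hk]
          ring
        rw [hσ2, he] at this
        linarith
      exact mul_left_cancel₀ (by exact_mod_cast hN.ne') h1
    obtain ⟨q, hq⟩ : ∃ q : ℕ, N = 4 * q + 2 := by
      have h2 : (N : ℤ) % 4 = 2 := by
        have h3 : (k ^ 2 : ℤ) = 4 * (k' ^ 2 + k') + 1 := by rw [hk']; ring
        have h4 : (2 * σ * k : ℤ) % 4 = 2 := by
          rcases hσ with rfl | rfl
          · rw [hk']
            omega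
          · rw [hk']
            omega
        have h5 : (k ^ 2 * N : ℤ) % 4 = N % 4 := by
          rw [h3]
          have : (4 * (k' ^ 2 + k') + 1 : ℤ) * N = N + 4 * ((k' ^ 2 + k') * N) := by ring
          rw [this]
          omega
        omega
      exact ⟨N / 4, by omega⟩
    refine ⟨ψ.trans (swp N), fun x y => ?_, fun x => ?_, ⟨c, hc0, fun x => ?_⟩, hfin _ ?_⟩
    · rw [LinearEquiv.trans_apply, LinearEquiv.trans_apply, swp_iso, p1]
    · rw [LinearEquiv.trans_apply, swp_iff hq, p2]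
    · rw [LinearEquiv.trans_apply, swp_pT, hc]
    · rw [LinearEquiv.trans_apply]
      obtain ⟨r, hr⟩ : ∃ r : ℤ, k + e = 2 * r := by
        have h3 : k + e = 2 * k' + 1 + σ + (2 * k' + 1) * (4 * q + 2) := by
          rw [hk, hk', hq]
          push_cast
          ring
        rcases hσ with rfl | rfl
        · exact ⟨k' + 1 + (2 * k' + 1) * (2 * q + 1), by rw [h3]; ring⟩
        · exact ⟨k' + (2 * k' + 1) * (2 * q + 1), by rw [h3]; ring⟩
      -- the swapped image
      have e1 : swp N (ψ (0, dst N)) - (0, (σ : ℚ) • dst N) =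
          swp N (ψ (0, dst N) - (0, (e : ℚ) • dst N)) +
            ((e : ℚ) • ((1, (q : ℚ)), (0 : HV ℚ)) + ((k - e) / 2 : ℚ) • (0, dl)) := by
        have e2 : ((0, (e : ℚ) • dst N) : LV ℚ) = (e : ℚ) • (0, dst N) := by
          refine Prod.ext (by simp) rfl
        rw [map_sub, e2, map_smul, swp_dst hq]
        have e3 : ((0, (σ : ℚ) • dst N) : LV ℚ) = (e : ℚ) • (0, dst N) -
            (k / 2 : ℚ) • (0, dl) := by
          refine Prod.ext (by simp) ?_
          show (σ : ℚ) • dst N = (e : ℚ) • dst N - (k / 2 : ℚ) • dl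
          conv_rhs => rw [dl_dst hN]
          rw [smul_smul, ← sub_smul, hk]
          push_cast
          congr 1
          ring
        have e4 : (((1, (q : ℚ)), dst N - (1 / 2 : ℚ) • dl) : LV ℚ) =
            ((1, (q : ℚ)), (0 : HV ℚ)) + (0, dst N) - (1 / 2 : ℚ) • (0, dl) := by
          refine Prod.ext (by simp) ?_
          simp
        rw [e3, e4]
        module
      rw [e1]
      have e5 : ((k - e) / 2 : ℚ) = ((r - e : ℤ) : ℚ) := by
        have : (k : ℚ) + e = 2 * r := by exact_mod_cast hr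
        push_cast
        linarith
      rw [e5]
      refine (swp_int hq p4).add ((IntL.smul (IsZ.int e) ⟨⟨IsZ.one, IsZ.nat q⟩, IntH.zero⟩).add
        (IntL.smul (IsZ.int _) ⟨⟨IsZ.zero, IsZ.zero⟩, dl_int⟩))

end Pool.Agent.H.MP_072fb1_ag.K3
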