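import Pool.Agent.H.MP_072fb1_ag.K3.Basic
import Pool.Agent.H.MP_072fb1_ag.Hodge

/-!
# Hodge isometries of a transcendental lattice of odd rank
-/

set_option autoImplicit false

namespace Pool.Agent.H.MP_072fb1_ag.K3

/-- The rational transcendental space. -/
def Tsub (N : ℕ) (s : HV ℂ) : Submodule ℚ (HV ℚ) where
  carrier := {x | InT N s x}
  add_mem' := fun {a b} ha hb y hy => by rw [pH_add_left, ha y hy, hb y hy, add_zero]
  zero_mem' := fun y _ => by rw [← zero_smul ℚ (0 : HV ℚ), pH_smul_left, zero_mul]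
  smul_mem' := fun c x hx y hy => by rw [pH_smul_left, hx y hy, mul_zero]

theorem odd_e8_zero (x : Fin 8 → ℚ) : e8 x 0 = 0 := by
  simp [e8]

theorem pH_nondeg {N : ℕ} (hN : 0 < N) {x : HV ℚ} (h : ∀ y, pH N x y = 0) : x = 0 := by
  have hN' : (N : ℚ) ≠ 0 := by exact_mod_cast hN.ne'
  have h1 := h ((1, 0), 0)
  have h2 := h ((0, 1), 0)
  have h3 := h (0, (1, 0), 0)
  have h4 := h (0, (0, 1), 0)
  have h5 := h (0, 0, (1, 0), 0)
  have h6 := h (0, 0, (0, 1), 0)
  have h7 : ∀ u, e8 x.2.2.2.1 u = 0 := by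
    intro u
    have := h (0, 0, 0, u, 0)
    simpa [pH, pR, hU, odd_e8_zero] using this
  have h8 : ∀ u, e8 x.2.2.2.2.1 u = 0 := by
    intro u
    have := h (0, 0, 0, 0, u, 0)
    simpa [pH, pR, hU, odd_e8_zero] using this
  have h9 := h (0, 0, 0, 0, 0, 1)
  simp [pH, pR, hU, odd_e8_zero, hN'] at h1 h2 h3 h4 h5 h6 h9
  have h7' := e8_nondeg h7
  have h8' := e8_nondeg h8
  refine Prod.ext (Prod.ext h2 h1) (Prod.ext (Prod.ext h4 h3) (Prod.ext (Prod.ext h6 h5)
    (Prod.ext h7' (Prod.ext h8' h9))))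

/-- The form as a bilinear map. -/
noncomputable def oddB (N : ℕ) : LinearMap.BilinForm ℚ (HV ℚ) :=
  LinearMap.mk₂ ℚ (pH N) (pH_add_left N) (fun c x y => pH_smul_left N c x y)
    (fun x y y' => pH_add_right N x y y') (fun c x y => pH_smul_right N c x y)

theorem oddB_apply (N : ℕ) (x y : HV ℚ) : oddB N x y = pH N x y := rfl

theorem odd_cc_add (x y : HV ℚ) : cc (x + y) = cc x + cc y := by
  refine Prod.ext (Prod.ext ?_ ?_) (Prod.ext (Prod.ext ?_ ?_) (Prod.ext (Prod.ext ?_ ?_)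
    (Prod.ext (funext fun i => ?_) (Prod.ext (funext fun i => ?_) ?_)))) <;> simp [cc]

theorem odd_cc_smul (c : ℚ) (x : HV ℚ) : cc (c • x) = (c : ℂ) • cc x := by
  refine Prod.ext (Prod.ext ?_ ?_) (Prod.ext (Prod.ext ?_ ?_) (Prod.ext (Prod.ext ?_ ?_)
    (Prod.ext (funext fun i => ?_) (Prod.ext (funext fun i => ?_) ?_)))) <;> simp [cc]

theorem odd_pC_add (N : ℕ) (x y : HV ℚ) (s : HV ℂ) : pC N (x + y) s = pC N x s + pC N y s := by
  unfold pC
  rw [odd_cc_add, pH_add_left]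

theorem odd_pC_smul (N : ℕ) (c : ℚ) (x : HV ℚ) (s : HV ℂ) :
    pC N (c • x) s = (c : ℂ) * pC N x s := by
  unfold pC
  rw [odd_cc_smul, pH_smul_left]

theorem odd_pC_sub (N : ℕ) (x y : HV ℚ) (s : HV ℂ) : pC N (x - y) s = pC N x s - pC N y s := by
  have h : x - y = x + (-1 : ℚ) • y := by rw [neg_one_smul, sub_eq_add_neg]
  rw [h, odd_pC_add, odd_pC_smul]
  push_cast
  ring

/-- The rational Neron-Severi space. -/
def oddNS (N : ℕ) (s : HV ℂ) : Submodule ℚ (HV ℚ) where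
  carrier := {x | InNS N s x}
  add_mem' := fun {a b} ha hb => by
    have ha' : pC N a s = 0 := ha
    have hb' : pC N b s = 0 := hb
    show pC N (a + b) s = 0
    rw [odd_pC_add, ha', hb', add_zero]
  zero_mem' := by
    show pC N 0 s = 0
    rw [← zero_smul ℚ (0 : HV ℚ), odd_pC_smul]
    simp
  smul_mem' := fun c x hx => by
    have hx' : pC N x s = 0 := hx
    show pC N (c • x) s = 0
    rw [odd_pC_smul, hx', mul_zero]

theorem odd_split {N : ℕ} {s : HV ℂ} (hnd : ∀ x, InNS N s x → InT N s x → x = 0) (y : HV ℚ) :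
    ∃ a b, InNS N s a ∧ InT N s b ∧ y = a + b := by
  have hrefl : (oddB N).IsRefl := by
    intro x y h
    rw [oddB_apply] at h ⊢
    rw [pH_comm]
    exact h
  have hT : ∀ b, b ∈ (oddB N).orthogonal (oddNS N s) → InT N s b := by
    intro b hb z hz
    have h1 := (LinearMap.BilinForm.mem_orthogonal_iff.1 hb) z hz
    have h2 : pH N z b = 0 := h1
    rw [pH_comm]
    exact h2
  have hdis : Disjoint (oddNS N s) ((oddB N).orthogonal (oddNS N s)) := by
    rw [Submodule.disjoint_def]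
    intro x hx hx'
    exact hnd x hx (hT x hx')
  have hc := (LinearMap.BilinForm.isCompl_orthogonal_iff_disjoint hrefl).2 hdis
  have htop : y ∈ oddNS N s ⊔ (oddB N).orthogonal (oddNS N s) := by
    rw [hc.sup_eq_top]
    trivial
  obtain ⟨a, ha, b, hb, hab⟩ := Submodule.mem_sup.1 htop
  exact ⟨a, b, ha, hT b hb, hab.symm⟩

/-- An isometry of the transcendental space of odd rank has an eigenvector. -/
theorem odd_eigen {N : ℕ} (hN : 0 < N) {s : HV ℂ}
    (hnd : ∀ x, InNS N s x → InT N s x → x = 0)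
    (hodd : Odd (Module.finrank ℚ (Tsub N s))) (φ : Tsub N s →ₗ[ℚ] Tsub N s)
    (hφ : ∀ x y : Tsub N s, pH N (φ x).1 (φ y).1 = pH N x.1 y.1) :
    ∃ ε : ℚ, ε ^ 2 = 1 ∧ ∃ y : Tsub N s, y ≠ 0 ∧ φ y = ε • y := by
  set n := Module.finrank ℚ (Tsub N s) with hn
  let b : Module.Basis (Fin n) ℚ (Tsub N s) := Module.finBasis ℚ (Tsub N s)
  let B : LinearMap.BilinForm ℚ (Tsub N s) := (oddB N).restrict (Tsub N s)
  have hB : ∀ x y : Tsub N s, B x y = pH N x.1 y.1 := fun x y => rfl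
  have hBnd : B.Nondegenerate := by
    have hl : ∀ x : Tsub N s, (∀ y, B x y = 0) → x = 0 := by
      intro x hx
      have h1 : ∀ y, pH N x.1 y = 0 := by
        intro y
        obtain ⟨a, t, ha, ht, rfl⟩ := odd_split hnd y
        rw [pH_add_right, x.2 a ha, zero_add]
        exact hx ⟨t, ht⟩
      exact Subtype.ext (pH_nondeg hN h1)
    refine ⟨fun x hx => hl x hx, fun x hx => hl x fun y => ?_⟩
    have h1 := hx y
    rw [hB] at h1 ⊢
    rw [pH_comm]
    exact h1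
  set G := LinearMap.BilinForm.toMatrix b B with hG
  have hGdet : G.det ≠ 0 := (LinearMap.BilinForm.nondegenerate_iff_det_ne_zero b).1 hBnd
  set Φ := LinearMap.toMatrix b b φ with hΦ
  have hmat : Φ.transpose * G * Φ = G := by
    have h1 : B.compl₁₂ φ φ = B := by
      refine LinearMap.ext fun x => LinearMap.ext fun y => ?_
      exact hφ x y
    have h2 := LinearMap.BilinForm.toMatrix_comp b b B φ φ
    rw [hΦ, hG, ← h2]
    congr 1
  obtain ⟨ε, hε, v, hv, hvε⟩ := Hodge.odd_isometry hodd G Φ hGdet hmat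
  refine ⟨ε, hε, b.equivFun.symm v, ?_, ?_⟩
  · intro h0
    apply hv
    have := congrArg b.equivFun h0
    rw [LinearEquiv.apply_symm_apply, map_zero] at this
    exact this
  · apply b.equivFun.injective
    rw [map_smul, LinearEquiv.apply_symm_apply, ← hvε]
    have h3 := LinearMap.toMatrix_mulVec_repr b b φ (b.equivFun.symm v)
    have h4 : (⇑(b.repr (b.equivFun.symm v))) = v := by
      have := LinearEquiv.apply_symm_apply b.equivFun v
      exact this
    rw [h4] at h3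
    rw [hΦ, h3]
    rfl

/-- `ψ` and `γ` agree up to a sign on the transcendental part. PROOF: `H² = NS ⊕ T`; `ψ` maps `U₀ ⊕ NS(s)`
onto `U₀ ⊕ NS(s')`, so `φ := γ⁻¹ ψ` maps `T` to `T` and preserves the form, which is nondegenerate on `T`;
`Hodge.odd_isometry` gives `y ≠ 0` in `T` and `ε = ±1` with `φ y = ε y`; `pC y s ≠ 0`, hence
`pC (φ x - ε x) s = 0` for all `x` in `T`, and `φ x - ε x ∈ T ∩ NS = 0`. -/
theorem odd_step {N : ℕ} (hN : 0 < N) {s s' : HV ℂ}
    (hnd : ∀ x, InNS N s x → InT N s x → x = 0)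
    (hodd : Odd (Module.finrank ℚ (Tsub N s)))
    (γ : HV ℚ ≃ₗ[ℚ] HV ℚ) (hγ : HodgeIsometryL N s s' γ)
    (ψ : LV ℚ ≃ₗ[ℚ] LV ℚ) (hψ : ∀ x y, pL N (ψ x) (ψ y) = pL N x y)
    (hc : ∃ c : ℂ, c ≠ 0 ∧ ∀ x, pC N (ψ x).2 s' = c * pC N x.2 s) :
    (∀ t, InT N s t → ψ (0, t) = (0, γ t)) ∨ (∀ t, InT N s t → ψ (0, t) = (0, -γ t)) := by
  obtain ⟨c, hc0, hc⟩ := hc
  obtain ⟨hγ1, -, c', hc0', hγ2⟩ := hγ
  have hmix : ∀ t, InT N s t → ∀ y : LV ℚ, pC N y.2 s' = 0 → pL N (ψ (0, t)) y = 0 := by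
    intro t ht y hy
    obtain ⟨x, rfl⟩ := ψ.surjective y
    rw [hψ]
    have hx : InNS N s x.2 := by
      have h1 := hc x
      rw [hy] at h1
      rcases mul_eq_zero.1 h1.symm with h2 | h2
      · exact absurd h2 hc0
      · exact h2
    have h3 := ht _ hx
    simp only [pL, hU, Prod.fst_zero, Prod.snd_zero, zero_mul, add_zero, zero_add]
    exact h3
  have hpC0 : pC N 0 s' = 0 := by
    rw [← zero_smul ℚ (0 : HV ℚ), odd_pC_smul]
    simp
  have hpH0 : ∀ z : HV ℚ, pH N z 0 = 0 := by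
    intro z
    rw [← zero_smul ℚ (0 : HV ℚ), pH_smul_right, zero_mul]
  have hfst : ∀ t, InT N s t → (ψ (0, t)).1 = 0 := by
    intro t ht
    have h1 := hmix t ht ((1, 0), 0) hpC0
    have h2 := hmix t ht ((0, 1), 0) hpC0
    simp [pL, hU, hpH0] at h1 h2
    exact Prod.ext h2 h1
  have hsnd : ∀ t, InT N s t → ∀ y, InNS N s' y → pH N (ψ (0, t)).2 y = 0 := by
    intro t ht y hy
    have h1 := hmix t ht (0, y) hy
    simpa [pL, hU] using h1
  -- the map `φ`
  let φ0 : HV ℚ →ₗ[ℚ] HV ℚ := γ.symm.toLinearMap ∘ₗ LinearMap.snd ℚ (ℚ × ℚ) (HV ℚ) ∘ₗ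
    ψ.toLinearMap ∘ₗ LinearMap.inr ℚ (ℚ × ℚ) (HV ℚ)
  have hφ0 : ∀ t, γ (φ0 t) = (ψ (0, t)).2 := fun t => LinearEquiv.apply_symm_apply γ _
  have hφT : ∀ t, t ∈ Tsub N s → φ0 t ∈ Tsub N s := by
    intro t ht y hy
    rw [← hγ1, hφ0]
    refine hsnd t ht _ ?_
    show pC N (γ y) s' = 0
    have hy' : pC N y s = 0 := hy
    rw [hγ2, hy', mul_zero]
  let φ : Tsub N s →ₗ[ℚ] Tsub N s := φ0.restrict hφT
  have hφ : ∀ x : Tsub N s, (φ x).1 = φ0 x.1 := fun x => rfl
  have hiso : ∀ x y : Tsub N s, pH N (φ x).1 (φ y).1 = pH N x.1 y.1 := by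
    intro x y
    rw [hφ, hφ, ← hγ1, hφ0, hφ0]
    have h1 := hψ (0, x.1) (0, y.1)
    have h2 : ∀ z w : LV ℚ, z.1 = 0 → pL N z w = pH N z.2 w.2 := by
      intro z w hz
      simp [pL, hU, hz]
    rw [h2 _ _ (hfst _ x.2), h2 _ _ rfl] at h1
    exact h1
  obtain ⟨ε, hε, y, hy, hyε⟩ := odd_eigen hN hnd hodd φ hiso
  have hhodge : ∀ t, c' * pC N (φ0 t) s = c * pC N t s := by
    intro t
    rw [← hγ2, hφ0]
    exact hc (0, t)
  have hyne : pC N y.1 s ≠ 0 := by
    intro h0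
    exact hy (Subtype.ext (hnd y.1 h0 y.2))
  have hceq : c = c' * ε := by
    have h1 := hhodge y.1
    have h2 : φ0 y.1 = ε • y.1 := by
      rw [← hφ, hyε]
      rfl
    rw [h2, odd_pC_smul, ← mul_assoc] at h1
    exact (mul_right_cancel₀ hyne h1).symm
  have hall : ∀ t, InT N s t → φ0 t = ε • t := by
    intro t ht
    have h1 : InNS N s (φ0 t - ε • t) := by
      show pC N (φ0 t - ε • t) s = 0
      have h2 := hhodge t
      rw [hceq, mul_assoc] at h2
      have h3 := mul_left_cancel₀ hc0' h2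
      rw [odd_pC_sub, h3, odd_pC_smul, sub_self]
    have h4 : φ0 t - ε • t ∈ Tsub N s :=
      Submodule.sub_mem _ (hφT t ht) (Submodule.smul_mem _ _ ht)
    exact sub_eq_zero.1 (hnd _ h1 h4)
  have hfin : ∀ t, InT N s t → ψ (0, t) = (0, ε • γ t) := by
    intro t ht
    refine Prod.ext (hfst t ht) ?_
    show (ψ (0, t)).2 = ε • γ t
    rw [← hφ0, hall t ht, map_smul]
  have hε' : (ε - 1) * (ε + 1) = 0 := by linear_combination hε
  rcases mul_eq_zero.1 hε' with h | h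
  · left
    intro t ht
    rw [hfin t ht, sub_eq_zero.1 h, one_smul]
  · right
    intro t ht
    rw [hfin t ht, eq_neg_of_add_eq_zero_left h, neg_one_smul]

end Pool.Agent.H.MP_072fb1_ag.K3
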