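import Pool.Agent.H.MP_072fb1_ag.K3.Final

/-!
# From plain functions to bundled linear maps
-/

set_option autoImplicit false

namespace Pool.Agent.H.MP_072fb1_ag.K3

section

variable {V : Type*} [AddCommGroup V] [Module ℚ V]

/-- The bundled action. -/
noncomputable def K3Datum.toLin {N : ℕ} {κ : LV ℚ → LV ℚ → V → V} {M : Submodule ℤ V}
    (h : K3Datum N κ M) : LV ℚ →ₗ[ℚ] LV ℚ →ₗ[ℚ] Module.End ℚ V :=
  LinearMap.mk₂ ℚ (fun x y =>
    { toFun := κ x y
      map_add' := h.add_arg x y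
      map_smul' := fun c s => h.smul_arg c x y s })
    (fun x x' y => LinearMap.ext fun s => h.add_left x x' y s)
    (fun c x y => LinearMap.ext fun s => h.smul_left c x y s)
    (fun x y y' => LinearMap.ext fun s => h.add_right x y y' s)
    (fun c x y => LinearMap.ext fun s => h.smul_right c x y s)

theorem K3Datum.toLin_apply {N : ℕ} {κ : LV ℚ → LV ℚ → V → V} {M : Submodule ℤ V}
    (h : K3Datum N κ M) (x y : LV ℚ) (v : V) : h.toLin x y v = κ x y v := rfl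

theorem K3Datum.toL {N : ℕ} {κ : LV ℚ → LV ℚ → V → V} {M : Submodule ℤ V}
    (h : K3Datum N κ M) : K3DatumL N h.toLin M where
  alt x := LinearMap.ext fun v => h.alt x v
  bracket x y z w v := h.bracket x y z w v
  fg := h.fg
  span_eq := h.span_eq
  transvection e a he ha hee hea := by
    obtain ⟨g, hg, hl⟩ := h.transvection e a he ha hee hea
    exact ⟨g, hg, fun x y v => hl x y v⟩
  quot := by
    obtain ⟨j, π, hQ⟩ := h.quot
    let π' : V →ₗ[ℚ] HV ℚ × ℚ :=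
      { toFun := π
        map_add' := hQ.add
        map_smul' := hQ.smul }
    exact ⟨j, π',
      { ker_iff := fun x hx => hQ.ker_iff x hx
        surj := fun z => hQ.surj z
        equiv := fun a b x hx => hQ.equiv a b x hx
        int_left := fun x => hQ.int_left x
        int_right := fun y => hQ.int_right y
        glue := hQ.glue }⟩

theorem K3DatumL.toF {N : ℕ} {κ : LV ℚ →ₗ[ℚ] LV ℚ →ₗ[ℚ] Module.End ℚ V} {M : Submodule ℤ V}
    (h : K3DatumL N κ M) : K3Datum N (fun x y v => κ x y v) M where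
  add_left x x' y v := by rw [map_add]; rfl
  smul_left c x y v := by rw [map_smul]; rfl
  add_right x y y' v := by rw [map_add]; rfl
  smul_right c x y v := by rw [map_smul]; rfl
  add_arg x y v w := map_add _ _ _
  smul_arg c x y v := map_smul _ _ _
  alt x v := by rw [h.alt]; rfl
  bracket x y z w v := h.bracket x y z w v
  fg := h.fg
  span_eq := h.span_eq
  transvection e a he ha hee hea := by
    obtain ⟨g, hg, hl⟩ := h.transvection e a he ha hee hea
    exact ⟨g, hg, fun x y v => hl x y v⟩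
  quot := by
    obtain ⟨j, π, hQ⟩ := h.quot
    exact ⟨j, π,
      { add := fun v w => map_add π v w
        smul := fun c v => map_smul π c v
        ker_iff := fun x hx => hQ.ker_iff x hx
        surj := fun z => hQ.surj z
        equiv := fun a b x hx => hQ.equiv a b x hx
        int_left := fun x => hQ.int_left x
        int_right := fun y => hQ.int_right y
        glue := hQ.glue }⟩

/-- The bundled isometry. -/
noncomputable def IsoL.toE {N : ℕ} {ψ : LV ℚ → LV ℚ} (h : IsoL N ψ) : LV ℚ ≃ₗ[ℚ] LV ℚ :=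
  LinearEquiv.ofBijective
    { toFun := ψ
      map_add' := h.add
      map_smul' := h.smul } h.bij

theorem IsoL.toE_apply {N : ℕ} {ψ : LV ℚ → LV ℚ} (h : IsoL N ψ) (x : LV ℚ) : h.toE x = ψ x := rfl

theorem isoL_of {N : ℕ} (ψ : LV ℚ ≃ₗ[ℚ] LV ℚ) (h1 : ∀ x y, pL N (ψ x) (ψ y) = pL N x y)
    (h2 : ∀ x, IntL (ψ x) ↔ IntL x) : IsoL N ψ where
  add := map_add ψ
  smul := map_smul ψ
  bij := ψ.bijective
  isometry := h1
  integral := h2

/-- The bundled Hodge isometry. -/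
noncomputable def HodgeIsometry.toE {N : ℕ} {s s' : HV ℂ} {γ : HV ℚ → HV ℚ}
    (h : HodgeIsometry N s s' γ) : HV ℚ ≃ₗ[ℚ] HV ℚ :=
  LinearEquiv.ofBijective
    { toFun := γ
      map_add' := h.add
      map_smul' := h.smul } h.bij

theorem HodgeIsometry.toL {N : ℕ} {s s' : HV ℂ} {γ : HV ℚ → HV ℚ}
    (h : HodgeIsometry N s s' γ) : HodgeIsometryL N s s' h.toE :=
  ⟨h.isometry, h.integral, h.hodge⟩

theorem HodgeIsometryL.toF {N : ℕ} {s s' : HV ℂ} {γ : HV ℚ ≃ₗ[ℚ] HV ℚ}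
    (h : HodgeIsometryL N s s' γ) : HodgeIsometry N s s' γ where
  add := map_add γ
  smul := map_smul γ
  bij := γ.bijective
  isometry := h.1
  integral := h.2.1
  hodge := h.2.2

theorem OnlySigns.toL {N : ℕ} {s : HV ℂ} (h : OnlySigns N s) : OnlySignsL N s :=
  fun φ h1 h2 h3 => h φ (map_add φ) (map_smul φ) h1 h2 h3

theorem OnlySignsL.toF {N : ℕ} {s : HV ℂ} (h : OnlySignsL N s) : OnlySigns N s :=
  fun φ ha hs h1 h2 h3 => h
    { toFun := φ
      map_add' := ha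
      map_smul' := hs } h1 h2 h3

theorem KIsomorphic.toL {N : ℕ} {κ : LV ℚ → LV ℚ → V → V} {M : Submodule ℤ V}
    (h : K3Datum N κ M) {s s' : HV ℂ} (hK : KIsomorphic N κ M s s') :
    KIsomorphicL N h.toLin M s s' := by
  obtain ⟨ψ, g, hψ, hc, hg, hl⟩ := hK
  exact ⟨hψ.toE, g, hψ.isometry, hψ.integral, hc, hg, fun x y v => hl x y v⟩

theorem KIsomorphicL.toF {N : ℕ} {κ : LV ℚ →ₗ[ℚ] LV ℚ →ₗ[ℚ] Module.End ℚ V} {M : Submodule ℤ V}
    {s s' : HV ℂ} (hK : KIsomorphicL N κ M s s') :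
    KIsomorphic N (fun x y v => κ x y v) M s s' := by
  obtain ⟨ψ, g, h1, h2, hc, hg, hl⟩ := hK
  exact ⟨ψ, g, isoL_of ψ h1 h2, hc, hg, fun x y v => hl x y v⟩

end

theorem trans_sign {N : ℕ} (hN : 0 < N) {V : Type} [AddCommGroup V] [Module ℚ V]
    {κ : LV ℚ → LV ℚ → V → V} {M : Submodule ℤ V} (hD : K3Datum N κ M) {ψ : LV ℚ → LV ℚ}
    (hψ : IsoL N ψ) {g : V ≃ₗ[ℚ] V} (hg : Preserves M g) (hl : Lifts κ ψ g) :
    IntL (ψ (0, dst N) - (0, dst N)) ∨ IntL (ψ (0, dst N) + (0, dst N)) :=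
  disc_sign hN hD.toL hψ.toE hψ.isometry hψ.integral g hg fun x y v => hl x y v

theorem trans_general {N : ℕ} (hN : 0 < N) {V : Type} [AddCommGroup V] [Module ℚ V]
    {κ : LV ℚ → LV ℚ → V → V} {M : Submodule ℤ V} (hD : K3Datum N κ M) {s s' : HV ℂ}
    (hs : OnlySigns N s) {γ : HV ℚ → HV ℚ} (hγ : HodgeIsometry N s s' γ)
    (hK : KIsomorphic N κ M s s') (k : ℤ) {t : HV ℚ} (ht : InT N s t)
    (hkt : IntH (t - (2 * k : ℚ) • dst N)) :
    IntH ((2 * k : ℚ) • (γ (dst N) - dst N)) ∨ IntH ((2 * k : ℚ) • (γ (dst N) + dst N)) :=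
  main_general hN hs.toL hγ.toL hD.toL (hK.toL hD) k ht hkt

theorem trans_datum {N : ℕ} (hN : 0 < N) :
    ∃ (V : Type) (_ : AddCommGroup V) (_ : Module ℚ V) (κ : LV ℚ → LV ℚ → V → V)
      (M : Submodule ℤ V), K3Datum N κ M ∧
      ∀ (s s' : HV ℂ) (γ : HV ℚ → HV ℚ), HodgeIsometry N s s' γ →
        (IntH ((2 : ℚ) • (γ (dst N) - dst N)) ∨ IntH ((2 : ℚ) • (γ (dst N) + dst N))) →
        KIsomorphic N κ M s s' := by
  obtain ⟨V, i1, i2, κ, M, hD, h⟩ := final_datum hN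
  exact ⟨V, i1, i2, fun x y v => κ x y v, M, hD.toF,
    fun s s' γ hγ hh => (h s s' hγ.toE hγ.toL hh).toF⟩

theorem trans_period {N : ℕ} (hN : 0 < N) :
    ∃ s, IsPeriod N s ∧ (∀ x, InNS N s x ↔ x.2 = 0) ∧ OnlySigns N s ∧ InT N s dl := by
  obtain ⟨s, h1, h2, h3, h4⟩ := final_period hN
  exact ⟨s, h1, h2, h3.toF, h4⟩

theorem trans_counter {q q' : ℕ} (hq : 2 < q) (hq' : 2 < q') (hc : q.Coprime q') {s : HV ℂ}
    (hs : IsPeriod (q * q') s) (hsig : OnlySigns (q * q') s) (hdl : InT (q * q') s dl) :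
    ∃ s', IsPeriod (q * q') s' ∧ (∃ γ, HodgeIsometry (q * q') s s' γ) ∧
      ∀ (V : Type) [AddCommGroup V] [Module ℚ V] (κ : LV ℚ → LV ℚ → V → V)
        (M : Submodule ℤ V), K3Datum (q * q') κ M → ¬ KIsomorphic (q * q') κ M s s' := by
  obtain ⟨s', hs', ⟨γ, hγ⟩, h⟩ := final_counter hq hq' hc hs hsig.toL hdl
  exact ⟨s', hs', ⟨γ, hγ.toF⟩, fun V _ _ κ M hD hK => h V hD.toLin M hD.toL (hK.toL hD)⟩

end Pool.Agent.H.MP_072fb1_ag.K3
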