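import Pool.Agent.H.MP_072fb1_ag.K3.Odd

/-!
# Twisting by `exp(δ/2)`, and the isometry `α ↦ β/2`, `β ↦ 2α` for `N ≡ 2 mod 4`
-/

set_option autoImplicit false

namespace Pool.Agent.H.MP_072fb1_ag.K3

theorem dl_dl (N : ℕ) : pH N dl dl = -(2 * (N : ℚ)) := by simp [dl, pH, pR, hU, e8]

theorem pH_dl (N : ℕ) (h : HV ℚ) : pH N dl h = -(2 * (N : ℚ)) * h.2.2.2.2.2 := by
  simp [dl, pH, pR, hU, e8]

/-- `exp(δ/2)` on `Λ`. -/
def twF (N : ℕ) (c : ℚ) (x : LV ℚ) : LV ℚ :=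
  ((x.1.1, x.1.2 + c * pH N dl x.2 / 2 + c ^ 2 * N / 4 * x.1.1), x.2 - (c * x.1.1 / 2) • dl)

theorem twF_twF (N : ℕ) (c : ℚ) (x : LV ℚ) : twF N (-c) (twF N c x) = x := by
  unfold twF
  refine Prod.ext (Prod.ext rfl ?_) ?_
  · simp only
    rw [pH_sub_right, pH_smul_right, dl_dl]
    ring
  · simp only
    rw [sub_sub, ← add_smul]
    have : c * x.1.1 / 2 + -c * x.1.1 / 2 = 0 := by ring
    rw [this, zero_smul, sub_zero]

/-- `exp(δ/2)` as a linear automorphism. -/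
def tw (N : ℕ) : LV ℚ ≃ₗ[ℚ] LV ℚ where
  toFun := twF N 1
  invFun := twF N (-1)
  left_inv := twF_twF N 1
  right_inv := fun x => by
    have := twF_twF N (-1) x
    rwa [neg_neg] at this
  map_add' := fun x y => by
    unfold twF
    refine Prod.ext (Prod.ext ?_ ?_) ?_
    · simp
    · simp only [Prod.fst_add, Prod.snd_add]
      rw [pH_add_right]
      ring
    · simp only [Prod.fst_add, Prod.snd_add]
      have : (1 : ℚ) * (x.1.1 + y.1.1) / 2 = 1 * x.1.1 / 2 + 1 * y.1.1 / 2 := by ring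
      rw [this, add_smul]
      abel
  map_smul' := fun c x => by
    unfold twF
    refine Prod.ext (Prod.ext ?_ ?_) ?_
    · simp
    · simp only [Prod.smul_fst, Prod.smul_snd, smul_eq_mul, RingHom.id_apply]
      rw [pH_smul_right]
      ring
    · simp only [Prod.smul_fst, Prod.smul_snd, smul_eq_mul, RingHom.id_apply]
      rw [smul_sub, smul_smul]
      congr 2
      ring

theorem tw_apply (N : ℕ) (x : LV ℚ) : tw N x = twF N 1 x := rfl

theorem tw_symm_apply (N : ℕ) (x : LV ℚ) : (tw N).symm x = twF N (-1) x := rfl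

theorem tw_iso (N : ℕ) (x y : LV ℚ) : pL N (tw N x) (tw N y) = pL N x y := by
  rw [tw_apply, tw_apply]
  unfold twF pL hU
  simp only
  rw [pH_sub_left, pH_sub_right, pH_sub_right, pH_smul_left, pH_smul_left, pH_smul_right,
    pH_smul_right, dl_dl, pH_comm N x.2 dl]
  ring

theorem tw_pT (N : ℕ) (x : LV ℚ) (s : HV ℂ) : pT N (tw N x) s = pC N x.2 s := by
  rw [tw_apply]
  unfold twF pT
  simp only
  rw [sub_eq_add_neg, ← neg_smul, odd_pC_add, odd_pC_smul]
  push_cast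
  ring

/-- `α ↦ β/2`, `β ↦ 2α`, the identity on `H²`. -/
def swap0 : LV ℚ ≃ₗ[ℚ] LV ℚ where
  toFun x := ((2 * x.1.2, x.1.1 / 2), x.2)
  invFun x := ((2 * x.1.2, x.1.1 / 2), x.2)
  left_inv x := by
    refine Prod.ext (Prod.ext ?_ ?_) rfl
    · simp only
      ring
    · simp only
      ring
  right_inv x := by
    refine Prod.ext (Prod.ext ?_ ?_) rfl
    · simp only
      ring
    · simp only
      ring
  map_add' x y := by
    refine Prod.ext (Prod.ext ?_ ?_) rfl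
    · simp only [Prod.fst_add, Prod.snd_add]
      ring
    · simp only [Prod.fst_add, Prod.snd_add]
      ring
  map_smul' c x := by
    refine Prod.ext (Prod.ext ?_ ?_) rfl
    · simp only [Prod.smul_fst, Prod.smul_snd, smul_eq_mul, RingHom.id_apply]
      ring
    · simp only [Prod.smul_fst, Prod.smul_snd, smul_eq_mul, RingHom.id_apply]
      ring

theorem swap0_apply (x : LV ℚ) : swap0 x = ((2 * x.1.2, x.1.1 / 2), x.2) := rfl

/-- The map `swap0`, conjugated by `exp(δ/2)`. -/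
def swp (N : ℕ) : LV ℚ ≃ₗ[ℚ] LV ℚ := (tw N).symm.trans (swap0.trans (tw N))

theorem swp_apply (N : ℕ) (x : LV ℚ) : swp N x = tw N (swap0 ((tw N).symm x)) := rfl

theorem swp_iso (N : ℕ) (x y : LV ℚ) : pL N (swp N x) (swp N y) = pL N x y := by
  rw [swp_apply, swp_apply, tw_iso]
  have h : ∀ u v : LV ℚ, pL N (swap0 u) (swap0 v) = pL N u v := by
    intro u v
    rw [swap0_apply, swap0_apply]
    unfold pL hU
    simp only
    ring
  rw [h, ← tw_iso, LinearEquiv.apply_symm_apply, LinearEquiv.apply_symm_apply]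

theorem swp_pT (N : ℕ) (x : LV ℚ) (s : HV ℂ) : pT N (swp N x) s = pT N x s := by
  rw [swp_apply, tw_pT]
  have h : (swap0 ((tw N).symm x)).2 = ((tw N).symm x).2 := rfl
  rw [h, ← tw_pT, LinearEquiv.apply_symm_apply]

theorem swp_swp (N : ℕ) (x : LV ℚ) : swp N (swp N x) = x := by
  rw [swp_apply, swp_apply, LinearEquiv.symm_apply_apply]
  have h : ∀ u : LV ℚ, swap0 (swap0 u) = u := fun u => swap0.left_inv u
  rw [h, LinearEquiv.apply_symm_apply]

theorem swp_val {N p : ℕ} (h : N = 4 * p + 2) (x : LV ℚ) :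
    swp N x = ((2 * x.1.2 + 2 * N * x.2.2.2.2.2.2 + (2 * p + 1) * x.1.1,
      2 * p ^ 2 * x.1.1 + 2 * N * p * x.2.2.2.2.2.2 + (2 * p + 1) * x.1.2),
      x.2 + (-(p * x.1.1) - x.1.2 - N * x.2.2.2.2.2.2) • dl) := by
  have hN : (N : ℚ) = 4 * p + 2 := by rw [h]; push_cast; ring
  rw [swp_apply, tw_apply, tw_symm_apply, swap0_apply]
  unfold twF
  refine Prod.ext (Prod.ext ?_ ?_) ?_
  · simp only
    rw [pH_dl, hN]
    ring
  · simp only
    rw [pH_sub_right, pH_smul_right, dl_dl, pH_dl, hN]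
    ring
  · simp only
    rw [pH_dl, sub_sub, ← add_smul, sub_eq_add_neg, ← neg_smul, hN]
    congr 2
    ring

theorem dl_int : IntH (dl : HV ℚ) :=
  ⟨⟨IsZ.zero, IsZ.zero⟩, ⟨IsZ.zero, IsZ.zero⟩, ⟨IsZ.zero, IsZ.zero⟩, fun _ => IsZ.zero,
    fun _ => IsZ.zero, IsZ.one⟩

theorem swp_int {N p : ℕ} (h : N = 4 * p + 2) {x : LV ℚ} (hx : IntL x) : IntL (swp N x) := by
  rw [swp_val h]
  have a := hx.1.1
  have b := hx.1.2
  have d : IsZ x.2.2.2.2.2.2 := hx.2.2.2.2.2.2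
  have z2 : IsZ (2 : ℚ) := IsZ.nat 2
  have z1 : IsZ (1 : ℚ) := IsZ.one
  have zp := IsZ.nat p
  have zN := IsZ.nat N
  refine ⟨⟨?_, ?_⟩, hx.2.add (IntH.smul ?_ dl_int)⟩
  · exact ((z2.mul b).add ((z2.mul zN).mul d)).add (((z2.mul zp).add z1).mul a)
  · have : IsZ ((p : ℚ) ^ 2) := by
      rw [sq]
      exact zp.mul zp
    exact (((z2.mul this).mul a).add (((z2.mul zN).mul zp).mul d)).add
      (((z2.mul zp).add z1).mul b)
  · exact ((zp.mul a).neg.sub b).sub (zN.mul d)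

theorem swp_iff {N p : ℕ} (h : N = 4 * p + 2) (x : LV ℚ) : IntL (swp N x) ↔ IntL x := by
  constructor
  · intro hx
    rw [← swp_swp N x]
    exact swp_int h hx
  · exact swp_int h

theorem swp_dst {N p : ℕ} (h : N = 4 * p + 2) :
    swp N (0, dst N) = ((1, (p : ℚ)), dst N - (1 / 2 : ℚ) • dl) := by
  have hN : (N : ℚ) ≠ 0 := by
    rw [h]
    positivity
  rw [swp_val h]
  have hd : (dst N).2.2.2.2.2 = 1 / (2 * (N : ℚ)) := by simp [dst, dl]
  simp only [hd]
  refine Prod.ext (Prod.ext ?_ ?_) ?_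
  · simp only [Prod.fst_zero, Prod.snd_zero]
    field_simp
    ring
  · simp only [Prod.fst_zero, Prod.snd_zero]
    field_simp
    ring
  · simp only [Prod.fst_zero, Prod.snd_zero]
    have e : (-((p : ℚ) * 0) - 0 - N * (1 / (2 * N)) : ℚ) = -(1 / 2) := by
      field_simp
      ring
    rw [e, neg_smul, sub_eq_add_neg]

end Pool.Agent.H.MP_072fb1_ag.K3
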